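import Pool.Agent.helper65.GP.PF

/-!
# MP_c8d30a: assembly: a path is replaced by a cheap one if the states which are not pair free have few labels
-/

set_option autoImplicit false

namespace NTH

universe u v
variable {Ω : Type u} {p : Ω → Ω}

theorem Pth.mono {Q Q' : St Ω → Prop} {a : ℕ} {s t : St Ω} (h : Pth p Q a s t) (hQ : ∀ x, Q x → Q' x) : Pth p Q' a s t := by
  induction h with
  | refl s h => exact .refl s (hQ s h)
  | head hs h _ ih => exact .head (hQ _ hs) h ih

theorem Pth.left {Q : St Ω → Prop} {a : ℕ} {s t : St Ω} (h : Pth p Q a s t) : Q s := by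
  cases h with
  | refl _ h => exact h
  | head h _ _ => exact h

theorem Pth.right {Q : St Ω → Prop} {a : ℕ} {s t : St Ω} (h : Pth p Q a s t) : Q t := by
  induction h with
  | refl _ h => exact h
  | head _ _ _ ih => exact ih

theorem Sp.le_one {c : ℕ} {s t : St Ω} (h : Sp p c s t) : c ≤ 1 := by
  have key : ∀ {s t : St Ω}, SL p c s t → c ≤ 1 := by
    intro s t h
    cases h <;> omega
  rcases h with h | h
  · exact key h
  · exact key h

theorem Pth.toReach {a : ℕ} {s t : St Ω} (h : Pth p (N p) a s t) : Reach p a s t := by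
  induction h with
  | refl s h => exact .refl 0 s h
  | head hs h _ ih => exact .head hs h ih

theorem Reach.toPth {a : ℕ} {s t : St Ω} (h : Reach p a s t) : ∃ c ≤ a, Pth p (N p) c s t := by
  induction h with
  | refl a s h => exact ⟨0, Nat.zero_le _, .refl s h⟩
  | @head a c s t v hs h _ ih =>
    obtain ⟨c', hc', h'⟩ := ih
    exact ⟨c + c', by omega, .head hs h h'⟩

/-- a property which is kept by the steps holds on the path. -/
theorem Pth.and {Q C : St Ω → Prop} (hC : ∀ (c : ℕ) (s t : St Ω), C s → Sp p c s t → C t) {a : ℕ} {s t : St Ω} (h : Pth p Q a s t) (hs : C s) :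
    Pth p (fun x => Q x ∧ C x) a s t := by
  induction h with
  | refl s h => exact .refl s ⟨h, hs⟩
  | head h1 h _ ih => exact .head ⟨h1, hs⟩ h (ih (hC _ _ _ hs h))

/-- the first state with the property `B`. -/
theorem Pth.first {Q B : St Ω → Prop} {a : ℕ} {s t : St Ω} (h : Pth p Q a s t) :
    Pth p (fun x => Q x ∧ ¬ B x) a s t ∨ ∃ (v : St Ω) (b : ℕ), B v ∧ Pth p Q b v t ∧ b ≤ a ∧
      (v = s ∨ ∃ (w : St Ω) (c d : ℕ), Pth p (fun x => Q x ∧ ¬ B x) c s w ∧ Sp p d w v) := by
  classical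
  induction h with
  | refl s h =>
    by_cases hB : B s
    · exact Or.inr ⟨s, 0, hB, .refl s h, le_refl _, Or.inl rfl⟩
    · exact Or.inl (.refl s ⟨h, hB⟩)
  | @head a c s t v hs h ht ih =>
    by_cases hB : B s
    · exact Or.inr ⟨s, c + a, hB, .head hs h ht, le_refl _, Or.inl rfl⟩
    · rcases ih with ih | ⟨v', b, h1, h2, h3, h4⟩
      · exact Or.inl (.head ⟨hs, hB⟩ h ih)
      · refine Or.inr ⟨v', b, h1, h2, by omega, Or.inr ?_⟩
        rcases h4 with rfl | ⟨w, c', d, h5, h6⟩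
        · exact ⟨s, 0, c, .refl s ⟨hs, hB⟩, h⟩
        · exact ⟨w, c + c', d, .head ⟨hs, hB⟩ h h5, h6⟩

/-- the last state with the property `B`. -/
theorem Pth.last {Q B : St Ω → Prop} {a : ℕ} {s t : St Ω} (h : Pth p Q a s t) :
    Pth p (fun x => Q x ∧ ¬ B x) a s t ∨ ∃ v : St Ω, B v ∧ Q v ∧
      (v = t ∨ ∃ (w : St Ω) (c d : ℕ), Sp p d v w ∧ Pth p (fun x => Q x ∧ ¬ B x) c w t) := by
  classical
  induction h with
  | refl s h =>
    by_cases hB : B s
    · exact Or.inr ⟨s, hB, h, Or.inl rfl⟩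
    · exact Or.inl (.refl s ⟨h, hB⟩)
  | @head a c s t v hs h ht ih =>
    rcases ih with ih | ⟨v', h1, h2, h3⟩
    · by_cases hB : B s
      · exact Or.inr ⟨s, hB, hs, Or.inr ⟨t, a, c, h, ih⟩⟩
      · exact Or.inl (.head ⟨hs, hB⟩ h ih)
    · exact Or.inr ⟨v', h1, h2, h3⟩

/-- ASSEMBLY (abstract): all states of the path have the property `C`, bad states have labels in the finite set `L`, bad states with the same label are connected at cost `P`, paths without bad states have cost at most `G`. -/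
theorem ASM {ι : Type v} {C Bad : St Ω → Prop} {lab : St Ω → ι} {G P : ℕ}
    (hgap : ∀ (c : ℕ) (s t : St Ω), C s → Pth p (fun x => N p x ∧ ¬ Bad x) c s t → c ≤ G)
    (hlink : ∀ v v' : St Ω, C v → C v' → N p v → N p v' → Bad v → Bad v' → lab v = lab v' → Reach p P v v')
    (L : Finset ι) : ∀ (a : ℕ) (s t : St Ω), Pth p (fun x => (N p x ∧ C x) ∧ (Bad x → lab x ∈ L)) a s t → Reach p (L.card * (G + P + 2) + G) s t := by
  classical
  induction L using Finset.strongInduction with
  | H L ih =>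
    intro a s t h
    rcases Pth.first (B := Bad) h with h1 | ⟨v, b, hv, h2, -, h3⟩
    · have h4 := h1.mono (Q' := fun x => N p x ∧ ¬ Bad x) (fun x hx => ⟨hx.1.1.1, hx.2⟩)
      have h5 := hgap a s t h.left.1.2 h4
      exact ((h4.mono (fun x hx => hx.1)).toReach).mono (by omega)
    · have hvL : lab v ∈ L := h2.left.2 hv
      have hcard : (L.erase (lab v)).card + 1 = L.card := Finset.card_erase_add_one hvL
      -- the way to `v`
      have hsv : Reach p (G + 1) s v := by
        rcases h3 with rfl | ⟨w, c, d, h4, h5⟩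
        · exact .refl _ _ h.left.1.1
        · have h6 := h4.mono (Q' := fun x => N p x ∧ ¬ Bad x) (fun x hx => ⟨hx.1.1.1, hx.2⟩)
          have h7 := hgap c s w h.left.1.2 h6
          have h8 : Reach p c s w := (h6.mono (fun x hx => hx.1)).toReach
          have h9 : Reach p (d + 0) w v := .head h8.right h5 (.refl 0 v h2.left.1.1)
          exact (h8.trans h9).mono (by have := h5.le_one; omega)
      rcases Pth.last (B := fun x => Bad x ∧ lab x = lab v) h2 with h4 | ⟨v', h4, h5, h6⟩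
      · exact absurd ⟨hv, rfl⟩ h4.left.2
      · have hvv : Reach p P v v' := hlink v v' h2.left.1.2 h5.1.2 h2.left.1.1 h5.1.1 hv h4.1 h4.2.symm
        rcases h6 with rfl | ⟨w, c, d, h7, h8⟩
        · refine (hsv.trans hvv).mono ?_
          rw [← hcard]
          have : ((L.erase (lab v)).card + 1) * (G + P + 2) = (L.erase (lab v)).card * (G + P + 2) + (G + P + 2) := by ring
          rw [this]
          omega
        · have h9 := ih (L.erase (lab v)) (Finset.erase_ssubset hvL) c w t (h8.mono (by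
            rintro x ⟨⟨hx1, hx2⟩, hx3⟩
            refine ⟨hx1, fun hx4 => Finset.mem_erase.2 ⟨fun hx5 => hx3 ⟨hx4, hx5⟩, hx2 hx4⟩⟩))
          have h10 : Reach p (d + 0) v' w := .head h5.1.1 h7 (.refl 0 w h8.left.1.1.1)
          refine (((hsv.trans hvv).trans h10).trans h9).mono ?_
          have h11 := h7.le_one
          rw [← hcard]
          have : ((L.erase (lab v)).card + 1) * (G + P + 2) = (L.erase (lab v)).card * (G + P + 2) + (G + P + 2) := by ring
          rw [this]
          omega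

/-- ASSEMBLY with (PF): the labels and the links are only needed for the states which are not pair free. -/
theorem ASM_PF {ι : Type v} {lab : St Ω → ι} {P : ℕ} (s₀ : St Ω) (hw : WF p s₀) (hi : Irr p s₀) (L : Finset ι)
    (hlab : ∀ x : St Ω, WF p x → Irr p x → (x.1 ++ x.2).Perm (s₀.1 ++ s₀.2) → N p x → ¬ PFs p x → lab x ∈ L)
    (hlink : ∀ x x' : St Ω, WF p x → Irr p x → (x.1 ++ x.2).Perm (s₀.1 ++ s₀.2) → N p x → ¬ PFs p x →
      WF p x' → Irr p x' → (x'.1 ++ x'.2).Perm (s₀.1 ++ s₀.2) → N p x' → ¬ PFs p x' → lab x = lab x' → Reach p P x x')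
    (a : ℕ) (t : St Ω) (h : Reach p a s₀ t) :
    Reach p (L.card * ((s₀.1 ++ s₀.2).length * (s₀.1 ++ s₀.2).length + P + 2) + (s₀.1 ++ s₀.2).length * (s₀.1 ++ s₀.2).length) s₀ t := by
  obtain ⟨c, -, hc⟩ := h.toPth
  have hC : ∀ (c : ℕ) (s t : St Ω), (WF p s ∧ Irr p s ∧ (s.1 ++ s.2).Perm (s₀.1 ++ s₀.2)) → Sp p c s t →
      (WF p t ∧ Irr p t ∧ (t.1 ++ t.2).Perm (s₀.1 ++ s₀.2)) := by
    rintro c s t ⟨h1, h2, h3⟩ h4
    exact ⟨h1.of_perm h4.perm, Irr.step h1 h2 h4, h4.perm.symm.trans h3⟩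
  refine ASM (C := fun s => WF p s ∧ Irr p s ∧ (s.1 ++ s.2).Perm (s₀.1 ++ s₀.2)) (Bad := fun x => ¬ PFs p x) (lab := lab) ?_ ?_ L c s₀ t ?_
  · intro c s t hs h
    have h1 := h.mono (Q' := PFs p) (fun x hx => not_not.1 hx.2)
    have h2 := PF hs.1 h1
    rwa [hs.2.2.length_eq] at h2
  · intro v v' hv hv' h1 h2 h3 h4 h5
    exact hlink v v' hv.1 hv.2.1 hv.2.2 h1 h3 hv'.1 hv'.2.1 hv'.2.2 h2 h4 h5
  · have h1 := hc.and hC ⟨hw, hi, List.Perm.refl _⟩
    refine h1.mono ?_
    rintro x ⟨hx1, hx2⟩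
    exact ⟨⟨hx1, hx2⟩, fun hx3 => hlab x hx2.1 hx2.2.1 hx2.2.2 hx1 hx3⟩

end NTH
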