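import Pool.Agent.helper65.GP.PH

/-!
# MP_c8d30a: UB: from token states to equations of a fixed length

A doubled variable with the letters behind it which are not doubled is a unit; the tokens are the units.
-/

set_option autoImplicit false
set_option linter.unusedSectionVars false
set_option linter.unusedSimpArgs false

namespace NTH

open Pool.Agent.helper36.WE (Eqn Quadratic size PathLen ins Walk DStep DStepL dbl occ Tok ins_cons ins_append ins_of_notMem
  ins_ins ins_nil length_ins count_ins psi_eq_ins lawfulBEq_sum mem_dbl levelstep size_swap occ_swap walk_swap quadratic_swap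
  quadratic_step size_le seg_bound exists_walk exists_units flat GoodU flat_cons flat_append flat_nil)

attribute [local instance] lawfulBEq_sum

variable {X A : Type} [DecidableEq X] [DecidableEq A]

/-! ## Runs -/

/-- the winner `x` moves the word `w`. -/
theorem UB_run (D' : Finset X) (x : X) (hx : x ∈ D') (w : List (X ⊕ A)) : ∀ U W : List (X ⊕ A), Sum.inl x ∉ w →
    Walk (DStep D') w.length ((Sum.inl x :: U, w ++ W) : Eqn X A) (Sum.inl x :: ins w x U, ins w x W) := by
  induction w with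
  | nil =>
    intro U W _
    rw [Pool.Agent.helper36.WE.ins_empty, Pool.Agent.helper36.WE.ins_empty]
    exact Walk.refl _ _
  | cons y w ih =>
    intro U W hw
    rw [List.mem_cons, not_or] at hw
    have h1 : DStep D' ((Sum.inl x :: U, y :: (w ++ W)) : Eqn X A) (Sum.inl x :: ins [y] x U, w ++ ins [y] x W) := by
      refine Or.inl ⟨x, hx, y, U, w ++ W, Ne.symm hw.1, rfl, ?_⟩
      rw [ins_append, ins_of_notMem [y] x hw.2]
    have h2 := ih (ins [y] x U) (ins [y] x W) hw.2
    rw [ins_ins _ _ _ (by simpa using hw.1), ins_ins _ _ _ (by simpa using hw.1)] at h2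
    have := (Walk.single h1).append h2
    rw [List.length_cons, Nat.add_comm w.length 1]
    exact this

theorem UB_dstep {D' : Finset X} {n : ℕ} {s t : Eqn X A} (h : Walk (DStep D') n s t) : Walk Pool.Agent.helper36.WE.Step n s t :=
  h.mono (fun _ _ h => h.step)

theorem UB_walk_rtg {α : Type*} {r : α → α → Prop} {n : ℕ} {a b : α} (h : Walk r n a b) : Relation.ReflTransGen r a b := by
  obtain ⟨f, f0, fn, hf⟩ := h
  have := Walk.reach hf n le_rfl
  rwa [f0, fn] at this

/-! ## Codings -/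

/-- the coding of the doubled variables `D` by tokens. -/
structure Cod {Ω : Type} (D : Finset X) (p : Ω → Ω) (hd : Ω → X) (tl : Ω → List (X ⊕ A)) : Prop where
  hdD : ∀ t, hd t ∈ D
  hdp : ∀ t t', hd t' = hd t ↔ t' = t ∨ t' = p t
  tlT : ∀ t, ∀ s ∈ tl t, Tok D s

section

variable {Ω : Type} {D : Finset X} {p : Ω → Ω} {hd : Ω → X} {tl : Ω → List (X ⊕ A)}

/-- the unit of a token. -/
def un (hd : Ω → X) (tl : Ω → List (X ⊕ A)) (t : Ω) : List (X ⊕ A) := Sum.inl (hd t) :: tl t

/-- the word of a list of tokens. -/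
def dec (hd : Ω → X) (tl : Ω → List (X ⊕ A)) (l : List Ω) : List (X ⊕ A) := l.flatMap (un hd tl)

/-- the equation of a state. -/
def decs (hd : Ω → X) (tl : Ω → List (X ⊕ A)) (s : St Ω) : Eqn X A := (dec hd tl s.1, dec hd tl s.2)

theorem dec_nil : dec hd tl [] = [] := rfl

theorem dec_cons (t : Ω) (l : List Ω) : dec hd tl (t :: l) = un hd tl t ++ dec hd tl l := rfl

theorem dec_append (l l' : List Ω) : dec hd tl (l ++ l') = dec hd tl l ++ dec hd tl l' := by
  simp [dec, List.flatMap_append]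

theorem decs_mir (s : St Ω) : decs hd tl (mir s) = (decs hd tl s).swap := rfl

theorem Cod.tl_notMem (hC : Cod D p hd tl) (t t' : Ω) : Sum.inl (hd t) ∉ tl t' := by
  intro h
  exact hC.tlT t' _ h (hd t) (hC.hdD t) rfl

theorem Cod.un_notMem (hC : Cod D p hd tl) {t t' : Ω} (h1 : t' ≠ t) (h2 : t' ≠ p t) : Sum.inl (hd t) ∉ un hd tl t' := by
  intro h
  rcases List.mem_cons.1 h with h3 | h3
  · have h4 : hd t' = hd t := (Sum.inl.inj h3).symm
    rcases (hC.hdp t t').1 h4 with h5 | h5
    · exact h1 h5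
    · exact h2 h5
  · exact hC.tl_notMem t t' h3

theorem Cod.dec_notMem (hC : Cod D p hd tl) {t : Ω} {l : List Ω} (h1 : t ∉ l) (h2 : p t ∉ l) : Sum.inl (hd t) ∉ dec hd tl l := by
  intro h
  obtain ⟨t', ht', h3⟩ := List.mem_flatMap.1 h
  exact hC.un_notMem (t := t) (t' := t') (fun h4 => h1 (h4 ▸ ht')) (fun h4 => h2 (h4 ▸ ht')) h3

theorem Cod.hd_p (hC : Cod D p hd tl) (t : Ω) : hd (p t) = hd t := (hC.hdp t (p t)).2 (Or.inr rfl)

/-- insertion of the unit of `y` before the partner of `x`. -/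
theorem Cod.ins_dec (hC : Cod D p hd tl) {x : Ω} {l1 l2 : List Ω} (w : List (X ⊕ A)) (h1 : x ∉ l1) (h2 : p x ∉ l1) (h3 : x ∉ l2) (h4 : p x ∉ l2) :
    ins w (hd x) (dec hd tl (l1 ++ p x :: l2)) = dec hd tl l1 ++ (w ++ dec hd tl (p x :: l2)) := by
  rw [dec_append, ins_append, ins_of_notMem _ _ (hC.dec_notMem h1 h2), dec_cons]
  unfold un
  rw [hC.hd_p, List.cons_append, ins_cons, if_pos rfl, ins_append, ins_of_notMem _ _ (hC.tl_notMem x (p x)),
    ins_of_notMem _ _ (hC.dec_notMem h3 h4)]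
  simp

theorem Cod.ins_dec' (hC : Cod D p hd tl) {x : Ω} {l : List Ω} (w : List (X ⊕ A)) (h1 : x ∉ l) (h2 : p x ∉ l) :
    ins w (hd x) (dec hd tl l) = dec hd tl l := ins_of_notMem _ _ (hC.dec_notMem h1 h2)

theorem Cod.ins_tl (hC : Cod D p hd tl) (x z : Ω) (w v : List (X ⊕ A)) :
    ins w (hd x) (tl z ++ v) = tl z ++ ins w (hd x) v := by
  rw [ins_append, ins_of_notMem _ _ (hC.tl_notMem x z)]

/-- the facts on the tokens of a step. -/
theorem UB_full {x y : Ω} {U V : List Ω} (hC : Cod D p hd tl) (hw : WF p (x :: U, y :: V)) (hy : y ≠ p x) :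
    ∃ (c : ℕ) (s' : St Ω), SL p c (x :: U, y :: V) s' ∧
      ((Sum.inl (hd x) :: ins (un hd tl y) (hd x) (tl x ++ dec hd tl U), ins (un hd tl y) (hd x) (dec hd tl V)) : Eqn X A) = decs hd tl s' := by
  have hnd := hw.nd
  simp only [List.cons_append] at hnd
  obtain ⟨hx1, hnd1⟩ := List.nodup_cons.1 hnd
  obtain ⟨hU, hyV, hdis⟩ := List.nodup_append.1 hnd1
  obtain ⟨hyV', hV⟩ := List.nodup_cons.1 hyV
  have hxU : x ∉ U := fun h => hx1 (List.mem_append_left _ h)
  have hxV : x ∉ V := fun h => hx1 (List.mem_append_right _ (List.mem_cons_of_mem _ h))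
  have hpx : p x ∈ U ∨ p x ∈ V := by
    have h1 := hw.cl x (by simp)
    simp only [List.mem_append, List.mem_cons] at h1
    rcases h1 with (h1 | h1) | (h1 | h1)
    · exact absurd h1 (hw.ne x)
    · exact Or.inl h1
    · exact absurd h1.symm hy
    · exact Or.inr h1
  rcases hpx with h1 | h1
  · obtain ⟨B1, B2, rfl⟩ := List.append_of_mem h1
    have hn1 := List.nodup_append.1 hU
    have hn2 := List.nodup_cons.1 hn1.2.1
    refine ⟨1, (x :: (B1 ++ y :: p x :: B2), V), SL.tr x y B1 B2 V, ?_⟩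
    have hxB1 : x ∉ B1 := fun h => hxU (List.mem_append_left _ h)
    have hxB2 : x ∉ B2 := fun h => hxU (List.mem_append_right _ (List.mem_cons_of_mem _ h))
    have hpB1 : p x ∉ B1 := fun h => hn1.2.2 _ h _ List.mem_cons_self rfl
    have hpV : p x ∉ V := fun h => hdis _ h1 _ (List.mem_cons_of_mem _ h) rfl
    rw [hC.ins_tl, hC.ins_dec _ hxB1 hpB1 hxB2 hn2.1, hC.ins_dec' _ hxV hpV]
    unfold decs
    simp only [dec_cons, dec_append, un, List.cons_append, List.append_assoc]
  · obtain ⟨B1, B2, rfl⟩ := List.append_of_mem h1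
    have hn1 := List.nodup_append.1 hV
    have hn2 := List.nodup_cons.1 hn1.2.1
    refine ⟨0, (x :: U, B1 ++ y :: p x :: B2), SL.reg x y U B1 B2, ?_⟩
    have hxB1 : x ∉ B1 := fun h => hxV (List.mem_append_left _ h)
    have hxB2 : x ∉ B2 := fun h => hxV (List.mem_append_right _ (List.mem_cons_of_mem _ h))
    have hpB1 : p x ∉ B1 := fun h => hn1.2.2 _ h _ List.mem_cons_self rfl
    have hpU : p x ∉ U := fun h => hdis _ h _ (List.mem_cons_of_mem _ h1) rfl
    rw [hC.ins_tl, hC.ins_dec _ hxB1 hpB1 hxB2 hn2.1, hC.ins_dec' _ hxU hpU]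
    unfold decs
    simp only [dec_cons, dec_append, un, List.cons_append, List.append_assoc]

/-- the fronts of a step of the first word. -/
theorem UB_fronts {c : ℕ} {s s' : St Ω} (hw : WF p s) (hs : SL p c s s') : ∃ (x y : Ω) (U V : List Ω), s = (x :: U, y :: V) ∧ y ≠ p x := by
  cases hs with
  | reg x y U A B =>
    refine ⟨x, y, U, A ++ p x :: B, rfl, ?_⟩
    rintro rfl
    have h1 := (List.nodup_append.1 hw.nd).2.1
    exact (List.nodup_cons.1 h1).1 (by simp)
  | tr x y A B V =>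
    refine ⟨x, y, A ++ p x :: B, V, rfl, ?_⟩
    rintro rfl
    exact (List.nodup_append.1 hw.nd).2.2 (p x) (by simp) (p x) List.mem_cons_self rfl

/-- the step of the first word is determined by the state. -/
theorem UB_det {c c' : ℕ} {s s' s'' : St Ω} (hw : WF p s) (h1 : SL p c s s') (h2 : SL p c' s s'') : c = c' ∧ s' = s'' := by
  have hnd := hw.nd
  have key : ∀ {x : Ω} {A B A' B' : List Ω}, (A ++ x :: B).Nodup → A ++ x :: B = A' ++ x :: B' → A = A' ∧ B = B' := by
    intro x A B A' B' hn h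
    have h3 : x ∉ B := (List.nodup_cons.1 (List.nodup_append.1 hn).2.1).1
    have h4 : x ∉ A := fun h4 => (List.nodup_append.1 hn).2.2 x h4 x List.mem_cons_self rfl
    have hn' : (A' ++ x :: B').Nodup := h ▸ hn
    have h5 : x ∉ A' := fun h4 => (List.nodup_append.1 hn').2.2 x h4 x List.mem_cons_self rfl
    rcases List.append_eq_append_iff.1 h with ⟨as, h6, h7⟩ | ⟨as, h6, h7⟩
    · rcases as with _ | ⟨a, as⟩
      · simp only [List.append_nil, List.nil_append] at h6 h7
        exact ⟨h6.symm, (List.cons.inj h7).2⟩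
      · have := (List.cons.inj h7).1
        exfalso
        apply h5
        rw [h6, this]
        simp
    · rcases as with _ | ⟨a, as⟩
      · simp only [List.append_nil, List.nil_append] at h6 h7
        exact ⟨h6, (List.cons.inj h7).2.symm⟩
      · have := (List.cons.inj h7).1
        exfalso
        apply h4
        rw [h6, this]
        simp
  cases h1 with
  | reg x y U A B =>
    generalize hs : ((x :: U, y :: (A ++ p x :: B)) : St Ω) = s0 at h2
    cases h2 with
    | reg x' y' U' A' B' =>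
      obtain ⟨e1, e2⟩ := Prod.mk.inj hs
      obtain ⟨rfl, rfl⟩ := List.cons.inj e1
      obtain ⟨rfl, e3⟩ := List.cons.inj e2
      have h3 : (A ++ p x :: B).Nodup := (List.nodup_cons.1 (List.nodup_append.1 hnd).2.1).2
      obtain ⟨rfl, rfl⟩ := key h3 e3
      exact ⟨rfl, rfl⟩
    | tr x' y' A' B' V' =>
      obtain ⟨e1, e2⟩ := Prod.mk.inj hs
      obtain ⟨rfl, rfl⟩ := List.cons.inj e1
      exact ((List.nodup_append.1 hnd).2.2 (p x) (by simp) (p x) (by simp) rfl).elim
  | tr x y A B V =>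
    generalize hs : ((x :: (A ++ p x :: B), y :: V) : St Ω) = s0 at h2
    cases h2 with
    | reg x' y' U' A' B' =>
      obtain ⟨e1, e2⟩ := Prod.mk.inj hs
      obtain ⟨rfl, rfl⟩ := List.cons.inj e1
      obtain ⟨rfl, rfl⟩ := List.cons.inj e2
      exact ((List.nodup_append.1 hnd).2.2 (p x) (by simp) (p x) (by simp) rfl).elim
    | tr x' y' A' B' V' =>
      obtain ⟨e1, e2⟩ := Prod.mk.inj hs
      obtain ⟨rfl, e3⟩ := List.cons.inj e1
      obtain ⟨rfl, rfl⟩ := List.cons.inj e2
      have h3 : (A ++ p x :: B).Nodup := (List.nodup_cons.1 (List.nodup_append.1 hnd).1).2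
      obtain ⟨rfl, rfl⟩ := key h3 e3
      exact ⟨rfl, rfl⟩

theorem UB_size_dec (l : List Ω) : l.length ≤ (dec hd tl l).length := by
  induction l with
  | nil => simp
  | cons t l ih =>
    rw [dec_cons, List.length_append, List.length_cons]
    simp only [un, List.length_cons]
    omega

theorem UB_size (s : St Ω) : (s.1 ++ s.2).length ≤ size (decs hd tl s) := by
  unfold size decs
  rw [List.length_append]
  have h1 := UB_size_dec (hd := hd) (tl := tl) s.1
  have h2 := UB_size_dec (hd := hd) (tl := tl) s.2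
  simp only
  omega

theorem UB_size_perm {s s' : St Ω} (h : (s.1 ++ s.2).Perm (s'.1 ++ s'.2)) : size (decs hd tl s) = size (decs hd tl s') := by
  have h1 : ∀ s : St Ω, size (decs hd tl s) = (dec hd tl (s.1 ++ s.2)).length := by
    intro s
    unfold size decs
    rw [dec_append, List.length_append]
  rw [h1, h1]
  exact (List.Perm.flatMap_right _ h).length_eq

/-- a step of the first word as a walk of the equation. -/
theorem UB_stepL {D' : Finset X} (hC : Cod D p hd tl) {c : ℕ} {s s' : St Ω} (hw : WF p s) (hs : SL p c s s')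
    (hx : ∀ x U, s.1 = x :: U → hd x ∈ D') : ∃ k ≤ size (decs hd tl s), Walk (DStep D') k (decs hd tl s) (decs hd tl s') := by
  obtain ⟨x, y, U, V, rfl, hy⟩ := UB_fronts hw hs
  obtain ⟨c', s'', h1, h2⟩ := UB_full (hd := hd) (tl := tl) hC hw hy
  obtain ⟨-, rfl⟩ := UB_det hw hs h1
  have hne : y ≠ x := by
    rintro rfl
    exact (List.nodup_append.1 hw.nd).2.2 y (by simp) y (by simp) rfl
  refine ⟨(un hd tl y).length, ?_, ?_⟩
  · unfold size decs
    simp only [dec_cons, List.length_append]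
    omega
  · rw [← h2]
    exact UB_run D' (hd x) (hx x U rfl) (un hd tl y) (tl x ++ dec hd tl U) (dec hd tl V) (hC.un_notMem hne hy)

theorem UB_stepSp (hC : Cod D p hd tl) {c : ℕ} {s s' : St Ω} (hw : WF p s) (hs : Sp p c s s') :
    ∃ k ≤ size (decs hd tl s), Walk Pool.Agent.helper36.WE.Step k (decs hd tl s) (decs hd tl s') := by
  rcases hs with hs | hs
  · obtain ⟨k, hk, h⟩ := UB_stepL (D' := D) hC hw hs (fun x _ _ => hC.hdD x)
    exact ⟨k, hk, UB_dstep h⟩
  · obtain ⟨k, hk, h⟩ := UB_stepL (D' := D) hC hw.mir hs (fun x _ _ => hC.hdD x)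
    rw [decs_mir, size_swap] at hk
    refine ⟨k, hk, ?_⟩
    have := walk_swap (UB_dstep h)
    simpa [decs_mir] using this

/-! ## Blocks of steps of cost `0` -/

theorem UB_count {t : Ω} {l : List Ω} (hC : Cod D p hd tl) (hn : l.Nodup) (h1 : t ∈ l) (h2 : p t ∉ l) :
    (dec hd tl l).count (Sum.inl (hd t)) = 1 := by
  obtain ⟨l1, l2, rfl⟩ := List.append_of_mem h1
  have hn1 := List.nodup_append.1 hn
  have hn2 := List.nodup_cons.1 hn1.2.1
  have h3 : t ∉ l1 := fun h => hn1.2.2 _ h _ List.mem_cons_self rfl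
  have h4 : p t ∉ l1 := fun h => h2 (List.mem_append_left _ h)
  have h5 : p t ∉ l2 := fun h => h2 (List.mem_append_right _ (List.mem_cons_of_mem _ h))
  rw [dec_append, dec_cons, List.count_append, List.count_append, List.count_eq_zero_of_not_mem (hC.dec_notMem h3 h4),
    List.count_eq_zero_of_not_mem (hC.dec_notMem hn2.1 h5)]
  unfold un
  rw [List.count_cons_self, List.count_eq_zero_of_not_mem (hC.tl_notMem t t)]

theorem UB_step0 {D' : Finset X} (hC : Cod D p hd tl) {s s' : St Ω} (hw : WF p s) (hs : Sp p 0 s s')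
    (hm : ∀ t, t ∈ s.1 → p t ∈ s.2 → hd t ∈ D') : Relation.ReflTransGen (DStep D') (decs hd tl s) (decs hd tl s') ∧
      (∀ t, t ∈ s'.1 ↔ t ∈ s.1) ∧ ∀ t, t ∈ s'.2 ↔ t ∈ s.2 := by
  have key : ∀ {s s' : St Ω}, WF p s → SL p 0 s s' → (∀ t, t ∈ s.1 → p t ∈ s.2 → hd t ∈ D') →
      Relation.ReflTransGen (DStep D') (decs hd tl s) (decs hd tl s') ∧ (∀ t, t ∈ s'.1 ↔ t ∈ s.1) ∧ ∀ t, t ∈ s'.2 ↔ t ∈ s.2 := by
    intro s s' hw hs hm
    refine ⟨?_, ?_⟩
    · obtain ⟨k, -, h⟩ := UB_stepL (D' := D') (tl := tl) hC hw hs (by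
        cases hs with
        | reg x y U A B =>
          intro x' U' h
          rw [← (List.cons.inj h).1]
          exact hm x (by simp) (by simp))
      exact UB_walk_rtg h
    · cases hs with
      | reg x y U A B =>
        refine ⟨fun t => Iff.rfl, fun t => ?_⟩
        simp only [List.mem_cons, List.mem_append]
        tauto
  rcases hs with hs | hs
  · exact key hw hs hm
  · obtain ⟨h1, h2, h3⟩ := key hw.mir hs (fun t ht1 ht2 => by
      have h4 := hm (p t) ht2 (by rw [hw.inv]; exact ht1)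
      rwa [hC.hd_p] at h4)
    refine ⟨?_, h3, h2⟩
    have h4 := Pool.Agent.helper36.WE.reach_swap h1
    simpa [decs_mir] using h4

theorem UB_block0 {D' : Finset X} (hC : Cod D p hd tl) {a : ℕ} {s t : St Ω} (h : Pth p (fun _ => True) a s t) : a = 0 → WF p s →
    (∀ t, t ∈ s.1 → p t ∈ s.2 → hd t ∈ D') → Relation.ReflTransGen (DStep D') (decs hd tl s) (decs hd tl t) := by
  induction h with
  | refl s _ => intro _ _ _; exact Relation.ReflTransGen.refl
  | @head a c s t v _ h _ ih =>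
    intro ha hw hm
    obtain rfl : c = 0 := by omega
    obtain rfl : a = 0 := by omega
    obtain ⟨h1, h2, h3⟩ := UB_step0 (tl := tl) hC hw h hm
    refine h1.trans (ih rfl (hw.of_perm h.perm) ?_)
    intro z hz1 hz2
    exact hm z ((h2 z).1 hz1) ((h3 _).1 hz2)

theorem UB_block (hC : Cod D p hd tl) {s t : St Ω} (hw : WF p s) (h : Pth p (fun _ => True) 0 s t) :
    ∃ n ≤ size (decs hd tl s) * (55 * size (decs hd tl s) ^ 4 + 2), Walk Pool.Agent.helper36.WE.Step n (decs hd tl s) (decs hd tl t) := by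
  classical
  obtain ⟨D', hD'⟩ : ∃ D' : Finset X, D' = ((s.1.filter (fun t => decide (p t ∈ s.2))).map hd).toFinset := ⟨_, rfl⟩
  have hmem : ∀ x, x ∈ D' ↔ ∃ t ∈ s.1, p t ∈ s.2 ∧ hd t = x := by
    intro x
    rw [hD', List.mem_toFinset, List.mem_map]
    constructor
    · rintro ⟨t, ht, rfl⟩
      rw [List.mem_filter] at ht
      exact ⟨t, ht.1, by simpa using ht.2, rfl⟩
    · rintro ⟨t, h1, h2, rfl⟩
      exact ⟨t, List.mem_filter.2 ⟨h1, by simpa using h2⟩, rfl⟩
  have hcard : D'.card ≤ size (decs hd tl s) := by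
    have h1 : D'.card ≤ ((s.1.filter (fun t => decide (p t ∈ s.2))).map hd).length := by
      rw [hD']
      exact List.toFinset_card_le _
    have h2 : ((s.1.filter (fun t => decide (p t ∈ s.2))).map hd).length ≤ s.1.length := by
      rw [List.length_map]
      exact List.length_filter_le _ _
    have h3 := UB_size (hd := hd) (tl := tl) s
    rw [List.length_append] at h3
    omega
  have hnd := List.nodup_append.1 hw.nd
  have h1 := UB_block0 (D' := D') (tl := tl) hC h rfl hw (fun z h1 h2 => (hmem _).2 ⟨z, h1, h2, rfl⟩)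
  obtain ⟨n, hn, hwalk⟩ := seg_bound (D := D') (by
    intro x hx
    obtain ⟨z, hz1, hz2, rfl⟩ := (hmem x).1 hx
    constructor
    · exact UB_count hC hnd.1 hz1 (fun h => hnd.2.2 _ h _ hz2 rfl)
    · have h2 := UB_count (t := p z) (tl := tl) hC hnd.2.1 hz2 (by
        rw [hw.inv]
        exact fun h => hnd.2.2 _ hz1 _ h rfl)
      rwa [hC.hd_p] at h2) h1
  refine ⟨n, hn.trans ?_, hwalk⟩
  gcongr

theorem UB_split {a : ℕ} {s t : St Ω} (h : Pth p (fun _ => True) a s t) : a = 0 ∨ ∃ (s1 s2 : St Ω) (b : ℕ), a = b + 1 ∧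
    Pth p (fun _ => True) 0 s s1 ∧ Sp p 1 s1 s2 ∧ Pth p (fun _ => True) b s2 t := by
  induction h with
  | refl s _ => exact Or.inl rfl
  | @head a c s t v _ h ht ih =>
    have hc := h.le_one
    rcases Nat.eq_zero_or_pos c with rfl | hc0
    · rcases ih with rfl | ⟨s1, s2, b, rfl, h1, h2, h3⟩
      · exact Or.inl rfl
      · exact Or.inr ⟨s1, s2, b, by omega, .head trivial h h1, h2, h3⟩
    · obtain rfl : c = 1 := by omega
      exact Or.inr ⟨s, t, a, by omega, .refl _ trivial, h, ht⟩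

theorem UB_path (hC : Cod D p hd tl) (sz : ℕ) (a : ℕ) : ∀ (s t : St Ω), WF p s → size (decs hd tl s) = sz → Pth p (fun _ => True) a s t →
    ∃ n ≤ (a + 1) * (sz * (55 * sz ^ 4 + 2)) + a * sz, Walk Pool.Agent.helper36.WE.Step n (decs hd tl s) (decs hd tl t) := by
  induction a with
  | zero =>
    intro s t hw hsz h
    obtain ⟨n, hn, h1⟩ := UB_block (tl := tl) hC hw h
    rw [hsz] at hn
    exact ⟨n, by omega, h1⟩
  | succ a ih =>
    intro s t hw hsz h
    rcases UB_split h with h0 | ⟨s1, s2, b, hb, h1, h2, h3⟩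
    · omega
    · obtain rfl : b = a := by omega
      have hp1 := h1.permT
      have hw1 := hw.of_perm hp1
      have hw2 := hw1.of_perm h2.perm
      have hsz1 : size (decs hd tl s1) = sz := by rw [← UB_size_perm hp1]; exact hsz
      have hsz2 : size (decs hd tl s2) = sz := by rw [← UB_size_perm h2.perm]; exact hsz1
      obtain ⟨n1, hn1, w1⟩ := UB_block (tl := tl) hC hw h1
      obtain ⟨n2, hn2, w2⟩ := UB_stepSp (tl := tl) hC hw1 h2
      obtain ⟨n3, hn3, w3⟩ := ih s2 t hw2 hsz2 h3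
      rw [hsz] at hn1
      rw [hsz1] at hn2
      refine ⟨n1 + n2 + n3, ?_, (w1.append w2).append w3⟩
      have : (b + 1 + 1) * (sz * (55 * sz ^ 4 + 2)) + (b + 1) * sz =
          sz * (55 * sz ^ 4 + 2) + sz + ((b + 1) * (sz * (55 * sz ^ 4 + 2)) + b * sz) := by ring
      omega

/-! ## The converse -/

/-- a state of the equation inside a run of the first word. -/
def Mid (p : Ω → Ω) (hd : Ω → X) (tl : Ω → List (X ⊕ A)) (s : St Ω) (E : Eqn X A) : Prop :=
  ∃ (x y : Ω) (U V : List Ω) (w1 w2 : List (X ⊕ A)), s = (x :: U, y :: V) ∧ y ≠ p x ∧ un hd tl y = w1 ++ w2 ∧ w1 ≠ [] ∧ w2 ≠ [] ∧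
    E = (Sum.inl (hd x) :: ins w1 (hd x) (tl x ++ dec hd tl U), w2 ++ ins w1 (hd x) (dec hd tl V))

theorem UB_ne {x y : Ω} {U V : List Ω} (hw : WF p (x :: U, y :: V)) : y ≠ x := by
  rintro rfl
  exact (List.nodup_append.1 hw.nd).2.2 y (by simp) y (by simp) rfl

theorem Mid.walk (hC : Cod D p hd tl) {s : St Ω} {E : Eqn X A} (hw : WF p s) (h : Mid p hd tl s E) :
    ∃ k ≤ size (decs hd tl s), Walk Pool.Agent.helper36.WE.Step k (decs hd tl s) E := by
  obtain ⟨x, y, U, V, w1, w2, rfl, hy, hu, h1, h2, rfl⟩ := h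
  have hun := hC.un_notMem (UB_ne hw) hy
  rw [hu, List.mem_append, not_or] at hun
  refine ⟨w1.length, ?_, ?_⟩
  · unfold size decs
    simp only [dec_cons, List.length_append, hu]
    omega
  · have h3 := UB_run D (hd x) (hC.hdD x) w1 (tl x ++ dec hd tl U) (w2 ++ dec hd tl V) hun.1
    rw [ins_append w1 (hd x) w2 (dec hd tl V), ins_of_notMem _ _ hun.2] at h3
    have h4 : decs hd tl (x :: U, y :: V) = ((Sum.inl (hd x) :: (tl x ++ dec hd tl U), w1 ++ (w2 ++ dec hd tl V)) : Eqn X A) := by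
      unfold decs
      simp only [dec_cons, hu, List.append_assoc]
      rfl
    rw [h4]
    exact UB_dstep h3

theorem UB_convL (hC : Cod D p hd tl) {s : St Ω} {E E' : Eqn X A} (hw : WF p s) (h : E = decs hd tl s ∨ Mid p hd tl s E)
    (hs : Pool.Agent.helper36.WE.DStepL D E E') : Mid p hd tl s E' ∨ ∃ (c : ℕ) (s' : St Ω), SL p c s s' ∧ E' = decs hd tl s' := by
  obtain ⟨x0, hx0, y0, U0, V0, hne, hE, rfl⟩ := hs
  rcases h with rfl | ⟨x, y, U, V, w1, w2, rfl, hy, hu, h1, h2, rfl⟩
  · obtain ⟨s1, s2⟩ := s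
    obtain ⟨e1, e2⟩ := Prod.mk.inj hE
    simp only at e1 e2
    rcases s1 with _ | ⟨x, U⟩
    · simp [dec_nil] at e1
    rcases s2 with _ | ⟨y, V⟩
    · simp [dec_nil] at e2
    rw [dec_cons] at e1 e2
    unfold un at e1 e2
    rw [List.cons_append] at e1 e2
    obtain ⟨e3, e4⟩ := List.cons.inj e1
    obtain ⟨e5, e6⟩ := List.cons.inj e2
    have e7 : hd x = x0 := Sum.inl.inj e3
    subst e7 e4 e6 e5
    have hyx : y ≠ p x := by
      rintro rfl
      exact hne (by rw [hC.hd_p])
    by_cases ht : tl y = []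
    · right
      obtain ⟨c, s', h3, h4⟩ := UB_full (hd := hd) (tl := tl) hC hw hyx
      refine ⟨c, s', h3, ?_⟩
      rw [← h4, ht, List.nil_append]
      unfold un
      rw [ht]
    · left
      refine ⟨x, y, U, V, [Sum.inl (hd y)], tl y, rfl, hyx, rfl, by simp, ht, ?_⟩
      rw [hC.ins_tl x y]
  · obtain ⟨z, w2', rfl⟩ := List.exists_cons_of_ne_nil h2
    have hun := hC.un_notMem (UB_ne hw) hy
    rw [hu, List.mem_append, List.mem_cons, not_or, not_or] at hun
    obtain ⟨hun1, hun2, hun3⟩ := hun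
    obtain ⟨e1, e2⟩ := Prod.mk.inj hE
    rw [List.cons_append] at e2
    obtain ⟨e3, e4⟩ := List.cons.inj e1
    obtain ⟨e5, e6⟩ := List.cons.inj e2
    have e7 : hd x = x0 := Sum.inl.inj e3
    subst e7 e4 e6 e5
    rw [ins_append [z] (hd x) w2', ins_of_notMem _ _ hun3, ins_ins _ _ _ hun1, ins_ins _ _ _ hun1]
    by_cases ht : w2' = []
    · right
      subst ht
      obtain ⟨c, s', h3, h4⟩ := UB_full (hd := hd) (tl := tl) hC hw hy
      refine ⟨c, s', h3, ?_⟩
      rw [← h4, hu, List.nil_append]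
    · left
      exact ⟨x, y, U, V, w1 ++ [z], w2', rfl, hy, by rw [hu]; simp, by simp, ht, rfl⟩

theorem UB_convN (hC : Cod D p hd tl) {s : St Ω} {E E' : Eqn X A} (h : Mid p hd tl s E) :
    ¬ Pool.Agent.helper36.WE.DStepL D E.swap E' := by
  rintro ⟨x0, hx0, y0, U0, V0, hne, hE, -⟩
  obtain ⟨x, y, U, V, w1, w2, rfl, hy, hu, h1, h2, rfl⟩ := h
  obtain ⟨z, w2', rfl⟩ := List.exists_cons_of_ne_nil h2
  obtain ⟨z1, w1', rfl⟩ := List.exists_cons_of_ne_nil h1
  obtain ⟨e1, -⟩ := Prod.mk.inj hE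
  simp only [List.cons_append] at e1
  have e2 := (List.cons.inj e1).1
  have e3 : tl y = w1' ++ z :: w2' := by
    unfold un at hu
    exact (List.cons.inj hu).2
  have := hC.tlT y z (by rw [e3]; simp)
  exact this x0 hx0 e2

theorem UB_conv (hC : Cod D p hd tl) {s : St Ω} {E E' : Eqn X A} (hw : WF p s)
    (h : E = decs hd tl s ∨ Mid p hd tl s E ∨ Mid p hd tl (mir s) E.swap) (hs : DStep D E E') :
    (Mid p hd tl s E' ∨ Mid p hd tl (mir s) E'.swap) ∨ ∃ (c : ℕ) (s' : St Ω), Sp p c s s' ∧ E' = decs hd tl s' := by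
  rcases hs with hs | hs
  · have h' : (E = decs hd tl s ∨ Mid p hd tl s E) ∨ Mid p hd tl (mir s) E.swap := by tauto
    rcases h' with h' | h'
    · rcases UB_convL hC hw h' hs with h1 | ⟨c, s', h1, h2⟩
      · exact Or.inl (Or.inl h1)
      · exact Or.inr ⟨c, s', Or.inl h1, h2⟩
    · exact absurd (by simpa using hs) (UB_convN (E' := E') hC h')
  · have h' : (E.swap = decs hd tl (mir s) ∨ Mid p hd tl (mir s) E.swap) ∨ Mid p hd tl s E := by
      rcases h with h | h | h
      · exact Or.inl (Or.inl (by rw [h, decs_mir]))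
      · exact Or.inr h
      · exact Or.inl (Or.inr h)
    rcases h' with h' | h'
    · rcases UB_convL hC hw.mir h' hs with h1 | ⟨c, s', h1, h2⟩
      · exact Or.inl (Or.inr h1)
      · refine Or.inr ⟨c, mir s', Or.inr h1, ?_⟩
        rw [decs_mir, ← h2, Prod.swap_swap]
    · exact absurd hs (UB_convN hC h')

/-- steps which keep the length. -/
def Lv (E E' : Eqn X A) : Prop := Pool.Agent.helper36.WE.Step E E' ∧ size E' = size E

theorem UB_lv {E E' : Eqn X A} (hq : Quadratic E) (hD : ∀ z, z ∈ D ↔ occ E z = 2) (h : Lv E E') :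
    DStep D E E' ∧ Quadratic E' ∧ ∀ z, z ∈ D ↔ occ E' z = 2 := by
  obtain ⟨h1, h2⟩ := levelstep hq h.1 h.2
  have h3 : dbl E = D := by
    ext z
    rw [mem_dbl, hD]
  rw [h3] at h1
  refine ⟨h1, quadratic_step hq h.1, fun z => ?_⟩
  rw [hD, h2]

theorem UB_convPath (hC : Cod D p hd tl) {s : St Ω} {E E' : Eqn X A} (hw : WF p s) (hE : E = decs hd tl s) (hq : Quadratic E)
    (hD : ∀ z, z ∈ D ↔ occ E z = 2) (h : Relation.ReflTransGen Lv E E') :
    (∃ (a : ℕ) (t : St Ω), Pth p (fun _ => True) a s t ∧ (E' = decs hd tl t ∨ Mid p hd tl t E' ∨ Mid p hd tl (mir t) E'.swap)) ∧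
      Quadratic E' ∧ ∀ z, z ∈ D ↔ occ E' z = 2 := by
  induction h with
  | refl => exact ⟨⟨0, s, .refl _ trivial, Or.inl hE⟩, hq, hD⟩
  | tail _ hbc ih =>
    obtain ⟨⟨a, t, h1, h2⟩, h3, h4⟩ := ih
    obtain ⟨h5, h6, h7⟩ := UB_lv h3 h4 hbc
    refine ⟨?_, h6, h7⟩
    rcases UB_conv hC (hw.of_perm h1.permT) h2 h5 with h8 | ⟨c, s', h8, h9⟩
    · exact ⟨a, t, h1, Or.inr h8⟩
    · have h10 : Pth p (fun _ => True) (c + 0) t s' := .head trivial h8 (.refl _ trivial)
      exact ⟨a + (c + 0), s', h1.transT h10, Or.inl h9⟩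

/-- the bound for a full equation. -/
theorem UB_fullcase {G : ℕ → ℕ} (hG : Monotone G) (hGB : GB G) (hC : Cod D p hd tl) {s : St Ω} {E E' : Eqn X A} (hw : WF p s)
    (hE : E = decs hd tl s) (hq : Quadratic E) (hD : ∀ z, z ∈ D ↔ occ E z = 2) (h : Relation.ReflTransGen Lv E E') :
    ∃ n ≤ (G (size E) + 1) * (size E * (55 * size E ^ 4 + 2) + size E), Walk Pool.Agent.helper36.WE.Step n E E' := by
  obtain ⟨⟨a, t, h1, h2⟩, -, -⟩ := UB_convPath hC hw hE hq hD h
  obtain ⟨a', ha', h3⟩ := hGB Ω p s t a hw h1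
  have hsz : size (decs hd tl s) = size E := by rw [hE]
  have hm : (s.1 ++ s.2).length ≤ size E := by
    rw [← hsz]
    exact UB_size s
  have ha2 : a' ≤ G (size E) := ha'.trans (hG hm)
  obtain ⟨n, hn, h4⟩ := UB_path (tl := tl) hC (size E) a' s t hw hsz h3
  have hwt : WF p t := hw.of_perm h1.permT
  have hszt : size (decs hd tl t) = size E := by rw [← UB_size_perm h1.permT]; exact hsz
  have h5 : ∃ k ≤ size E, Walk Pool.Agent.helper36.WE.Step k (decs hd tl t) E' := by
    rcases h2 with h2 | h2 | h2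
    · exact ⟨0, Nat.zero_le _, h2 ▸ Walk.refl _ _⟩
    · obtain ⟨k, hk, h6⟩ := h2.walk hC hwt
      exact ⟨k, hszt ▸ hk, h6⟩
    · obtain ⟨k, hk, h6⟩ := h2.walk hC hwt.mir
      rw [decs_mir, size_swap, hszt] at hk
      refine ⟨k, hk, ?_⟩
      have := walk_swap h6
      simpa [decs_mir] using this
  obtain ⟨k, hk, h6⟩ := h5
  refine ⟨n + k, ?_, ?_⟩
  · have h7 : (a' + 1) * (size E * (55 * size E ^ 4 + 2)) + a' * size E + size E = (a' + 1) * (size E * (55 * size E ^ 4 + 2) + size E) := by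
      ring
    have h8 : (a' + 1) * (size E * (55 * size E ^ 4 + 2) + size E) ≤ (G (size E) + 1) * (size E * (55 * size E ^ 4 + 2) + size E) :=
      Nat.mul_le_mul_right _ (by omega)
    omega
  · rw [hE]
    exact h4.append h6

end


/-! ## Coding a full equation -/

/-- a word which is empty or begins with a letter of `D`. -/
def Ful (D : Finset X) (w : List (X ⊕ A)) : Prop := w = [] ∨ ∃ x ∈ D, ∃ w', w = Sum.inl x :: w'

theorem UB_enc (D : Finset X) (E : Eqn X A) (hD : ∀ z, z ∈ D ↔ occ E z = 2) (h1 : Ful D E.1) (h2 : Ful D E.2) :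
    ∃ (Ω : Type) (p : Ω → Ω) (hd : Ω → X) (tl : Ω → List (X ⊕ A)) (s : St Ω), Cod D p hd tl ∧ WF p s ∧ E = decs hd tl s := by
  classical
  obtain ⟨lU, hU, gU⟩ := exists_units D _ E.1 le_rfl h1
  obtain ⟨lV, hV, gV⟩ := exists_units D _ E.2 le_rfl h2
  obtain ⟨L, hL⟩ : ∃ L, L = lU ++ lV := ⟨_, rfl⟩
  have gL : ∀ u ∈ L, GoodU D u := by
    intro u hu
    rw [hL] at hu
    rcases List.mem_append.1 hu with hu | hu
    · exact gU u hu
    · exact gV u hu
  have hcount : ∀ x ∈ D, (L.map Prod.fst).count x = 2 := by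
    intro x hx
    have h3 := (hD x).1 hx
    unfold occ at h3
    rw [← hU, ← hV, Pool.Agent.helper36.WE.count_flat lU gU hx, Pool.Agent.helper36.WE.count_flat lV gV hx] at h3
    rw [hL, List.map_append, List.count_append]
    exact h3
  have hget : ∀ i : Fin L.length, GoodU D (L.get i) := fun i => gL _ (List.get_mem L i)
  have hcard : ∀ x ∈ D, (Finset.univ.filter (fun j : Fin L.length => (L.get j).1 = x)).card = 2 := by
    intro x hx
    rw [← hcount x hx]
    have h4 : L.map Prod.fst = (List.finRange L.length).map (fun j => (L.get j).1) := by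
      conv_lhs => rw [← List.map_get_finRange L]
      rw [List.map_map]
      rfl
    rw [h4, List.count, List.countP_map, Finset.card_def]
    have h5 : (Finset.univ.filter (fun j : Fin L.length => (L.get j).1 = x)).val =
        (((List.finRange L.length).filter (fun j => decide ((L.get j).1 = x)) : List (Fin L.length)) : Multiset (Fin L.length)) := by
      rfl
    rw [h5, Multiset.coe_card, ← List.countP_eq_length_filter]
    apply List.countP_congr
    intro j _
    simp
  have hpart : ∀ i : Fin L.length, ∃ j : Fin L.length, j ≠ i ∧ ∀ k : Fin L.length, (L.get k).1 = (L.get i).1 ↔ k = i ∨ k = j := by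
    intro i
    obtain ⟨a, b, hab, he⟩ := Finset.card_eq_two.1 (hcard _ (hget i).1)
    have hm : ∀ k : Fin L.length, (L.get k).1 = (L.get i).1 ↔ k = a ∨ k = b := by
      intro k
      have : k ∈ Finset.univ.filter (fun j : Fin L.length => (L.get j).1 = (L.get i).1) ↔ k ∈ ({a, b} : Finset (Fin L.length)) := by rw [he]
      simpa using this
    rcases (hm i).1 rfl with h | h
    · refine ⟨b, ?_, ?_⟩
      · rw [h]; exact hab.symm
      · intro k
        rw [hm k, h]
    · refine ⟨a, ?_, ?_⟩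
      · rw [h]; exact hab
      · intro k
        rw [hm k, h, or_comm]
  choose p hp1 hp2 using hpart
  have hdec : ∀ l : List (Fin L.length), dec (fun i => (L.get i).1) (fun i => (L.get i).2) l = flat (l.map L.get) := by
    intro l
    induction l with
    | nil => rfl
    | cons i l ih =>
      rw [dec_cons, ih, List.map_cons, flat_cons]
      rfl
  refine ⟨Fin L.length, p, fun i => (L.get i).1, fun i => (L.get i).2,
    ((List.finRange L.length).take lU.length, (List.finRange L.length).drop lU.length), ⟨?_, ?_, ?_⟩, ⟨?_, ?_, ?_, ?_⟩, ?_⟩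
  · exact fun t => (hget t).1
  · exact fun t t' => hp2 t t'
  · exact fun t => (hget t).2
  · simp only [List.take_append_drop]
    exact List.nodup_finRange _
  · intro t _
    simp only [List.take_append_drop]
    exact List.mem_finRange _
  · intro t
    have h3 : (L.get (p t)).1 = (L.get t).1 := (hp2 t (p t)).2 (Or.inr rfl)
    rcases (hp2 (p t) t).1 h3.symm with h4 | h4
    · exact absurd h4.symm (hp1 t)
    · exact h4.symm
  · exact hp1
  · unfold decs
    simp only [hdec, List.map_take, List.map_drop, List.map_get_finRange]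
    rw [hL, List.take_left, List.drop_left, hU, hV]

/-! ## Equations which are not full -/

theorem UB_invs {D : Finset X} {E E' : Eqn X A} (hq : Quadratic E) (hD : ∀ z, z ∈ D ↔ occ E z = 2) (h : Relation.ReflTransGen Lv E E') :
    Quadratic E' ∧ (∀ z, z ∈ D ↔ occ E' z = 2) ∧ size E' = size E := by
  induction h with
  | refl => exact ⟨hq, hD, rfl⟩
  | tail _ hbc ih =>
    obtain ⟨h1, h2, h3⟩ := ih
    obtain ⟨h5, h6, h7⟩ := UB_lv h1 h2 hbc
    exact ⟨h6, h7, hbc.2.trans h3⟩

theorem UB_lvs {E E' : Eqn X A} (h : Pool.Agent.helper36.WE.Reach E E') :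
    Quadratic E → size E' ≤ size E ∧ (size E' = size E → Relation.ReflTransGen Lv E E') := by
  induction h using Relation.ReflTransGen.head_induction_on with
  | refl => exact fun _ => ⟨le_rfl, fun _ => Relation.ReflTransGen.refl⟩
  | head h _ ih =>
    intro hq
    obtain ⟨h1, h2⟩ := ih (quadratic_step hq h)
    have h3 := size_le hq h
    refine ⟨h1.trans h3, fun h4 => ?_⟩
    exact (h2 (by omega)).head ⟨h, by omega⟩

/-- the states of the forced run. -/
def PreR (x : X) (U V : List (X ⊕ A)) (w1 w2 : List (X ⊕ A)) : Eqn X A := (Sum.inl x :: ins w1 x U, w2 ++ ins w1 x V)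

theorem UB_preStep {D : Finset X} {x : X} (hx : x ∈ D) {U V : List (X ⊕ A)} {w1 w2 : List (X ⊕ A)} {z : X ⊕ A} {E' : Eqn X A}
    (hw1 : ∀ s ∈ w1, Tok D s) (hz : Tok D z) (hw2 : ∀ s ∈ w2, Tok D s) (h : DStep D (PreR x U V w1 (z :: w2)) E') :
    E' = PreR x U V (w1 ++ [z]) w2 := by
  have hn1 : Sum.inl x ∉ w1 := fun h => hw1 _ h x hx rfl
  have hn2 : Sum.inl x ∉ w2 := fun h => hw2 _ h x hx rfl
  unfold PreR at h ⊢
  rcases h with h | h
  · obtain ⟨x0, hx0, y0, U0, V0, hne, hE, rfl⟩ := h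
    obtain ⟨e1, e2⟩ := Prod.mk.inj hE
    rw [List.cons_append] at e2
    obtain ⟨e3, e4⟩ := List.cons.inj e1
    obtain ⟨e5, e6⟩ := List.cons.inj e2
    have e7 : x = x0 := Sum.inl.inj e3
    subst e7 e4 e6 e5
    rw [ins_append [z] x w2, ins_of_notMem _ _ hn2, ins_ins _ _ _ hn1, ins_ins _ _ _ hn1]
  · obtain ⟨x0, hx0, y0, U0, V0, hne, hE, -⟩ := h
    obtain ⟨e1, e2⟩ := Prod.mk.inj hE
    simp only [List.cons_append] at e1
    exact absurd (List.cons.inj e1).1 (hz x0 hx0)

theorem UB_preWalk {D : Finset X} {x : X} (hx : x ∈ D) {U V : List (X ⊕ A)} {w1 w2 : List (X ⊕ A)} 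
    (hw1 : ∀ s ∈ w1, Tok D s) (hw2 : ∀ s ∈ w2, Tok D s) :
    Walk Pool.Agent.helper36.WE.Step w1.length ((Sum.inl x :: U, (w1 ++ w2) ++ V) : Eqn X A) (PreR x U V w1 w2) := by
  have hn1 : Sum.inl x ∉ w1 := fun h => hw1 _ h x hx rfl
  have hn2 : Sum.inl x ∉ w2 := fun h => hw2 _ h x hx rfl
  have h3 := UB_run D x hx w1 U (w2 ++ V) hn1
  rw [ins_append w1 x w2 V, ins_of_notMem _ _ hn2, ← List.append_assoc] at h3
  exact UB_dstep h3

/-- the bound if the first word begins with a letter of `D` and the second one does not. -/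
theorem UB_nonfull {G : ℕ → ℕ} (hG : Monotone G) (hGB : GB G) {D : Finset X} {x : X} (hx : x ∈ D) {U V : List (X ⊕ A)} {w : List (X ⊕ A)}
    (hw : ∀ s ∈ w, Tok D s) (hw0 : w ≠ []) (hV : Ful D V) {E E' : Eqn X A} (hE : E = (Sum.inl x :: U, w ++ V)) (hq : Quadratic E)
    (hD : ∀ z, z ∈ D ↔ occ E z = 2) (h : Relation.ReflTransGen Lv E E') :
    ∃ n ≤ (G (size E) + 1) * (size E * (55 * size E ^ 4 + 2) + size E) + size E, Walk Pool.Agent.helper36.WE.Step n E E' := by
  have hwl : w.length ≤ size E := by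
    rw [hE]
    unfold size
    simp only [List.length_append, List.length_cons]
    omega
  have hnw : Sum.inl x ∉ w := fun h => hw _ h x hx rfl
  -- states of the run
  have hpre : ∀ w1 w2, w1 ++ w2 = w → ∃ n ≤ size E, Walk Pool.Agent.helper36.WE.Step n E (PreR x U V w1 w2) := by
    intro w1 w2 he
    refine ⟨w1.length, ?_, ?_⟩
    · refine le_trans ?_ hwl
      rw [← he, List.length_append]
      omega
    · rw [hE, ← he]
      exact UB_preWalk hx (fun s hs => hw s (by rw [← he]; exact List.mem_append_left _ hs))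
        (fun s hs => hw s (by rw [← he]; exact List.mem_append_right _ hs))
  by_cases hcyc : PreR x U V w [] = E
  · -- a cycle
    have hall : ∃ w1 w2, w1 ++ w2 = w ∧ E' = PreR x U V w1 w2 := by
      induction h with
      | refl => exact ⟨[], w, rfl, by rw [hE]; unfold PreR; rw [Pool.Agent.helper36.WE.ins_empty, Pool.Agent.helper36.WE.ins_empty]⟩
      | @tail b c hab hbc ih =>
        obtain ⟨w1, w2, he, hb⟩ := ih
        obtain ⟨h1, h2, h3⟩ := UB_invs hq hD hab
        obtain ⟨h5, -, -⟩ := UB_lv h1 h2 hbc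
        obtain ⟨w1', z, w2', he', hb'⟩ : ∃ (w1' : List (X ⊕ A)) (z : X ⊕ A) (w2' : List (X ⊕ A)), w1' ++ z :: w2' = w ∧ b = PreR x U V w1' (z :: w2') := by
          rcases w2 with _ | ⟨z, w2⟩
          · obtain ⟨z, w', rfl⟩ := List.exists_cons_of_ne_nil hw0
            refine ⟨[], z, w', rfl, ?_⟩
            rw [List.append_nil] at he
            rw [hb, he, hcyc, hE]
            unfold PreR
            rw [Pool.Agent.helper36.WE.ins_empty, Pool.Agent.helper36.WE.ins_empty]
          · exact ⟨w1, z, w2, he, hb⟩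
        rw [hb'] at h5
        have h6 := UB_preStep hx (fun s hs => hw s (by rw [← he']; exact List.mem_append_left _ hs))
          (hw z (by rw [← he']; simp)) (fun s hs => hw s (by rw [← he']; exact List.mem_append_right _ (List.mem_cons_of_mem _ hs))) h5
        exact ⟨w1' ++ [z], w2', by rw [← he']; simp, h6⟩
    obtain ⟨w1, w2, he, rfl⟩ := hall
    obtain ⟨n, hn, hwk⟩ := hpre w1 w2 he
    exact ⟨n, by omega, hwk⟩
  · have hall : (∃ w1 w2, w1 ++ w2 = w ∧ E' = PreR x U V w1 w2) ∨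
        (Relation.ReflTransGen Lv E (PreR x U V w []) ∧ Relation.ReflTransGen Lv (PreR x U V w []) E') := by
      induction h with
      | refl => exact Or.inl ⟨[], w, rfl, by rw [hE]; unfold PreR; rw [Pool.Agent.helper36.WE.ins_empty, Pool.Agent.helper36.WE.ins_empty]⟩
      | @tail b c hab hbc ih =>
        rcases ih with ⟨w1, w2, he, hb⟩ | ⟨h1, h2⟩
        · rcases w2 with _ | ⟨z, w2⟩
          · rw [List.append_nil] at he
            subst he
            exact Or.inr ⟨hb ▸ hab, hb ▸ Relation.ReflTransGen.single hbc⟩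
          · obtain ⟨h1, h2, h3⟩ := UB_invs hq hD hab
            obtain ⟨h5, -, -⟩ := UB_lv h1 h2 hbc
            rw [hb] at h5
            have h6 := UB_preStep hx (fun s hs => hw s (by rw [← he]; exact List.mem_append_left _ hs))
              (hw z (by rw [← he]; simp)) (fun s hs => hw s (by rw [← he]; exact List.mem_append_right _ (List.mem_cons_of_mem _ hs))) h5
            exact Or.inl ⟨w1 ++ [z], w2, by rw [← he]; simp, h6⟩
        · exact Or.inr ⟨h1, h2.tail hbc⟩
    rcases hall with ⟨w1, w2, he, rfl⟩ | ⟨h1, h2⟩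
    · obtain ⟨n, hn, hwk⟩ := hpre w1 w2 he
      exact ⟨n, by omega, hwk⟩
    · obtain ⟨q1, q2, q3⟩ := UB_invs hq hD h1
      have hf1 : Ful D (PreR x U V w []).1 := Or.inr ⟨x, hx, _, rfl⟩
      have hf2 : Ful D (PreR x U V w []).2 := by
        unfold PreR
        simp only [List.nil_append]
        rcases hV with rfl | ⟨z, hz, V2, rfl⟩
        · exact Or.inl rfl
        · by_cases hzx : z = x
          · exfalso
            apply hcyc
            subst hzx
            have h4 := (hD z).1 hz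
            rw [hE] at h4
            unfold occ at h4
            simp only [List.count_cons_self, List.count_append] at h4
            have h5 : U.count (Sum.inl z) = 0 := by omega
            have h6 : V2.count (Sum.inl z) = 0 := by omega
            rw [hE]
            unfold PreR
            rw [ins_of_notMem w z (List.count_eq_zero.1 h5), ins_cons, if_pos rfl, ins_of_notMem w z (List.count_eq_zero.1 h6)]
            simp
          · refine Or.inr ⟨z, hz, ins w x V2, ?_⟩
            rw [ins_cons, if_neg (by simpa using hzx)]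
            rfl
      obtain ⟨Ω, p, hd, tl, s, c1, c2, c3⟩ := UB_enc D _ q2 hf1 hf2
      obtain ⟨n, hn, hwk⟩ := UB_fullcase hG hGB c1 c2 c3 q1 q2 h2
      rw [q3] at hn
      obtain ⟨k, hk, hwk2⟩ := hpre w [] (by simp)
      refine ⟨k + n, by omega, hwk2.append hwk⟩

/-- a word is full or begins with a letter outside of `D`. -/
theorem UB_word (D : Finset X) (v : List (X ⊕ A)) : Ful D v ∨ ∃ w V : List (X ⊕ A), v = w ++ V ∧ w ≠ [] ∧ (∀ s ∈ w, Tok D s) ∧ Ful D V := by
  classical
  obtain ⟨t, ht⟩ : ∃ t, t = v.takeWhile (fun s => decide (Tok D s)) := ⟨_, rfl⟩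
  obtain ⟨r, hr⟩ : ∃ r, r = v.dropWhile (fun s => decide (Tok D s)) := ⟨_, rfl⟩
  have hv : v = t ++ r := by rw [ht, hr]; exact (List.takeWhile_append_dropWhile).symm
  have hr' : Ful D r := by
    rcases hrr : r with _ | ⟨s, r'⟩
    · exact Or.inl rfl
    · right
      have hs : ¬ Tok D s := by
        have := List.head?_dropWhile_not (fun s => decide (Tok D s)) v
        rw [← hr, hrr] at this
        simpa using this
      unfold Tok at hs
      push Not at hs
      obtain ⟨z, hz, hsz⟩ := hs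
      exact ⟨z, hz, r', by rw [hsz]⟩
  by_cases h0 : t = []
  · left
    rw [hv, h0, List.nil_append]
    exact hr'
  · refine Or.inr ⟨t, r, hv, h0, ?_, hr'⟩
    intro s hs
    rw [ht] at hs
    have := List.mem_takeWhile_imp hs
    simpa using this

/-- the bound if the second word is not full. -/
theorem UB_right {G : ℕ → ℕ} (hG : Monotone G) (hGB : GB G) {D : Finset X} {V : List (X ⊕ A)} {w : List (X ⊕ A)}
    (hw : ∀ s ∈ w, Tok D s) (hw0 : w ≠ []) (hV : Ful D V) {E E' : Eqn X A} (hE : E.2 = w ++ V) (hq : Quadratic E)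
    (hD : ∀ z, z ∈ D ↔ occ E z = 2) (h : Relation.ReflTransGen Lv E E') :
    ∃ n ≤ (G (size E) + 1) * (size E * (55 * size E ^ 4 + 2) + size E) + size E, Walk Pool.Agent.helper36.WE.Step n E E' := by
  by_cases hx : ∃ x ∈ D, ∃ U, E.1 = Sum.inl x :: U
  · obtain ⟨x, hx, U, hU⟩ := hx
    exact UB_nonfull hG hGB hx hw hw0 hV (Prod.ext hU hE) hq hD h
  · rcases Relation.ReflTransGen.cases_head h with rfl | ⟨c, h1, -⟩
    · exact ⟨0, Nat.zero_le _, Walk.refl _ _⟩
    · exfalso
      obtain ⟨h5, -, -⟩ := UB_lv hq hD h1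
      obtain ⟨z, w', rfl⟩ := List.exists_cons_of_ne_nil hw0
      rcases h5 with ⟨x0, hx0, y0, U0, V0, hne, he, -⟩ | ⟨x0, hx0, y0, U0, V0, hne, he, -⟩
      · apply hx
        refine ⟨x0, hx0, U0, ?_⟩
        rw [he]
      · have e1 : E.2 = Sum.inl x0 :: U0 := congrArg Prod.fst he
        rw [hE, List.cons_append] at e1
        exact hw z (by simp) x0 hx0 (List.cons.inj e1).1

theorem UB_lvSwap {E E' : Eqn X A} (h : Relation.ReflTransGen Lv E E') : Relation.ReflTransGen Lv E.swap E'.swap := by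
  induction h with
  | refl => exact Relation.ReflTransGen.refl
  | tail _ hbc ih =>
    refine ih.tail ⟨Pool.Agent.helper36.WE.step_swap hbc.1, ?_⟩
    rw [size_swap, size_swap]
    exact hbc.2

theorem UB : UB_stmt := by
  intro G hG hGB X A _ _ E E' hq hr hs
  obtain ⟨-, h0⟩ := UB_lvs hr hq
  have h := h0 hs
  have hD : ∀ z, z ∈ dbl E ↔ occ E z = 2 := mem_dbl E
  have key : ∃ n ≤ (G (size E) + 1) * (size E * (55 * size E ^ 4 + 2) + size E) + size E, Walk Pool.Agent.helper36.WE.Step n E E' := by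
    rcases UB_word (dbl E) E.2 with h2 | ⟨w, V, e1, e2, e3, e4⟩
    · rcases UB_word (dbl E) E.1 with h1 | ⟨w, V, e1, e2, e3, e4⟩
      · obtain ⟨Ω, p, hd, tl, s, c1, c2, c3⟩ := UB_enc (dbl E) E hD h1 h2
        obtain ⟨n, hn, hwk⟩ := UB_fullcase hG hGB c1 c2 c3 hq hD h
        exact ⟨n, by omega, hwk⟩
      · obtain ⟨n, hn, hwk⟩ := UB_right (E := E.swap) hG hGB e3 e2 e4 e1 (quadratic_swap hq) (fun z => by rw [hD, occ_swap]) (UB_lvSwap h)
        rw [size_swap] at hn
        refine ⟨n, hn, ?_⟩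
        have := walk_swap hwk
        simpa using this
    · exact UB_right hG hGB e3 e2 e4 e1 hq hD h
  obtain ⟨n, hn, hwk⟩ := key
  exact ⟨n, by omega, Pool.Agent.helper36.WE.walk_pathLen hwk⟩

end NTH
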