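import Pool.Agent.helper14.NTN.Defs
import Pool.Agent.helper65.GP.UB

/-!
# MP_c8d30a: phases and the passage to equations in the run model (exponent 12)
-/

set_option autoImplicit false
set_option linter.unusedSectionVars false
set_option linter.unusedSimpArgs false

namespace NTH

open Pool.Agent.helper36.WE (Eqn Quadratic size PathLen ins Walk DStep DStepL dbl occ Tok ins_cons ins_append ins_of_notMem
  ins_ins ins_nil length_ins count_ins psi_eq_ins lawfulBEq_sum mem_dbl levelstep size_swap occ_swap walk_swap quadratic_swap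
  quadratic_step size_le seg_bound exists_walk exists_units flat GoodU flat_cons flat_append flat_nil)

attribute [local instance] lawfulBEq_sum

section

variable {Ω : Type} {p : Ω → Ω}

theorem Tr.frame {x : Ω} {s t : St Ω} (U2 V2 : List Ω) (h : Tr p x s t) :
    Tr p x (s.1 ++ U2, s.2 ++ V2) (t.1 ++ U2, t.2 ++ V2) := by
  have key : ∀ {s t : St Ω} (U2 V2 : List Ω), TrL p x s t → TrL p x (s.1 ++ U2, s.2 ++ V2) (t.1 ++ U2, t.2 ++ V2) := by
    intro s t U2 V2 h
    cases h with
    | mk y A B V => simpa using TrL.mk (p := p) (x := x) y A (B ++ U2) (V ++ V2)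
  rcases h with h | h
  · exact Or.inl (key U2 V2 h)
  · exact Or.inr (key V2 U2 h)

theorem Run.frame {x : Ω} {s t : St Ω} (U2 V2 : List Ω) (h : Run p (fun _ => True) x s t) :
    Run p (fun _ => True) x (s.1 ++ U2, s.2 ++ V2) (t.1 ++ U2, t.2 ++ V2) := by
  induction h with
  | one _ h _ => exact .one trivial (h.frame U2 V2) trivial
  | cons _ h _ ih => exact .cons trivial (h.frame U2 V2) ih

theorem Rn.frame {a : ℕ} {s t : St Ω} (U2 V2 : List Ω) (h : Rn p (fun _ => True) a s t) :
    Rn p (fun _ => True) a (s.1 ++ U2, s.2 ++ V2) (t.1 ++ U2, t.2 ++ V2) := by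
  induction h with
  | refl _ _ _ => exact .refl _ _ trivial
  | reg _ h _ ih => exact .reg trivial (PH_frame U2 V2 h) ih
  | run h _ ih => exact .run (h.frame U2 V2) ih

theorem Rn.permT {a : ℕ} {s t : St Ω} (h : Rn p (fun _ => True) a s t) : (s.1 ++ s.2).Perm (t.1 ++ t.2) := by
  obtain ⟨c, hc⟩ := h.toPth
  exact hc.permT

theorem Run.permT {x : Ω} {s t : St Ω} (h : Run p (fun _ => True) x s t) : (s.1 ++ s.2).Perm (t.1 ++ t.2) := by
  have h1 : Rn p (fun _ => True) 1 s t := .run h (.refl _ _ trivial)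
  exact h1.permT

end

/-! ## Phases -/

theorem PHr_act {F : ℕ → ℕ} (hTB : TBn F) {Ω : Type} {p : Ω → Ω} {a : ℕ} {s t : St Ω} (hw : WF p s) (hi : Irr p s)
    (h : Pth p (fun _ => True) a s t) : Rn p (fun _ => True) (F (s.1 ++ s.2).length + 1 + (s.1 ++ s.2).length) s t := by
  have hTr : ∀ {c : ℕ} {w : St Ω}, Pth p (N p) c s w → Rn p (fun _ => True) (F (s.1 ++ s.2).length) s w := by
    intro c w h1
    exact (hTB Ω p s w c hw hi h1.toReach).weak (fun _ _ => trivial)
  rcases Pth.first (B := fun x => ¬ N p x) h with h1 | ⟨v, b, hv, h2, -, h3⟩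
  · exact (hTr (h1.mono (Q' := N p) (fun x hx => not_not.1 hx.2))).mono (by omega)
  · rcases h3 with rfl | ⟨w, c, d, h4, h5⟩
    · have := PH_notN hw h2 hv
      exact h2.toRn.mono (by omega)
    · have h7 := hTr (h4.mono (Q' := N p) (fun x hx => not_not.1 hx.2))
      have hperm : (s.1 ++ s.2).Perm (v.1 ++ v.2) := h7.permT.trans h5.perm
      have h9 := PH_notN (hw.of_perm hperm) h2 hv
      rw [← hperm.length_eq] at h9
      have h10 : Pth p (fun _ => True) (d + b) w t := .head trivial h5 h2
      have h11 := h5.le_one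
      exact (h7.trans h10.toRn).mono (by omega)

theorem PHr_main {F : ℕ → ℕ} (hF : Monotone F) (hTB : TBn F) {Ω : Type} {p : Ω → Ω} (m : ℕ) (n : ℕ) : ∀ (a : ℕ) (t : St Ω) (U1 U2 V1 V2 : List Ω),
    U2.length + V2.length ≤ n → ((U1 ++ U2) ++ (V1 ++ V2)).length = m → U1 ≠ [] → V1 ≠ [] → WF p (U1 ++ U2, V1 ++ V2) →
    (∀ z ∈ U2 ++ V2, p z ∈ U2 ++ V2) → Irr p (U1, V1) → Pth p (fun _ => True) a (U1 ++ U2, V1 ++ V2) t →
    Rn p (fun _ => True) ((n + 1) * (F m + 2 * m + 2)) (U1 ++ U2, V1 ++ V2) t := by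
  induction n with
  | zero =>
    intro a t U1 U2 V1 V2 hn hm h1 h2 hw hc hi h
    have hU2 : U2 = [] := List.length_eq_zero_iff.1 (by omega)
    have hV2 : V2 = [] := List.length_eq_zero_iff.1 (by omega)
    subst hU2 hV2
    simp only [List.append_nil] at *
    have h4 := PHr_act hTB hw hi h
    simp only at h4
    rw [hm] at h4
    exact h4.mono (by omega)
  | succ n ih =>
    intro a t U1 U2 V1 V2 hn hm h1 h2 hw hc hi h
    have hwa : WF p (U1, V1) := PH_wf hw hc
    obtain ⟨a1, U1', V1', h3, h4⟩ := PH_follow h U1 U2 V1 V2 rfl h1 h2 hw hc hi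
    have h5 := PHr_act hTB hwa hi h3
    have hm1 : (U1 ++ V1).length ≤ m := by
      rw [← hm]
      simp only [List.length_append]
      omega
    have hFm : F (U1 ++ V1).length ≤ F m := hF hm1
    have h6 := Rn.frame U2 V2 (h5.mono (b := F m + 2 * m + 2) (by simp only; omega))
    simp only at h6
    rcases h4 with rfl | ⟨hex, a2, h7⟩
    · refine h6.mono ?_
      calc F m + 2 * m + 2 = 1 * (F m + 2 * m + 2) := by omega
        _ ≤ (n + 1 + 1) * (F m + 2 * m + 2) := Nat.mul_le_mul_right _ (by omega)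
    · have hperm : ((U1 ++ U2) ++ (V1 ++ V2)).Perm ((U1' ++ U2) ++ (V1' ++ V2)) := h6.permT
      have hw' : WF p (U1' ++ U2, V1' ++ V2) := hw.of_perm hperm
      have hm' : ((U1' ++ U2) ++ (V1' ++ V2)).length = m := by rw [← hperm.length_eq]; exact hm
      by_cases he : U1' ++ U2 = [] ∨ V1' ++ V2 = []
      · have := PH_empty h7 he
        subst this
        refine h6.mono ?_
        calc F m + 2 * m + 2 = 1 * (F m + 2 * m + 2) := by omega
          _ ≤ (n + 1 + 1) * (F m + 2 * m + 2) := Nat.mul_le_mul_right _ (by omega)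
      · push Not at he
        obtain ⟨he1, he2⟩ := he
        have hlen : (U1' ++ V1').length + (U2.length + V2.length) = m := by
          rw [← hm']
          simp only [List.length_append]
          omega
        obtain ⟨Ua, Ub, Va, Vb, e1, e2, hUa, hVa, hcb, hia⟩ := PH_max (p := p) _ (U1' ++ U2) [] (V1' ++ V2) [] le_rfl he1 he2 (by simp)
        simp only [List.append_nil] at e1 e2
        have hlt : Ub.length + Vb.length < U2.length + V2.length := by
          rcases hex with hex | hex
          · obtain ⟨hx1, hx2⟩ := hex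
            subst hx1
            simp only [List.nil_append] at *
            exact PH_short hw' hc hx2 e1 e2 hUa hVa hcb
          · obtain ⟨hx1, hx2⟩ := hex
            subst hx1
            simp only [List.nil_append] at *
            have := PH_short (U' := V1') (U2 := V2) (V2 := U2) (Ua := Va) (Ub := Vb) (Va := Ua) (Vb := Ub) hw'.mir (by
              intro z hz
              have h8 : z ∈ U2 ++ V2 := by
                simp only [List.mem_append] at hz ⊢
                tauto
              have := hc z h8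
              simp only [List.mem_append] at this ⊢
              tauto) hx2 e2 e1 hVa hUa (by
              intro z hz
              have h8 : z ∈ Ub ++ Vb := by
                simp only [List.mem_append] at hz ⊢
                tauto
              have := hcb z h8
              simp only [List.mem_append] at this ⊢
              tauto)
            omega
        rw [e1, e2] at h7 hw' hm' h6
        have h8 := ih a2 t Ua Ub Va Vb (by omega) hm' hUa hVa hw' hcb hia h7
        refine (h6.trans h8).mono ?_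
        have : (n + 1 + 1) * (F m + 2 * m + 2) = (n + 1) * (F m + 2 * m + 2) + (F m + 2 * m + 2) := by ring
        omega

/-- PHn. -/
theorem PHr : PHn_stmt := by
  intro F hF hTB Ω p s t a hw h
  obtain ⟨U, V⟩ := s
  by_cases he : U = [] ∨ V = []
  · have := PH_empty h he
    subst this
    exact .refl _ _ trivial
  · push Not at he
    obtain ⟨Ua, Ub, Va, Vb, e1, e2, hUa, hVa, hcb, hia⟩ := PH_max (p := p) _ U [] V [] le_rfl he.1 he.2 (by simp)
    simp only [List.append_nil] at e1 e2
    subst e1 e2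
    simp only
    have hlt : Ub.length + Vb.length ≤ ((Ua ++ Ub) ++ (Va ++ Vb)).length := by
      simp only [List.length_append]
      omega
    exact PHr_main hF hTB _ _ a t Ua Ub Va Vb hlt rfl hUa hVa hw hcb hia h

/-! ## Equations of a fixed length -/

/-- the bound for regular segments. -/
def SegB (K : ℕ) : Prop := ∀ (X A : Type) [DecidableEq X] [DecidableEq A] (D : Finset X) (s t : Eqn X A),
  (∀ x ∈ D, s.1.count (Sum.inl x) = 1 ∧ s.2.count (Sum.inl x) = 1) → Relation.ReflTransGen (DStep D) s t →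
  ∃ n ≤ size s * (K * D.card ^ 2 + 2), Walk Pool.Agent.helper36.WE.Step n s t

section

variable {X A : Type} [DecidableEq X] [DecidableEq A]
variable {Ω : Type} {D : Finset X} {p : Ω → Ω} {hd : Ω → X} {tl : Ω → List (X ⊕ A)}

/-- one step of cost `1`, exact length. -/
theorem UBr_trL (hC : Cod D p hd tl) {x : Ω} {s s' : St Ω} (hw : WF p s) (hs : TrL p x s s') :
    ∃ k, k + (dec hd tl s'.2).length = (dec hd tl s.2).length ∧ Walk Pool.Agent.helper36.WE.Step k (decs hd tl s) (decs hd tl s') ∧
      ∃ U, s'.1 = x :: U := by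
  cases hs with
  | mk y A0 B V =>
    have hy : y ≠ p x := by
      rintro rfl
      exact (List.nodup_append.1 hw.nd).2.2 (p x) (by simp) (p x) (by simp) rfl
    obtain ⟨c', s'', h1, h2⟩ := UB_full (hd := hd) (tl := tl) hC hw hy
    obtain ⟨-, rfl⟩ := UB_det hw (SL.tr x y A0 B V) h1
    have hne : y ≠ x := by
      rintro rfl
      exact (List.nodup_append.1 hw.nd).2.2 y (by simp) y (by simp) rfl
    refine ⟨(un hd tl y).length, ?_, ?_, _, rfl⟩
    · simp only [dec_cons, List.length_append]
    · rw [← h2]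
      exact UB_dstep (UB_run D (hd x) (hC.hdD x) (un hd tl y) (tl x ++ dec hd tl (A0 ++ p x :: B)) (dec hd tl V) (hC.un_notMem hne hy))

/-- a run of the first word. -/
theorem UBr_runL (hC : Cod D p hd tl) {x : Ω} {s t : St Ω} (h : Run p (fun _ => True) x s t) : WF p s → (∃ U, s.1 = x :: U) →
    ∃ k, k + (dec hd tl t.2).length = (dec hd tl s.2).length ∧ Walk Pool.Agent.helper36.WE.Step k (decs hd tl s) (decs hd tl t) := by
  have key : ∀ {s t : St Ω}, WF p s → (∃ U, s.1 = x :: U) → Tr p x s t → TrL p x s t := by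
    intro s t hw hU h
    rcases h with h | h
    · exact h
    · exfalso
      obtain ⟨U, hU⟩ := hU
      obtain ⟨s1, s2⟩ := s
      obtain ⟨t1, t2⟩ := t
      simp only at hU
      subst hU
      simp only [mir_mk] at h
      cases h with
      | mk y A0 B V => exact (List.nodup_append.1 hw.nd).2.2 x (by simp) x (by simp) rfl
  induction h with
  | @one s t _ h _ =>
    intro hw hU
    obtain ⟨k, h1, h2, -⟩ := UBr_trL (tl := tl) hC hw (key hw hU h)
    exact ⟨k, h1, h2⟩
  | @cons s t v _ h _ ih =>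
    intro hw hU
    obtain ⟨k, h1, h2, h3⟩ := UBr_trL (tl := tl) hC hw (key hw hU h)
    obtain ⟨k', h4, h5⟩ := ih (hw.of_perm h.sp.perm) h3
    exact ⟨k + k', by omega, h2.append h5⟩

theorem Run.mirT {x : Ω} {s t : St Ω} (h : Run p (fun _ => True) x s t) : Run p (fun _ => True) x (NTH.mir s) (NTH.mir t) := by
  induction h with
  | one _ h _ => exact .one trivial h.mir trivial
  | cons _ h _ ih => exact .cons trivial h.mir ih

/-- a run costs at most the size of the equation. -/
theorem UBr_run (hC : Cod D p hd tl) {x : Ω} {s t : St Ω} (hw : WF p s) (h : Run p (fun _ => True) x s t) :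
    ∃ k ≤ size (decs hd tl s), Walk Pool.Agent.helper36.WE.Step k (decs hd tl s) (decs hd tl t) := by
  have hfr : (∃ U, s.1 = x :: U) ∨ ∃ U, s.2 = x :: U := by
    have key : ∀ {s t : St Ω}, TrL p x s t → ∃ U, s.1 = x :: U := by
      intro s t h
      cases h with
      | mk y A0 B V => exact ⟨_, rfl⟩
    have key2 : ∀ {s t : St Ω}, Tr p x s t → (∃ U, s.1 = x :: U) ∨ ∃ U, s.2 = x :: U := by
      intro s t h
      rcases h with h | h
      · exact Or.inl (key h)
      · exact Or.inr (key h)
    cases h with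
    | one _ h _ => exact key2 h
    | cons _ h _ => exact key2 h
  rcases hfr with hU | hU
  · obtain ⟨k, h1, h2⟩ := UBr_runL (tl := tl) hC h hw hU
    refine ⟨k, ?_, h2⟩
    unfold size decs
    simp only
    omega
  · obtain ⟨k, h1, h2⟩ := UBr_runL (tl := tl) hC h.mirT hw.mir hU
    refine ⟨k, ?_, ?_⟩
    · unfold size decs
      simp only [mir] at h1
      simp only
      omega
    · have := walk_swap h2
      simpa [decs_mir] using this

theorem UBr_block {K : ℕ} (hK : SegB K) (hC : Cod D p hd tl) {s t : St Ω} (hw : WF p s) (h : Pth p (fun _ => True) 0 s t) :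
    ∃ n ≤ size (decs hd tl s) * (K * size (decs hd tl s) ^ 2 + 2), Walk Pool.Agent.helper36.WE.Step n (decs hd tl s) (decs hd tl t) := by
  classical
  obtain ⟨D', hD'⟩ : ∃ D' : Finset X, D' = ((s.1.filter (fun t => decide (p t ∈ s.2))).map hd).toFinset := ⟨_, rfl⟩
  have hmem : ∀ x, x ∈ D' ↔ ∃ t ∈ s.1, p t ∈ s.2 ∧ hd t = x := by
    intro x
    rw [hD', List.mem_toFinset, List.mem_map]
    constructor
    · rintro ⟨t, ht, rfl⟩
      rw [List.mem_filter] at ht
      exact ⟨t, ht.1, by simpa using ht.2, rfl⟩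
    · rintro ⟨t, h1, h2, rfl⟩
      exact ⟨t, List.mem_filter.2 ⟨h1, by simpa using h2⟩, rfl⟩
  have hcard : D'.card ≤ size (decs hd tl s) := by
    have h1 : D'.card ≤ ((s.1.filter (fun t => decide (p t ∈ s.2))).map hd).length := by
      rw [hD']
      exact List.toFinset_card_le _
    have h2 : ((s.1.filter (fun t => decide (p t ∈ s.2))).map hd).length ≤ s.1.length := by
      rw [List.length_map]
      exact List.length_filter_le _ _
    have h3 := UB_size (hd := hd) (tl := tl) s
    rw [List.length_append] at h3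
    omega
  have hnd := List.nodup_append.1 hw.nd
  have h1 := UB_block0 (D' := D') (tl := tl) hC h rfl hw (fun z h1 h2 => (hmem _).2 ⟨z, h1, h2, rfl⟩)
  obtain ⟨n, hn, hwalk⟩ := hK X A D' _ _ (by
    intro x hx
    obtain ⟨z, hz1, hz2, rfl⟩ := (hmem x).1 hx
    constructor
    · exact UB_count hC hnd.1 hz1 (fun h => hnd.2.2 _ h _ hz2 rfl)
    · have h2 := UB_count (t := p z) (tl := tl) hC hnd.2.1 hz2 (by
        rw [hw.inv]
        exact fun h => hnd.2.2 _ hz1 _ h rfl)
      rwa [hC.hd_p] at h2) h1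
  refine ⟨n, hn.trans ?_, hwalk⟩
  gcongr

theorem UBr_split {a : ℕ} {s t : St Ω} (h : Rn p (fun _ => True) a s t) : Pth p (fun _ => True) 0 s t ∨ ∃ (x : Ω) (s1 s2 : St Ω) (b : ℕ), a = b + 1 ∧
    Pth p (fun _ => True) 0 s s1 ∧ Run p (fun _ => True) x s1 s2 ∧ Rn p (fun _ => True) b s2 t := by
  induction h with
  | refl _ s _ => exact Or.inl (.refl _ trivial)
  | reg _ h _ ih =>
    rcases ih with h1 | ⟨x, s1, s2, b, rfl, h1, h2, h3⟩
    · exact Or.inl (.head trivial h h1)
    · exact Or.inr ⟨x, s1, s2, b, rfl, .head trivial h h1, h2, h3⟩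
  | @run a x s t v h ht _ => exact Or.inr ⟨x, s, t, a, rfl, .refl _ trivial, h, ht⟩

theorem UBr_path {K : ℕ} (hK : SegB K) (hC : Cod D p hd tl) (sz : ℕ) (a : ℕ) : ∀ (s t : St Ω), WF p s → size (decs hd tl s) = sz → Rn p (fun _ => True) a s t →
    ∃ n ≤ (a + 1) * (sz * (K * sz ^ 2 + 2)) + a * sz, Walk Pool.Agent.helper36.WE.Step n (decs hd tl s) (decs hd tl t) := by
  induction a with
  | zero =>
    intro s t hw hsz h
    rcases UBr_split h with h1 | ⟨x, s1, s2, b, hb, -⟩
    · obtain ⟨n, hn, h1⟩ := UBr_block (tl := tl) hK hC hw h1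
      rw [hsz] at hn
      exact ⟨n, by omega, h1⟩
    · omega
  | succ a ih =>
    intro s t hw hsz h
    have hr : (a + 1 + 1) * (sz * (K * sz ^ 2 + 2)) + (a + 1) * sz =
          sz * (K * sz ^ 2 + 2) + sz + ((a + 1) * (sz * (K * sz ^ 2 + 2)) + a * sz) := by ring
    rcases UBr_split h with h0 | ⟨x, s1, s2, b, hb, h1, h2, h3⟩
    · obtain ⟨n, hn, h1⟩ := UBr_block (tl := tl) hK hC hw h0
      rw [hsz] at hn
      exact ⟨n, by omega, h1⟩
    · obtain rfl : b = a := by omega
      have hp1 := h1.permT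
      have hw1 := hw.of_perm hp1
      have hp2 := h2.permT
      have hw2 := hw1.of_perm hp2
      have hsz1 : size (decs hd tl s1) = sz := by rw [← UB_size_perm hp1]; exact hsz
      have hsz2 : size (decs hd tl s2) = sz := by rw [← UB_size_perm hp2]; exact hsz1
      obtain ⟨n1, hn1, w1⟩ := UBr_block (tl := tl) hK hC hw h1
      obtain ⟨n2, hn2, w2⟩ := UBr_run (tl := tl) hC hw1 h2
      obtain ⟨n3, hn3, w3⟩ := ih s2 t hw2 hsz2 h3
      rw [hsz] at hn1
      rw [hsz1] at hn2
      exact ⟨n1 + n2 + n3, by omega, (w1.append w2).append w3⟩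

/-- the bound for a full equation. -/
theorem UBr_fullcase {K : ℕ} (hK : SegB K) {G : ℕ → ℕ} (hG : Monotone G) (hGB : GBn G) (hC : Cod D p hd tl) {s : St Ω} {E E' : Eqn X A} (hw : WF p s)
    (hE : E = decs hd tl s) (hq : Quadratic E) (hD : ∀ z, z ∈ D ↔ occ E z = 2) (h : Relation.ReflTransGen Lv E E') :
    ∃ n ≤ (G (size E) + 1) * (size E * (K * size E ^ 2 + 2) + size E), Walk Pool.Agent.helper36.WE.Step n E E' := by
  obtain ⟨⟨a, t, h1, h2⟩, -, -⟩ := UB_convPath hC hw hE hq hD h
  have h3 := hGB Ω p s t a hw h1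
  have hsz : size (decs hd tl s) = size E := by rw [hE]
  have hm : (s.1 ++ s.2).length ≤ size E := by
    rw [← hsz]
    exact UB_size s
  have ha2 : G (s.1 ++ s.2).length ≤ G (size E) := hG hm
  obtain ⟨n, hn, h4⟩ := UBr_path (tl := tl) hK hC (size E) (G (size E)) s t hw hsz (h3.mono ha2)
  have hwt : WF p t := hw.of_perm h1.permT
  have hszt : size (decs hd tl t) = size E := by rw [← UB_size_perm h1.permT]; exact hsz
  have h5 : ∃ k ≤ size E, Walk Pool.Agent.helper36.WE.Step k (decs hd tl t) E' := by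
    rcases h2 with h2 | h2 | h2
    · exact ⟨0, Nat.zero_le _, h2 ▸ Walk.refl _ _⟩
    · obtain ⟨k, hk, h6⟩ := h2.walk hC hwt
      exact ⟨k, hszt ▸ hk, h6⟩
    · obtain ⟨k, hk, h6⟩ := h2.walk hC hwt.mir
      rw [decs_mir, size_swap, hszt] at hk
      refine ⟨k, hk, ?_⟩
      have := walk_swap h6
      simpa [decs_mir] using this
  obtain ⟨k, hk, h6⟩ := h5
  refine ⟨n + k, ?_, ?_⟩
  · have h7 : (G (size E) + 1) * (size E * (K * size E ^ 2 + 2)) + G (size E) * size E + size E = (G (size E) + 1) * (size E * (K * size E ^ 2 + 2) + size E) := by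
      ring
    omega
  · rw [hE]
    exact h4.append h6

end

section

variable {X A : Type} [DecidableEq X] [DecidableEq A]

/-- the bound if the first word begins with a letter of `D` and the second one does not. -/
theorem UBr_nonfull {K : ℕ} (hK : SegB K) {G : ℕ → ℕ} (hG : Monotone G) (hGB : GBn G) {D : Finset X} {x : X} (hx : x ∈ D) {U V : List (X ⊕ A)} {w : List (X ⊕ A)}
    (hw : ∀ s ∈ w, Tok D s) (hw0 : w ≠ []) (hV : Ful D V) {E E' : Eqn X A} (hE : E = (Sum.inl x :: U, w ++ V)) (hq : Quadratic E)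
    (hD : ∀ z, z ∈ D ↔ occ E z = 2) (h : Relation.ReflTransGen Lv E E') :
    ∃ n ≤ (G (size E) + 1) * (size E * (K * size E ^ 2 + 2) + size E) + size E, Walk Pool.Agent.helper36.WE.Step n E E' := by
  have hwl : w.length ≤ size E := by
    rw [hE]
    unfold size
    simp only [List.length_append, List.length_cons]
    omega
  have hnw : Sum.inl x ∉ w := fun h => hw _ h x hx rfl
  -- states of the run
  have hpre : ∀ w1 w2, w1 ++ w2 = w → ∃ n ≤ size E, Walk Pool.Agent.helper36.WE.Step n E (PreR x U V w1 w2) := by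
    intro w1 w2 he
    refine ⟨w1.length, ?_, ?_⟩
    · refine le_trans ?_ hwl
      rw [← he, List.length_append]
      omega
    · rw [hE, ← he]
      exact UB_preWalk hx (fun s hs => hw s (by rw [← he]; exact List.mem_append_left _ hs))
        (fun s hs => hw s (by rw [← he]; exact List.mem_append_right _ hs))
  by_cases hcyc : PreR x U V w [] = E
  · -- a cycle
    have hall : ∃ w1 w2, w1 ++ w2 = w ∧ E' = PreR x U V w1 w2 := by
      induction h with
      | refl => exact ⟨[], w, rfl, by rw [hE]; unfold PreR; rw [Pool.Agent.helper36.WE.ins_empty, Pool.Agent.helper36.WE.ins_empty]⟩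
      | @tail b c hab hbc ih =>
        obtain ⟨w1, w2, he, hb⟩ := ih
        obtain ⟨h1, h2, h3⟩ := UB_invs hq hD hab
        obtain ⟨h5, -, -⟩ := UB_lv h1 h2 hbc
        obtain ⟨w1', z, w2', he', hb'⟩ : ∃ (w1' : List (X ⊕ A)) (z : X ⊕ A) (w2' : List (X ⊕ A)), w1' ++ z :: w2' = w ∧ b = PreR x U V w1' (z :: w2') := by
          rcases w2 with _ | ⟨z, w2⟩
          · obtain ⟨z, w', rfl⟩ := List.exists_cons_of_ne_nil hw0
            refine ⟨[], z, w', rfl, ?_⟩
            rw [List.append_nil] at he
            rw [hb, he, hcyc, hE]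
            unfold PreR
            rw [Pool.Agent.helper36.WE.ins_empty, Pool.Agent.helper36.WE.ins_empty]
          · exact ⟨w1, z, w2, he, hb⟩
        rw [hb'] at h5
        have h6 := UB_preStep hx (fun s hs => hw s (by rw [← he']; exact List.mem_append_left _ hs))
          (hw z (by rw [← he']; simp)) (fun s hs => hw s (by rw [← he']; exact List.mem_append_right _ (List.mem_cons_of_mem _ hs))) h5
        exact ⟨w1' ++ [z], w2', by rw [← he']; simp, h6⟩
    obtain ⟨w1, w2, he, rfl⟩ := hall
    obtain ⟨n, hn, hwk⟩ := hpre w1 w2 he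
    exact ⟨n, by omega, hwk⟩
  · have hall : (∃ w1 w2, w1 ++ w2 = w ∧ E' = PreR x U V w1 w2) ∨
        (Relation.ReflTransGen Lv E (PreR x U V w []) ∧ Relation.ReflTransGen Lv (PreR x U V w []) E') := by
      induction h with
      | refl => exact Or.inl ⟨[], w, rfl, by rw [hE]; unfold PreR; rw [Pool.Agent.helper36.WE.ins_empty, Pool.Agent.helper36.WE.ins_empty]⟩
      | @tail b c hab hbc ih =>
        rcases ih with ⟨w1, w2, he, hb⟩ | ⟨h1, h2⟩
        · rcases w2 with _ | ⟨z, w2⟩
          · rw [List.append_nil] at he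
            subst he
            exact Or.inr ⟨hb ▸ hab, hb ▸ Relation.ReflTransGen.single hbc⟩
          · obtain ⟨h1, h2, h3⟩ := UB_invs hq hD hab
            obtain ⟨h5, -, -⟩ := UB_lv h1 h2 hbc
            rw [hb] at h5
            have h6 := UB_preStep hx (fun s hs => hw s (by rw [← he]; exact List.mem_append_left _ hs))
              (hw z (by rw [← he]; simp)) (fun s hs => hw s (by rw [← he]; exact List.mem_append_right _ (List.mem_cons_of_mem _ hs))) h5
            exact Or.inl ⟨w1 ++ [z], w2, by rw [← he]; simp, h6⟩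
        · exact Or.inr ⟨h1, h2.tail hbc⟩
    rcases hall with ⟨w1, w2, he, rfl⟩ | ⟨h1, h2⟩
    · obtain ⟨n, hn, hwk⟩ := hpre w1 w2 he
      exact ⟨n, by omega, hwk⟩
    · obtain ⟨q1, q2, q3⟩ := UB_invs hq hD h1
      have hf1 : Ful D (PreR x U V w []).1 := Or.inr ⟨x, hx, _, rfl⟩
      have hf2 : Ful D (PreR x U V w []).2 := by
        unfold PreR
        simp only [List.nil_append]
        rcases hV with rfl | ⟨z, hz, V2, rfl⟩
        · exact Or.inl rfl
        · by_cases hzx : z = x
          · exfalso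
            apply hcyc
            subst hzx
            have h4 := (hD z).1 hz
            rw [hE] at h4
            unfold occ at h4
            simp only [List.count_cons_self, List.count_append] at h4
            have h5 : U.count (Sum.inl z) = 0 := by omega
            have h6 : V2.count (Sum.inl z) = 0 := by omega
            rw [hE]
            unfold PreR
            rw [ins_of_notMem w z (List.count_eq_zero.1 h5), ins_cons, if_pos rfl, ins_of_notMem w z (List.count_eq_zero.1 h6)]
            simp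
          · refine Or.inr ⟨z, hz, ins w x V2, ?_⟩
            rw [ins_cons, if_neg (by simpa using hzx)]
            rfl
      obtain ⟨Ω, p, hd, tl, s, c1, c2, c3⟩ := UB_enc D _ q2 hf1 hf2
      obtain ⟨n, hn, hwk⟩ := UBr_fullcase hK hG hGB c1 c2 c3 q1 q2 h2
      rw [q3] at hn
      obtain ⟨k, hk, hwk2⟩ := hpre w [] (by simp)
      refine ⟨k + n, by omega, hwk2.append hwk⟩

/-- the bound if the second word is not full. -/
theorem UBr_right {K : ℕ} (hK : SegB K) {G : ℕ → ℕ} (hG : Monotone G) (hGB : GBn G) {D : Finset X} {V : List (X ⊕ A)} {w : List (X ⊕ A)}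
    (hw : ∀ s ∈ w, Tok D s) (hw0 : w ≠ []) (hV : Ful D V) {E E' : Eqn X A} (hE : E.2 = w ++ V) (hq : Quadratic E)
    (hD : ∀ z, z ∈ D ↔ occ E z = 2) (h : Relation.ReflTransGen Lv E E') :
    ∃ n ≤ (G (size E) + 1) * (size E * (K * size E ^ 2 + 2) + size E) + size E, Walk Pool.Agent.helper36.WE.Step n E E' := by
  by_cases hx : ∃ x ∈ D, ∃ U, E.1 = Sum.inl x :: U
  · obtain ⟨x, hx, U, hU⟩ := hx
    exact UBr_nonfull hK hG hGB hx hw hw0 hV (Prod.ext hU hE) hq hD h
  · rcases Relation.ReflTransGen.cases_head h with rfl | ⟨c, h1, -⟩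
    · exact ⟨0, Nat.zero_le _, Walk.refl _ _⟩
    · exfalso
      obtain ⟨h5, -, -⟩ := UB_lv hq hD h1
      obtain ⟨z, w', rfl⟩ := List.exists_cons_of_ne_nil hw0
      rcases h5 with ⟨x0, hx0, y0, U0, V0, hne, he, -⟩ | ⟨x0, hx0, y0, U0, V0, hne, he, -⟩
      · apply hx
        refine ⟨x0, hx0, U0, ?_⟩
        rw [he]
      · have e1 : E.2 = Sum.inl x0 :: U0 := congrArg Prod.fst he
        rw [hE, List.cons_append] at e1
        exact hw z (by simp) x0 hx0 (List.cons.inj e1).1

/-- equations of the same length. -/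
theorem UBr {K : ℕ} (hK : SegB K) {G : ℕ → ℕ} (hG : Monotone G) (hGB : GBn G) (E E' : Eqn X A) (hq : Quadratic E)
    (hr : Pool.Agent.helper36.WE.Reach E E') (hs : size E' = size E) :
    ∃ n ≤ (G (size E) + 1) * (size E * (K * size E ^ 2 + 2) + size E) + 2 * size E, PathLen n E E' := by
  obtain ⟨-, h0⟩ := UB_lvs hr hq
  have h := h0 hs
  have hD : ∀ z, z ∈ dbl E ↔ occ E z = 2 := mem_dbl E
  have key : ∃ n ≤ (G (size E) + 1) * (size E * (K * size E ^ 2 + 2) + size E) + size E, Walk Pool.Agent.helper36.WE.Step n E E' := by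
    rcases UB_word (dbl E) E.2 with h2 | ⟨w, V, e1, e2, e3, e4⟩
    · rcases UB_word (dbl E) E.1 with h1 | ⟨w, V, e1, e2, e3, e4⟩
      · obtain ⟨Ω, p, hd, tl, s, c1, c2, c3⟩ := UB_enc (dbl E) E hD h1 h2
        obtain ⟨n, hn, hwk⟩ := UBr_fullcase hK hG hGB c1 c2 c3 hq hD h
        exact ⟨n, by omega, hwk⟩
      · obtain ⟨n, hn, hwk⟩ := UBr_right hK (E := E.swap) hG hGB e3 e2 e4 e1 (quadratic_swap hq) (fun z => by rw [hD, occ_swap]) (UB_lvSwap h)
        rw [size_swap] at hn
        refine ⟨n, hn, ?_⟩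
        have := walk_swap hwk
        simpa using this
    · exact UBr_right hK hG hGB e3 e2 e4 e1 hq hD h
  obtain ⟨n, hn, hwk⟩ := key
  exact ⟨n, by omega, Pool.Agent.helper36.WE.walk_pathLen hwk⟩

end

end NTH
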