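import Pool.Agent.helper14.NTA.TBF
import Pool.Agent.helper14.NTA.FD
import Pool.Agent.helper65.GP.UB
import Pool.Agent.helper55.NA.AFin

/-!
# MP_c8d30a: the last chain
-/

set_option autoImplicit false

namespace NTH

open Pool.Agent.helper36.WE (Eqn Quadratic size PathLen quadratic_reach size_le)

/-- bounded by a polynomial. -/
def PB (f : ℕ → ℕ) : Prop := ∃ C N : ℕ, ∀ m, f m ≤ C * (m + 1) ^ N

theorem PB.const (c : ℕ) : PB (fun _ => c) := ⟨c, 0, fun m => by simp⟩

theorem PB.id : PB (fun m => m) := ⟨1, 1, fun m => by simp⟩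

theorem PB.add {f g : ℕ → ℕ} (hf : PB f) (hg : PB g) : PB (fun m => f m + g m) := by
  obtain ⟨C, N, h⟩ := hf
  obtain ⟨C', N', h'⟩ := hg
  refine ⟨C + C', N + N', fun m => ?_⟩
  have h1 : (m + 1) ^ N ≤ (m + 1) ^ (N + N') := Nat.pow_le_pow_right (by omega) (by omega)
  have h2 : (m + 1) ^ N' ≤ (m + 1) ^ (N + N') := Nat.pow_le_pow_right (by omega) (by omega)
  calc f m + g m ≤ C * (m + 1) ^ N + C' * (m + 1) ^ N' := Nat.add_le_add (h m) (h' m)
    _ ≤ C * (m + 1) ^ (N + N') + C' * (m + 1) ^ (N + N') := Nat.add_le_add (Nat.mul_le_mul_left _ h1) (Nat.mul_le_mul_left _ h2)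
    _ = (C + C') * (m + 1) ^ (N + N') := by ring

theorem PB.mul {f g : ℕ → ℕ} (hf : PB f) (hg : PB g) : PB (fun m => f m * g m) := by
  obtain ⟨C, N, h⟩ := hf
  obtain ⟨C', N', h'⟩ := hg
  refine ⟨C * C', N + N', fun m => ?_⟩
  calc f m * g m ≤ (C * (m + 1) ^ N) * (C' * (m + 1) ^ N') := Nat.mul_le_mul (h m) (h' m)
    _ = (C * C') * (m + 1) ^ (N + N') := by ring

theorem PB.pow {f : ℕ → ℕ} (hf : PB f) (k : ℕ) : PB (fun m => f m ^ k) := by
  induction k with
  | zero => simpa using PB.const 1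
  | succ k ih =>
    have := ih.mul hf
    simpa [pow_succ] using this

theorem NRc_PB (c : ℕ) : PB (NRc c) := by
  unfold NRc
  have hm : PB (fun m => m) := PB.id
  have h1 : PB (fun m => (c + 1) * (m * m) ^ c) := (PB.const _).mul ((hm.mul hm).pow c)
  have h2 : PB (fun m => (m + 1) ^ 2) := (hm.add (PB.const 1)).pow 2
  have h3 : PB (fun m => (c + 3) * m ^ (c + 2)) := (PB.const _).mul (hm.pow _)
  exact ((h1.mul (h1.mul h2)).add (h3.mul h3)).add (PB.const 1)

theorem PR_PB {P : ℕ → ℕ} (hP : PB P) : PB (PR P) := by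
  unfold PR
  have hm : PB (fun m => m) := PB.id
  exact ((((PB.const 15).mul hm).add (PB.const 20)).mul hm).add hP

theorem BR_PB {N P : ℕ → ℕ} (hN : PB N) (hP : PB P) : PB (fun m => BR (N m) (P m) m) := by
  unfold BR
  have hm : PB (fun m => m) := PB.id
  have h1 : PB (fun m => m * m + 1) := (hm.mul hm).add (PB.const 1)
  have h2 : PB (fun m => 2 * P m) := (PB.const 2).mul hP
  have h3 : PB (fun m => 2 * N m * (2 * P m + 1 + (m * m + 1)) + (m * m + 1)) :=
    (((PB.const 2).mul hN).mul ((h2.add (PB.const 1)).add h1)).add h1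
  exact (hN.mul (((h2.add (hm.mul h3)).add (PB.const 1)).add h1)).add h1

theorem FB_PB {P : ℕ → ℕ} (hP : PB P) (c : ℕ) : PB (FB c P) := by
  unfold FB
  exact BR_PB (NRc_PB c) (PR_PB hP)

theorem FB_mono {P : ℕ → ℕ} (hP : Monotone P) (c : ℕ) : Monotone (FB c P) := by
  intro a b h
  have h1 : NRc c a ≤ NRc c b := by
    unfold NRc
    gcongr
  have h2 : PR P a ≤ PR P b := by
    have := hP h
    unfold PR
    gcongr
  unfold FB
  refine (BR_mono h1 h2).trans ?_
  unfold BR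
  gcongr

/-- the bound of all paths. -/
def KF (F : ℕ → ℕ) (m : ℕ) : ℕ :=
  (m + 1) * (((m + 1) * (F m + 2 * m + 2) + 1) * (m * (55 * m ^ 4 + 2) + m) + 2 * m + 1)

theorem chain {F : ℕ → ℕ} (hF : Monotone F) (hT : TB F) (X A : Type) [DecidableEq X] [DecidableEq A] (E E' : Eqn X A)
    (hq : Quadratic E) (hr : Pool.Agent.helper36.WE.Reach E E') : ∃ n ≤ KF F (size E), PathLen n E E' := by
  have hG : GB (fun m => (m + 1) * (F m + 2 * m + 2)) := PH F hF hT
  have hGm : Monotone (fun m => (m + 1) * (F m + 2 * m + 2)) := by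
    intro a b h
    have := hF h
    show (a + 1) * (F a + 2 * a + 2) ≤ (b + 1) * (F b + 2 * b + 2)
    gcongr
  have hU := UB (fun m => (m + 1) * (F m + 2 * m + 2)) hGm hG
  have hK : Monotone (fun m => ((m + 1) * (F m + 2 * m + 2) + 1) * (m * (55 * m ^ 4 + 2) + m) + 2 * m) := by
    intro a b h
    have := hF h
    show ((a + 1) * (F a + 2 * a + 2) + 1) * (a * (55 * a ^ 4 + 2) + a) + 2 * a ≤
      ((b + 1) * (F b + 2 * b + 2) + 1) * (b * (55 * b ^ 4 + 2) + b) + 2 * b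
    gcongr
  exact FDrop _ hK (fun X A _ _ E E' h1 h2 h3 => hU X A E E' h1 h2 h3) X A E E' hq hr

theorem KF_mono {F : ℕ → ℕ} (hF : Monotone F) : Monotone (KF F) := by
  intro a b h
  have := hF h
  unfold KF
  gcongr

theorem KF_PB {F : ℕ → ℕ} (hF : PB F) : PB (KF F) := by
  have hm : PB (fun m => m) := PB.id
  have h1 : PB (fun m => m + 1) := hm.add (PB.const 1)
  have h2 : PB (fun m => 2 * m) := (PB.const 2).mul hm
  have h3 : PB (fun m => m * (55 * m ^ 4 + 2) + m) := (hm.mul (((PB.const 55).mul (hm.pow 4)).add (PB.const 2))).add hm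
  have h4 : PB (fun m => (m + 1) * (F m + 2 * m + 2) + 1) := (h1.mul ((hF.add h2).add (PB.const 2))).add (PB.const 1)
  exact h1.mul (((h4.mul h3).add h2).add (PB.const 1))

/-- THE POLYNOMIAL BOUND from (A). -/
theorem FIN {c : ℕ} {P : ℕ → ℕ} (hPm : Monotone P) (hP : PB P) (hA : HA c P) : ∃ C N : ℕ, ∀ (X A : Type) [DecidableEq X] [DecidableEq A]
    (E v₁ v₂ : Eqn X A), Quadratic E → Pool.Agent.helper36.WE.Reach E v₁ → Pool.Agent.helper36.WE.Reach v₁ v₂ →
      ∃ n, n ≤ C * size E ^ N ∧ PathLen n v₁ v₂ := by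
  obtain ⟨C, N, hC⟩ := KF_PB (FB_PB hP c)
  refine ⟨C * 2 ^ N, N + 1, ?_⟩
  intro X A _ _ E v₁ v₂ hq h1 h2
  have hsz : ∀ {E' : Eqn X A}, Pool.Agent.helper36.WE.Reach E E' → Quadratic E' ∧ size E' ≤ size E := by
    intro E' h
    induction h with
    | refl => exact ⟨hq, le_rfl⟩
    | tail _ hbc ih =>
      exact ⟨Pool.Agent.helper36.WE.quadratic_step ih.1 hbc, (size_le ih.1 hbc).trans ih.2⟩
  obtain ⟨hq1, hs1⟩ := hsz h1
  rcases Nat.eq_zero_or_pos (size E) with h0 | h0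
  · -- no steps
    have hno : ∀ {s t : Eqn X A}, size s = 0 → ¬ Pool.Agent.helper36.WE.Step s t := by
      intro s t hs hst
      unfold size at hs
      cases hst <;> simp at hs
    have hv : v₁ = v₂ := by
      rcases Relation.ReflTransGen.cases_head h2 with h | ⟨w, h, -⟩
      · exact h
      · exact absurd h (hno (by omega))
    subst hv
    exact ⟨0, Nat.zero_le _, fun _ => v₁, rfl, rfl, fun i hi => absurd hi (Nat.not_lt_zero i)⟩
  · obtain ⟨n, hn, hp⟩ := chain (FB_mono hPm c) (TBF hA) X A v₁ v₂ hq1 h2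
    refine ⟨n, ?_, hp⟩
    have h3 := KF_mono (FB_mono hPm c) hs1
    have h4 := hC (size E)
    have h5 : (size E + 1) ^ N ≤ (2 * size E) ^ N := Nat.pow_le_pow_left (by omega) N
    calc n ≤ KF (FB c P) (size v₁) := hn
      _ ≤ KF (FB c P) (size E) := h3
      _ ≤ C * (size E + 1) ^ N := h4
      _ ≤ C * (2 * size E) ^ N := Nat.mul_le_mul_left _ h5
      _ = C * 2 ^ N * size E ^ N := by rw [mul_pow, mul_assoc]
      _ ≤ C * 2 ^ N * size E ^ (N + 1) := Nat.mul_le_mul_left _ (Nat.pow_le_pow_right h0 (by omega))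

theorem nc_D2 {Ω : Type} (p : Ω → Ω) (s : St Ω) : nc p s = NTS.D2 p s := by
  classical
  rw [nc_eq]
  unfold NTS.D2
  rw [List.countP_eq_length_filter, List.countP_eq_length_filter]

/-- the cost of (A). -/
def PA (m : ℕ) : ℕ := m * (10 * m + 30) * m

theorem HA_A (h : NA.A_stmt.{0}) : HA 1200 PA := by
  intro Ω p s hw _ hd
  obtain ⟨e, A, B, h1, -, -, h2⟩ := h Ω p s hw hd
  exact ⟨e, A, B, h1, by rw [nc_D2]; exact h2⟩

theorem PA_PB : PB PA := (PB.id.mul (((PB.const 10).mul PB.id).add (PB.const 30))).mul PB.id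

theorem PA_mono : Monotone PA := by
  intro a b h
  unfold PA
  gcongr

/-- the bound for all quadratic word equations, from (A). -/
theorem FINA (h : NA.A_stmt.{0}) : ∃ C N : ℕ, ∀ (X A : Type) [DecidableEq X] [DecidableEq A]
    (E v₁ v₂ : Eqn X A), Quadratic E → Pool.Agent.helper36.WE.Reach E v₁ → Pool.Agent.helper36.WE.Reach v₁ v₂ →
      ∃ n, n ≤ C * size E ^ N ∧ PathLen n v₁ v₂ :=
  FIN PA_mono PA_PB (HA_A h)

end NTH
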