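import Pool.Agent.helper3.NTH.LR

/-!
# MP_c8d30a: (PF): a path all of whose states are pair free has at most `m²` transition steps (`m` = number of tokens)

Proof: forward induction (helper3's INV). `D` = the set of the tokens of the letters which have not been at a front. A pair of prefixes `P`, `Q` is kept such that it contains no complete pair, one token of
every seen red letter is in `P`, one token of every seen blue letter is in `Q`, and it is closed under the seen mixed letters.
-/

set_option autoImplicit false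

namespace NTH

universe u
variable {Ω : Type u} {p : Ω → Ω}

/-- a path (with exact cost) all of whose states have the property `Q`. -/
inductive Pth (p : Ω → Ω) (Q : St Ω → Prop) : ℕ → St Ω → St Ω → Prop
  | refl (s : St Ω) (h : Q s) : Pth p Q 0 s s
  | head {a c : ℕ} {s t v : St Ω} (hs : Q s) (h : Sp p c s t) (ht : Pth p Q a t v) : Pth p Q (c + a) s v

/-- a pair of prefixes which is good for the letters outside `D`. -/
structure Pre (p : Ω → Ω) (D : Finset Ω) (P Q : List Ω) (s : St Ω) : Prop where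
  pu : ∃ U2, s.1 = P ++ U2
  pv : ∃ V2, s.2 = Q ++ V2
  nu : ∀ t ∈ P, p t ∉ P
  nv : ∀ t ∈ Q, p t ∉ Q
  ru : ∀ t ∈ s.1, p t ∈ s.1 → t ∉ D → t ∈ P ∨ p t ∈ P
  rv : ∀ t ∈ s.2, p t ∈ s.2 → t ∉ D → t ∈ Q ∨ p t ∈ Q
  mx : ∀ t ∈ s.1, p t ∈ s.2 → t ∉ D → (t ∈ P ↔ p t ∈ Q)

/-- `D` is closed. -/
def DC (p : Ω → Ω) (D : Finset Ω) : Prop := ∀ t, t ∈ D ↔ p t ∈ D

/-- the fronts are not in `D`. -/
def FD (D : Finset Ω) (s : St Ω) : Prop := (∀ x U, s.1 = x :: U → x ∉ D) ∧ ∀ y V, s.2 = y :: V → y ∉ D

/-- no blue letter outside `D`. -/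
def NB (p : Ω → Ω) (D : Finset Ω) (s : St Ω) : Prop := ∀ t ∈ s.2, p t ∈ s.2 → t ∈ D

/-- no red letter outside `D`. -/
def NR (p : Ω → Ω) (D : Finset Ω) (s : St Ω) : Prop := ∀ t ∈ s.1, p t ∈ s.1 → t ∈ D

/-- the bounds. -/
def Bd (p : Ω → Ω) (s : St Ω) (T : ℕ) : Prop := ∀ (D : Finset Ω) (P Q : List Ω), DC p D → FD D s → P ≠ [] → Q ≠ [] → Pre p D P Q s →
  T ≤ (s.1 ++ s.2).length * D.card + P.length + Q.length + (s.1 ++ s.2).length ∧
  (NB p D s → T ≤ (s.1 ++ s.2).length * D.card + s.2.length) ∧
  (NR p D s → T ≤ (s.1 ++ s.2).length * D.card + s.1.length)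

theorem Pre.mir {D : Finset Ω} {P Q : List Ω} {s : St Ω} (hw : WF p s) (hD : DC p D) (h : Pre p D P Q s) : Pre p D Q P (mir s) := by
  refine ⟨h.pv, h.pu, h.nv, h.nu, h.rv, h.ru, ?_⟩
  intro t ht1 ht2 ht3
  have h1 := h.mx (p t) ht2 (by rw [hw.inv]; exact ht1) (by rw [← hD]; exact ht3)
  rw [hw.inv] at h1
  exact h1.symm

theorem Bd.mir {s : St Ω} {T : ℕ} (hw : WF p s) (h : Bd p s T) : Bd p (mir s) T := by
  intro D P Q hD hF hP hQ hpre
  have e : ((NTH.mir s).1 ++ (NTH.mir s).2).length = (s.1 ++ s.2).length := by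
    simp only [NTH.mir, List.length_append]
    omega
  have h1 : Pre p D Q P s := by
    have := hpre.mir hw.mir hD
    simpa using this
  obtain ⟨h2, h3, h4⟩ := h D Q P hD ⟨hF.2, hF.1⟩ hQ hP h1
  rw [e]
  refine ⟨?_, ?_, ?_⟩
  · omega
  · intro h5
    exact h4 h5
  · intro h5
    exact h3 h5

/-- the longer of two prefixes. -/
theorem lng {α : Type u} {W P R P2 R2 : List α} (h1 : W = P ++ P2) (h2 : W = R ++ R2) :
    ∃ S S2, W = S ++ S2 ∧ (∀ t, t ∈ S ↔ t ∈ P ∨ t ∈ R) ∧ (S = P ∨ S = R) := by
  rcases List.prefix_or_prefix_of_prefix (l₁ := P) (l₂ := R) (l₃ := W) ⟨P2, h1.symm⟩ ⟨R2, h2.symm⟩ with h | h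
  · refine ⟨R, R2, h2, ?_, Or.inr rfl⟩
    intro t
    constructor
    · intro ht
      exact Or.inr ht
    · rintro (ht | ht)
      · exact h.subset ht
      · exact ht
  · refine ⟨P, P2, h1, ?_, Or.inl rfl⟩
    intro t
    constructor
    · intro ht
      exact Or.inl ht
    · rintro (ht | ht)
      · exact ht
      · exact h.subset ht

/-- the join with the region of the fronts. -/
theorem join {D D' : Finset Ω} {P Q : List Ω} {s : St Ω} (hw : WF p s) (hpf : PFs p s) (hpre : Pre p D P Q s)
    {y : Ω} {V : List Ω} (hy : s.2 = y :: V) (hDD : ∀ t, t ∉ D' → t ∉ D ∨ t = y ∨ t = p y) :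
    ∃ P' Q' : List Ω, P' ≠ [] ∧ Q' ≠ [] ∧ Pre p D' P' Q' s := by
  obtain ⟨RU, RV, U2, V2, e, h1, h2, h3, h4, h5⟩ := hpf
  obtain ⟨PU, hPU⟩ := hpre.pu
  obtain ⟨PV, hPV⟩ := hpre.pv
  obtain ⟨S, S2, hS, hSm, hSe⟩ := lng hPU (R := RU) (R2 := U2) (by rw [e])
  obtain ⟨T, T2, hT, hTm, hTe⟩ := lng hPV (R := RV) (R2 := V2) (by rw [e])
  -- the front is in the region
  have hyRV : y ∈ RV := by
    rcases RV with _ | ⟨u, RV⟩
    · exact absurd rfl h2
    · have : (u :: RV) ++ V2 = y :: V := by rw [← hy, e]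
      have := (List.cons.inj this).1
      simp [this]
  have hnd := List.nodup_append.1 hw.nd
  have hdis : ∀ t, t ∈ s.1 → t ∈ s.2 → False := fun t ht1 ht2 => hnd.2.2 t ht1 t ht2 rfl
  refine ⟨S, T, ?_, ?_, ?_⟩
  · intro h0
    rcases RU with _ | ⟨u, RU⟩
    · exact h1 rfl
    · have : u ∈ S := (hSm u).2 (Or.inr List.mem_cons_self)
      rw [h0] at this
      simp at this
  · intro h0
    have : y ∈ T := (hTm y).2 (Or.inr hyRV)
    rw [h0] at this
    simp at this
  · refine ⟨⟨S2, hS⟩, ⟨T2, hT⟩, ?_, ?_, ?_, ?_, ?_⟩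
    · rcases hSe with h | h
      · rw [h]; exact hpre.nu
      · rw [h]; exact h3
    · rcases hTe with h | h
      · rw [h]; exact hpre.nv
      · rw [h]; exact h4
    · intro t ht1 ht2 ht3
      have hy2 : y ∈ s.2 := by rw [hy]; exact List.mem_cons_self
      rcases hDD t ht3 with h | h | h
      · rcases hpre.ru t ht1 ht2 h with h6 | h6
        · exact Or.inl ((hSm t).2 (Or.inl h6))
        · exact Or.inr ((hSm _).2 (Or.inl h6))
      · exact (hdis t ht1 (h ▸ hy2)).elim
      · rw [h, hw.inv] at ht2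
        exact (hdis y ht2 hy2).elim
    · intro t ht1 ht2 ht3
      rcases hDD t ht3 with h | h | h
      · rcases hpre.rv t ht1 ht2 h with h6 | h6
        · exact Or.inl ((hTm t).2 (Or.inl h6))
        · exact Or.inr ((hTm _).2 (Or.inl h6))
      · exact Or.inl ((hTm t).2 (Or.inr (h ▸ hyRV)))
      · refine Or.inr ((hTm _).2 (Or.inr ?_))
        rw [h, hw.inv]
        exact hyRV
    · intro t ht1 ht2 ht3
      rw [hSm, hTm]
      have h6 := h5 t ht1 ht2
      rcases hDD t ht3 with h | h | h
      · rw [hpre.mx t ht1 ht2 h, h6]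
      · have hy2 : y ∈ s.2 := by rw [hy]; exact List.mem_cons_self
        exact (hdis t ht1 (h ▸ hy2)).elim
      · have h7 : p t ∈ RV := by
          rw [h, hw.inv]
          exact hyRV
        exact ⟨fun _ => Or.inr h7, fun _ => Or.inr (h6.2 h7)⟩

/-- the pair after a step of the first word. -/
theorem Pre.stepL {D : Finset Ω} {P Q : List Ω} {c : ℕ} {s s' : St Ω} (hw : WF p s) (hs : SL p c s s') (hD : DC p D) (hF : FD D s)
    (hP : P ≠ []) (hQ : Q ≠ []) (hpre : Pre p D P Q s) : ∃ Q', Pre p D P Q' s' ∧ Q'.length + c = Q.length ∧ s'.2.length + c = s.2.length ∧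
      (c = 0 → s'.1 = s.1) ∧ c ≤ 1 ∧ (NR p D s → c = 0) ∧ (NB p D s → NB p D s') ∧ (∀ x U, s.1 = x :: U → ∃ U', s'.1 = x :: U') := by
  have hnd := hw.nd
  cases hs with
  | reg x y U A B =>
    obtain ⟨U2, hU2⟩ := hpre.pu
    obtain ⟨V2, hV2⟩ := hpre.pv
    simp only at hU2 hV2
    have hnd2 : (y :: (A ++ p x :: B)).Nodup := (List.nodup_append.1 hnd).2.1
    have hxP : x ∈ P := by
      rcases P with _ | ⟨u, P⟩
      · exact absurd rfl hP
      · have := (List.cons.inj hU2).1
        simp [this]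
    have hxD : x ∉ D := hF.1 x U rfl
    have hpxQ : p x ∈ Q := (hpre.mx x (by simp) (by simp) hxD).1 hxP
    have hpx2 : p x ∉ V2 := by
      rw [hV2] at hnd2
      intro h6
      exact (List.nodup_append.1 hnd2).2.2 _ hpxQ _ h6 rfl
    obtain ⟨C, hC⟩ := suffix_aux (A := y :: A) (x := p x) (B := B) (V1 := Q) (V2 := V2) (by simpa using hV2) hpx2
    have hQe : Q = y :: (A ++ p x :: C) := by
      have h6 : (y :: (A ++ p x :: C)) ++ V2 = Q ++ V2 := by
        rw [← hV2, hC]
        simp
      exact (List.append_cancel_right h6).symm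
    subst hQe
    have hmem : ∀ z, z ∈ A ++ y :: p x :: C ↔ z ∈ y :: (A ++ p x :: C) := by
      intro z
      simp only [List.mem_cons, List.mem_append]
      (first | grind | tauto)
    have hmemV : ∀ z, z ∈ A ++ y :: p x :: B ↔ z ∈ y :: (A ++ p x :: B) := by
      intro z
      simp only [List.mem_cons, List.mem_append]
      (first | grind | tauto)
    refine ⟨A ++ y :: p x :: C, ⟨⟨U2, hU2⟩, ⟨V2, ?_⟩, hpre.nu, ?_, hpre.ru, ?_, ?_⟩, ?_, ?_, fun _ => rfl, by omega, fun _ => rfl, ?_, ?_⟩
    · simp only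
      rw [hC]
      simp
    · intro t ht
      rw [hmem] at ht ⊢
      exact hpre.nv t ht
    · intro t ht1 ht2 ht3
      simp only at ht1 ht2
      rw [hmemV] at ht1 ht2
      rw [hmem, hmem]
      exact hpre.rv t ht1 ht2 ht3
    · intro t ht1 ht2 ht3
      simp only at ht1 ht2
      rw [hmemV] at ht2
      rw [hmem]
      exact hpre.mx t ht1 ht2 ht3
    · simp only [List.length_append, List.length_cons]
      omega
    · simp only [List.length_append, List.length_cons]
      omega
    · intro h t ht1 ht2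
      simp only at ht1 ht2
      rw [hmemV] at ht1 ht2
      exact h t ht1 ht2
    · intro x' U' h
      exact ⟨U', h⟩
  | tr x y A B V =>
    obtain ⟨U2, hU2⟩ := hpre.pu
    obtain ⟨V2, hV2⟩ := hpre.pv
    simp only at hU2 hV2
    obtain ⟨hn1, hn2, hn3⟩ := List.nodup_append.1 hnd
    simp only at hn1 hn2 hn3
    have hxP : x ∈ P := by
      rcases P with _ | ⟨u, P⟩
      · exact absurd rfl hP
      · have := (List.cons.inj hU2).1
        simp [this]
    have hpxP : p x ∉ P := hpre.nu x hxP
    -- `P` is a prefix of `x :: A`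
    have hC : ∃ C, x :: A = P ++ C := by
      have h1 : P <+: (x :: A) ++ p x :: B := ⟨U2, by simpa using hU2.symm⟩
      have h2 : (x :: A) <+: (x :: A) ++ p x :: B := ⟨p x :: B, rfl⟩
      rcases List.prefix_or_prefix_of_prefix h1 h2 with h3 | h3
      · obtain ⟨C, hC⟩ := h3
        exact ⟨C, hC.symm⟩
      · obtain ⟨C, hC⟩ := h3
        rcases C with _ | ⟨c, C⟩
        · exact ⟨[], by simpa using hC⟩
        · have h4 : (x :: A) ++ p x :: B = (x :: A) ++ (c :: C ++ U2) := by
            have h5 : (x :: A) ++ p x :: B = P ++ U2 := by simpa using hU2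
            rw [h5, ← hC]
            simp
          have h6 := (List.cons.inj (List.append_cancel_left h4)).1
          exact absurd (by rw [← hC, h6]; simp) hpxP
    obtain ⟨C, hC⟩ := hC
    rcases Q with _ | ⟨q, Q'⟩
    · exact absurd rfl hQ
    have hqy : y = q := (List.cons.inj hV2).1
    subst hqy
    have hVQ : V = Q' ++ V2 := by simpa using (List.cons.inj hV2).2
    have hyV : y ∉ V := (List.nodup_cons.1 hn2).1
    have hxD : x ∉ D := hF.1 x _ rfl
    have hyD : y ∉ D := hF.2 y _ rfl
    have hmemU : ∀ z, z ∈ x :: (A ++ y :: p x :: B) ↔ z = y ∨ z ∈ x :: (A ++ p x :: B) := by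
      intro z
      simp only [List.mem_cons, List.mem_append]
      (first | grind | tauto)
    have hdis : ∀ t, t ∈ x :: (A ++ p x :: B) → t ∈ y :: V → False := fun t ht1 ht2 => hn3 t ht1 t ht2 rfl
    have hPU : ∀ t ∈ P, t ∈ x :: (A ++ p x :: B) := by
      intro t ht
      rw [hU2]
      exact List.mem_append_left _ ht
    have hQV : ∀ t ∈ Q', t ∈ V := by
      intro t ht
      rw [hVQ]
      exact List.mem_append_left _ ht
    refine ⟨Q', ⟨⟨C ++ y :: p x :: B, ?_⟩, ⟨V2, hVQ⟩, hpre.nu, ?_, ?_, ?_, ?_⟩, by simp, by simp, by omega, le_refl 1, ?_, ?_, ?_⟩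
    · simp only
      rw [← List.append_assoc, ← hC]
      simp
    · intro t ht h
      exact hpre.nv t (List.mem_cons_of_mem _ ht) (List.mem_cons_of_mem _ h)
    · intro t ht1 ht2 ht3
      simp only at ht1 ht2
      rw [hmemU] at ht1 ht2
      rcases ht1 with h1 | h1
      · -- `t = y`
        rcases ht2 with h2 | h2
        · exact absurd (h2.trans h1.symm) (hw.ne t)
        · right
          have h3 := hpre.mx (p t) h2 (by rw [hw.inv, h1]; simp) (by rw [← hD]; exact ht3)
          rw [hw.inv] at h3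
          exact h3.2 (h1 ▸ List.mem_cons_self)
      · rcases ht2 with h2 | h2
        · left
          have h3 := hpre.mx t h1 (by rw [h2]; simp) ht3
          exact h3.2 (h2 ▸ List.mem_cons_self)
        · exact hpre.ru t h1 h2 ht3
    · intro t ht1 ht2 ht3
      simp only at ht1 ht2
      have h1 : t ≠ y := fun h => hyV (h ▸ ht1)
      have h2 : p t ≠ y := fun h => hyV (h ▸ ht2)
      rcases hpre.rv t (List.mem_cons_of_mem _ ht1) (List.mem_cons_of_mem _ ht2) ht3 with h3 | h3
      · exact Or.inl ((List.mem_cons.1 h3).resolve_left h1)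
      · exact Or.inr ((List.mem_cons.1 h3).resolve_left h2)
    · intro t ht1 ht2 ht3
      simp only at ht1 ht2
      rw [hmemU] at ht1
      have h2 : p t ≠ y := fun h => hyV (h ▸ ht2)
      rcases ht1 with h1 | h1
      · constructor
        · intro h3
          exact (hdis t (hPU t h3) (h1 ▸ List.mem_cons_self)).elim
        · intro h3
          exact absurd (List.mem_cons_of_mem _ h3) (hpre.nv t (h1 ▸ List.mem_cons_self))
      · rw [hpre.mx t h1 (List.mem_cons_of_mem _ ht2) ht3]
        constructor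
        · intro h3
          exact (List.mem_cons.1 h3).resolve_left h2
        · intro h3
          exact List.mem_cons_of_mem _ h3
    · intro h
      exact absurd (h x (by simp) (by simp)) hxD
    · intro h t ht1 ht2
      exact h t (List.mem_cons_of_mem _ ht1) (List.mem_cons_of_mem _ ht2)
    · intro x' U' h
      exact ⟨_, by rw [(List.cons.inj h).1]⟩

/-- one step. -/
theorem Bd.stepL {c : ℕ} {s s' : St Ω} {T : ℕ} (hw : WF p s) (hs : SL p c s s') (hpf : PFs p s') (hB : Bd p s' T) : Bd p s (c + T) := by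
  classical
  intro D P Q hD hF hP hQ hpre
  obtain ⟨Q', hpre', hlen, hlen2, hU1, hc1, hNR, hNB, hfr⟩ := hpre.stepL hw hs hD hF hP hQ
  have hperm : (s.1 ++ s.2).Perm (s'.1 ++ s'.2) := Sp.perm (Or.inl hs)
  have hw' : WF p s' := hw.of_perm hperm
  have hm : (s'.1 ++ s'.2).length = (s.1 ++ s.2).length := hperm.length_eq.symm
  -- the fronts
  have hne1 : ∃ x U, s.1 = x :: U := by
    obtain ⟨U2, hU2⟩ := hpre.pu
    rcases P with _ | ⟨u, P⟩
    · exact absurd rfl hP
    · exact ⟨u, P ++ U2, by rw [hU2]; rfl⟩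
  have hne2 : 1 ≤ s.2.length := by
    obtain ⟨V2, hV2⟩ := hpre.pv
    rcases Q with _ | ⟨u, Q⟩
    · exact absurd rfl hQ
    · rw [hV2]
      simp
  obtain ⟨x, U, hx⟩ := hne1
  have hxD : x ∉ D := hF.1 x U hx
  obtain ⟨U', hU'⟩ := hfr x U hx
  have hne3 : ∃ y V, s'.2 = y :: V := by
    obtain ⟨RU, RV, U2, V2, e, h1, h2, -⟩ := hpf
    rcases RV with _ | ⟨u, RV⟩
    · exact absurd rfl h2
    · exact ⟨u, RV ++ V2, by rw [e]; rfl⟩
  obtain ⟨y, V, hy⟩ := hne3
  have hs1 : 1 ≤ s.1.length := by rw [hx]; simp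
  have hm2 : (s.1 ++ s.2).length = s.1.length + s.2.length := List.length_append
  have hNRc : NR p D s → c = 0 ∧ NR p D s' := by
    intro h
    have h1 := hNR h
    refine ⟨h1, ?_⟩
    unfold NR
    rw [hU1 h1]
    exact h
  by_cases hyD : y ∈ D
  · -- a new letter
    have hpyD : p y ∈ D := (hD y).1 hyD
    have hpyne : p y ≠ y := hw.ne y
    obtain ⟨D', hD'⟩ : ∃ D' : Finset Ω, D' = (D.erase y).erase (p y) := ⟨_, rfl⟩
    have hcard : D'.card + 2 = D.card := by
      have h1 : (D.erase y).card + 1 = D.card := Finset.card_erase_add_one hyD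
      have h2 : ((D.erase y).erase (p y)).card + 1 = (D.erase y).card :=
        Finset.card_erase_add_one (Finset.mem_erase.2 ⟨hpyne, hpyD⟩)
      rw [hD']
      omega
    have hmemD : ∀ t, t ∈ D' ↔ t ≠ p y ∧ t ≠ y ∧ t ∈ D := by
      intro t
      rw [hD']
      simp only [Finset.mem_erase]
    have hDC' : DC p D' := by
      intro t
      rw [hmemD, hmemD, ← hD t]
      have e1 : p t ≠ p y ↔ t ≠ y := by
        constructor
        · intro h h'
          exact h (by rw [h'])
        · intro h h'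
          apply h
          rw [← hw.inv t, h', hw.inv]
      have e2 : p t ≠ y ↔ t ≠ p y := by
        constructor
        · intro h h'
          apply h
          rw [h', hw.inv]
        · intro h h'
          apply h
          rw [← h', hw.inv]
      rw [e1, e2]
      (first | grind | tauto)
    obtain ⟨P', Q'', hP', hQ'', hpre2⟩ := join (D' := D') hw' hpf hpre' hy (by
      intro t ht
      rw [hmemD] at ht
      (first | grind | tauto))
    have hFD' : FD D' s' := by
      constructor
      · intro x' U'' h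
        rw [hU'] at h
        rw [hmemD, ← (List.cons.inj h).1]
        (first | grind | tauto)
      · intro y' V' h
        rw [hy] at h
        rw [hmemD, ← (List.cons.inj h).1]
        (first | grind | tauto)
    obtain ⟨h1, -, -⟩ := hB D' P' Q'' hDC' hFD' hP' hQ'' hpre2
    have hle : P'.length + Q''.length ≤ (s.1 ++ s.2).length := by
      obtain ⟨a, ha⟩ := hpre2.pu
      obtain ⟨b, hb⟩ := hpre2.pv
      rw [← hm, ha, hb]
      simp only [List.length_append]
      omega
    rw [hm] at h1
    have h2 : (s.1 ++ s.2).length * D.card = (s.1 ++ s.2).length * D'.card + 2 * (s.1 ++ s.2).length := by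
      rw [← hcard]
      ring
    refine ⟨?_, ?_, ?_⟩
    · omega
    · intro _
      omega
    · intro _
      omega
  · -- no new letter
    have hFD' : FD D s' := by
      constructor
      · intro x' U'' h
        rw [hU'] at h
        rw [← (List.cons.inj h).1]
        exact hxD
      · intro y' V' h
        rw [hy] at h
        rw [← (List.cons.inj h).1]
        exact hyD
    by_cases hQ' : Q' = []
    · -- no seen blue letter
      have hNB' : NB p D s' := by
        intro t ht1 ht2
        by_contra h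
        rcases hpre'.rv t ht1 ht2 h with h1 | h1
        · rw [hQ'] at h1
          simp at h1
        · rw [hQ'] at h1
          simp at h1
      obtain ⟨P', Q'', hP', hQ'', hpre2⟩ := join (D' := D) hw' hpf hpre' hy (fun t ht => Or.inl ht)
      obtain ⟨-, h1, h3⟩ := hB D P' Q'' hD hFD' hP' hQ'' hpre2
      have h2 := h1 hNB'
      rw [hm] at h2 h3
      refine ⟨?_, ?_, ?_⟩
      · omega
      · intro _
        omega
      · intro h
        obtain ⟨h4, h5⟩ := hNRc h
        have h6 := h3 h5
        rw [hU1 h4] at h6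
        omega
    · obtain ⟨h1, h2, h3⟩ := hB D P Q' hD hFD' hP hQ' hpre'
      rw [hm] at h1 h2 h3
      refine ⟨?_, ?_, ?_⟩
      · omega
      · intro h
        have := h2 (hNB h)
        omega
      · intro h
        obtain ⟨h4, h5⟩ := hNRc h
        have h6 := h3 h5
        rw [hU1 h4] at h6
        omega

theorem Bd.path {a : ℕ} {s t : St Ω} (hw : WF p s) (h : Pth p (PFs p) a s t) : Bd p s a := by
  induction h with
  | refl s h =>
    intro D P Q _ _ _ _ _
    exact ⟨Nat.zero_le _, fun _ => Nat.zero_le _, fun _ => Nat.zero_le _⟩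
  | @head a c s t v hs h ht ih =>
    have hpt : PFs p t := by
      cases ht with
      | refl _ h => exact h
      | head h _ _ => exact h
    have hwt : WF p t := hw.of_perm h.perm
    rcases h with h | h
    · exact Bd.stepL hw h hpt (ih hwt)
    · have h1 := Bd.stepL hw.mir h (hpt.mir hwt) ((ih hwt).mir hwt)
      have := h1.mir hw.mir
      simpa using this

/-- (PF): a path all of whose states are pair free has at most `m²` transition steps. -/
theorem PF {a : ℕ} {s t : St Ω} (hw : WF p s) (h : Pth p (PFs p) a s t) : a ≤ (s.1 ++ s.2).length * (s.1 ++ s.2).length := by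
  classical
  have hB := Bd.path hw h
  have hpf : PFs p s := by
    cases h with
    | refl _ h => exact h
    | head h _ _ => exact h
  obtain ⟨RU, RV, U2, V2, e, h1, h2, h3, h4, h5⟩ := hpf
  obtain ⟨x, RU', rfl⟩ : ∃ x RU', RU = x :: RU' := List.exists_cons_of_ne_nil h1
  obtain ⟨y, RV', rfl⟩ : ∃ y RV', RV = y :: RV' := List.exists_cons_of_ne_nil h2
  have hx : x ∈ s.1 := by rw [e]; simp
  have hy : y ∈ s.2 := by rw [e]; simp
  have hnd := List.nodup_append.1 hw.nd
  have hdis : ∀ t, t ∈ s.1 → t ∈ s.2 → False := fun t ht1 ht2 => hnd.2.2 t ht1 t ht2 rfl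
  obtain ⟨D, hD⟩ : ∃ D : Finset Ω, D = (s.1 ++ s.2).toFinset.filter (fun t => t ≠ x ∧ t ≠ p x ∧ t ≠ y ∧ t ≠ p y) := ⟨_, rfl⟩
  have hmemD : ∀ t, t ∈ D ↔ t ∈ s.1 ++ s.2 ∧ t ≠ x ∧ t ≠ p x ∧ t ≠ y ∧ t ≠ p y := by
    intro t
    rw [hD, Finset.mem_filter, List.mem_toFinset]
  have hinj : ∀ a b, p a = p b ↔ a = b := by
    intro a b
    constructor
    · intro h
      rw [← hw.inv a, h, hw.inv]
    · intro h
      rw [h]
  have hsw : ∀ a b, p a = b ↔ a = p b := by
    intro a b
    constructor
    · intro h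
      rw [← h, hw.inv]
    · intro h
      rw [h, hw.inv]
  have hcl : ∀ t, t ∈ s.1 ++ s.2 ↔ p t ∈ s.1 ++ s.2 := by
    intro t
    refine ⟨hw.cl t, fun h => ?_⟩
    have := hw.cl _ h
    rwa [hw.inv] at this
  have hDC : DC p D := by
    intro t
    rw [hmemD, hmemD, ← hcl]
    simp only [ne_eq, hinj, hsw t]
    (first | grind | tauto)
  have hcard : D.card + 2 ≤ (s.1 ++ s.2).length := by
    have h6 : D ⊆ ((s.1 ++ s.2).toFinset.erase x).erase (p x) := by
      intro t ht
      rw [hmemD] at ht
      rw [Finset.mem_erase, Finset.mem_erase, List.mem_toFinset]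
      (first | grind | tauto)
    have h7 := Finset.card_le_card h6
    have hx' : x ∈ (s.1 ++ s.2).toFinset := by
      rw [List.mem_toFinset]
      exact List.mem_append_left _ hx
    have h8 : ((s.1 ++ s.2).toFinset.erase x).card + 1 = (s.1 ++ s.2).toFinset.card := Finset.card_erase_add_one hx'
    have h9 : (((s.1 ++ s.2).toFinset.erase x).erase (p x)).card + 1 = ((s.1 ++ s.2).toFinset.erase x).card := by
      refine Finset.card_erase_add_one (Finset.mem_erase.2 ⟨hw.ne x, ?_⟩)
      rw [List.mem_toFinset]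
      exact hw.cl x (List.mem_append_left _ hx)
    have h10 : (s.1 ++ s.2).toFinset.card ≤ (s.1 ++ s.2).length := List.toFinset_card_le _
    omega
  have hFD : FD D s := by
    constructor
    · intro x' U' h
      rw [e] at h
      have := (List.cons.inj h).1
      rw [hmemD, ← this]
      (first | grind | tauto)
    · intro y' V' h
      rw [e] at h
      have := (List.cons.inj h).1
      rw [hmemD, ← this]
      (first | grind | tauto)
  have hpre : Pre p D (x :: RU') (y :: RV') s := by
    have hcase : ∀ t, t ∈ s.1 ++ s.2 → t ∉ D → t = x ∨ t = p x ∨ t = y ∨ t = p y := by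
      intro t ht1 ht2
      rw [hmemD] at ht2
      (first | grind | tauto)
    refine ⟨⟨U2, by rw [e]⟩, ⟨V2, by rw [e]⟩, h3, h4, ?_, ?_, fun t ht1 ht2 _ => h5 t ht1 ht2⟩
    · intro t ht1 ht2 ht3
      rcases hcase t (List.mem_append_left _ ht1) ht3 with h | h | h | h
      · exact Or.inl (h ▸ List.mem_cons_self)
      · refine Or.inr ?_
        rw [h, hw.inv]
        exact List.mem_cons_self
      · exact (hdis t ht1 (h ▸ hy)).elim
      · rw [h, hw.inv] at ht2
        exact (hdis y ht2 hy).elim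
    · intro t ht1 ht2 ht3
      rcases hcase t (List.mem_append_right _ ht1) ht3 with h | h | h | h
      · exact (hdis t (h ▸ hx) ht1).elim
      · rw [h, hw.inv] at ht2
        exact (hdis x hx ht2).elim
      · exact Or.inl (h ▸ List.mem_cons_self)
      · refine Or.inr ?_
        rw [h, hw.inv]
        exact List.mem_cons_self
  obtain ⟨h6, -, -⟩ := hB D _ _ hDC hFD (by simp) (by simp) hpre
  have h7 : (x :: RU').length + (y :: RV').length ≤ (s.1 ++ s.2).length := by
    rw [e]
    simp only [List.length_append, List.length_cons]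
    omega
  obtain ⟨m, hm⟩ : ∃ m, m = (s.1 ++ s.2).length := ⟨_, rfl⟩
  rw [← hm] at h6 h7 hcard ⊢
  have h8 : m * (D.card + 2) ≤ m * m := Nat.mul_le_mul_left _ hcard
  have h9 : m * (D.card + 2) = m * D.card + 2 * m := by ring
  omega

end NTH
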