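import Pool.Agent.helper14.NTA.Spec

/-!
# MP_c8d30a: PH: phases (longest closed pair of suffixes)
-/

set_option autoImplicit false

namespace NTH

universe u
variable {Ω : Type u} {p : Ω → Ω}

/-! ## The frame -/

theorem PH_frameL {c : ℕ} {s t : St Ω} (U2 V2 : List Ω) (h : SL p c s t) :
    SL p c (s.1 ++ U2, s.2 ++ V2) (t.1 ++ U2, t.2 ++ V2) := by
  cases h with
  | reg x y U A B => simpa using SL.reg (p := p) x y (U ++ U2) A (B ++ V2)
  | tr x y A B V => simpa using SL.tr (p := p) x y A (B ++ U2) (V ++ V2)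

theorem PH_frame {c : ℕ} {s t : St Ω} (U2 V2 : List Ω) (h : Sp p c s t) :
    Sp p c (s.1 ++ U2, s.2 ++ V2) (t.1 ++ U2, t.2 ++ V2) := by
  rcases h with h | h
  · exact Or.inl (PH_frameL U2 V2 h)
  · exact Or.inr (PH_frameL V2 U2 h)

theorem PH_framePth {a : ℕ} {s t : St Ω} (U2 V2 : List Ω) (h : Pth p (fun _ => True) a s t) :
    Pth p (fun _ => True) a (s.1 ++ U2, s.2 ++ V2) (t.1 ++ U2, t.2 ++ V2) := by
  induction h with
  | refl s _ => exact .refl _ trivial
  | head _ h _ ih => exact .head trivial (PH_frame U2 V2 h) ih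

/-- a step does not touch a closed pair of suffixes. -/
theorem PH_unframeL {c : ℕ} {s t : St Ω} {U1 U2 V1 V2 : List Ω} (hw : WF p s) (hs : SL p c s t) (e : s = (U1 ++ U2, V1 ++ V2))
    (h1 : U1 ≠ []) (h2 : V1 ≠ []) (hc : ∀ z ∈ U2 ++ V2, p z ∈ U2 ++ V2) :
    ∃ U1' V1' : List Ω, t = (U1' ++ U2, V1' ++ V2) ∧ SL p c (U1, V1) (U1', V1') := by
  have hnd := hw.nd
  obtain ⟨x0, U0, rfl⟩ := List.exists_cons_of_ne_nil h1
  obtain ⟨y0, V0, rfl⟩ := List.exists_cons_of_ne_nil h2
  -- the front of the first word has its partner in the active part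
  have hx0 : p x0 ∉ U2 ∧ p x0 ∉ V2 := by
    have h3 : x0 ∉ U2 ++ V2 := by
      intro h4
      rw [e] at hnd
      simp only [List.cons_append] at hnd
      have h5 := (List.nodup_cons.1 hnd).1
      apply h5
      simp only [List.mem_append, List.mem_cons] at h4 ⊢
      tauto
    have h6 : p x0 ∉ U2 ++ V2 := by
      intro h4
      have := hc _ h4
      rw [hw.inv] at this
      exact h3 this
    simp only [List.mem_append] at h6
    tauto
  cases hs with
  | reg x y U A B =>
    obtain ⟨e1, e2⟩ := Prod.mk.inj e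
    simp only [List.cons_append] at e1 e2
    obtain ⟨rfl, e1'⟩ := List.cons.inj e1
    obtain ⟨rfl, e2'⟩ := List.cons.inj e2
    obtain ⟨C, rfl⟩ := suffix_aux e2' hx0.2
    have e3 : A ++ p x :: C = V0 := by
      have : (A ++ p x :: C) ++ V2 = V0 ++ V2 := by rw [← e2']; simp
      exact List.append_cancel_right this
    subst e3
    refine ⟨x :: U0, A ++ y :: p x :: C, ?_, SL.reg x y U0 A C⟩
    rw [e1']
    simp
  | tr x y A B V =>
    obtain ⟨e1, e2⟩ := Prod.mk.inj e
    simp only [List.cons_append] at e1 e2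
    obtain ⟨rfl, e1'⟩ := List.cons.inj e1
    obtain ⟨rfl, e2'⟩ := List.cons.inj e2
    obtain ⟨C, rfl⟩ := suffix_aux e1' hx0.1
    have e3 : A ++ p x :: C = U0 := by
      have : (A ++ p x :: C) ++ U2 = U0 ++ U2 := by rw [← e1']; simp
      exact List.append_cancel_right this
    subst e3
    refine ⟨x :: (A ++ y :: p x :: C), V0, ?_, SL.tr x y A C V0⟩
    rw [e2']
    simp

theorem PH_unframe {c : ℕ} {t : St Ω} {U1 U2 V1 V2 : List Ω} (hw : WF p (U1 ++ U2, V1 ++ V2)) (hs : Sp p c (U1 ++ U2, V1 ++ V2) t)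
    (h1 : U1 ≠ []) (h2 : V1 ≠ []) (hc : ∀ z ∈ U2 ++ V2, p z ∈ U2 ++ V2) :
    ∃ U1' V1' : List Ω, t = (U1' ++ U2, V1' ++ V2) ∧ Sp p c (U1, V1) (U1', V1') := by
  rcases hs with hs | hs
  · obtain ⟨U1', V1', h3, h4⟩ := PH_unframeL hw hs rfl h1 h2 hc
    exact ⟨U1', V1', h3, Or.inl h4⟩
  · have hc' : ∀ z ∈ V2 ++ U2, p z ∈ V2 ++ U2 := by
      intro z hz
      have h3 : z ∈ U2 ++ V2 := by
        simp only [List.mem_append] at hz ⊢
        tauto
      have := hc z h3
      simp only [List.mem_append] at this ⊢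
      tauto
    obtain ⟨V1', U1', h3, h4⟩ := PH_unframeL (U1 := V1) (U2 := V2) (V1 := U1) (V2 := U2) hw.mir hs rfl h2 h1 hc'
    refine ⟨U1', V1', ?_, Or.inr h4⟩
    have := congrArg mir h3
    simpa using this

/-- the active part is well formed. -/
theorem PH_wf {U1 U2 V1 V2 : List Ω} (hw : WF p (U1 ++ U2, V1 ++ V2)) (hc : ∀ z ∈ U2 ++ V2, p z ∈ U2 ++ V2) : WF p (U1, V1) := by
  have hnd := hw.nd
  simp only at hnd
  have hperm : ((U1 ++ U2) ++ (V1 ++ V2)).Perm ((U1 ++ V1) ++ (U2 ++ V2)) := by
    have h1 : ((U1 ++ U2) ++ (V1 ++ V2)).Perm (U1 ++ (V1 ++ (U2 ++ V2))) := by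
      rw [List.append_assoc]
      refine List.Perm.append_left _ ?_
      have h2 : (U2 ++ (V1 ++ V2)).Perm ((V1 ++ V2) ++ U2) := List.perm_append_comm
      have h3 : ((V1 ++ V2) ++ U2).Perm (V1 ++ (U2 ++ V2)) := by
        rw [List.append_assoc]
        exact List.Perm.append_left _ List.perm_append_comm
      exact h2.trans h3
    rw [List.append_assoc U1 V1]
    exact h1
  have hnd2 := hperm.nodup_iff.1 hnd
  obtain ⟨hn1, -, hn3⟩ := List.nodup_append.1 hnd2
  refine ⟨hn1, ?_, hw.inv, hw.ne⟩
  intro t ht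
  have h1 : p t ∈ (U1 ++ U2) ++ (V1 ++ V2) := hw.cl t (hperm.mem_iff.2 (List.mem_append_left _ ht))
  rcases List.mem_append.1 (hperm.mem_iff.1 h1) with h2 | h2
  · exact h2
  · have h3 := hc _ h2
    rw [hw.inv] at h3
    exact absurd rfl (hn3 t ht t h3)

/-- the longest closed pair of suffixes. -/
theorem PH_max (n : ℕ) : ∀ (U1 U2 V1 V2 : List Ω), U1.length + V1.length ≤ n → U1 ≠ [] → V1 ≠ [] → (∀ z ∈ U2 ++ V2, p z ∈ U2 ++ V2) →
    ∃ Ua Ub Va Vb : List Ω, U1 ++ U2 = Ua ++ Ub ∧ V1 ++ V2 = Va ++ Vb ∧ Ua ≠ [] ∧ Va ≠ [] ∧ (∀ z ∈ Ub ++ Vb, p z ∈ Ub ++ Vb) ∧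
      Irr p (Ua, Va) := by
  induction n with
  | zero =>
    intro U1 U2 V1 V2 hn h1
    have : U1.length = 0 := by omega
    exact absurd (List.length_eq_zero_iff.1 this) h1
  | succ n ih =>
    intro U1 U2 V1 V2 hn h1 h2 hc
    by_cases hi : Irr p (U1, V1)
    · exact ⟨U1, U2, V1, V2, rfl, rfl, h1, h2, hc, hi⟩
    · unfold Irr at hi
      push Not at hi
      obtain ⟨A1, A2, B1, B2, e, hA1, hB1, hcl, hne⟩ := hi
      obtain ⟨e1, e2⟩ := Prod.mk.inj e
      have hlt : A1.length + B1.length ≤ n := by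
        have h3 : U1.length = A1.length + A2.length := by rw [e1, List.length_append]
        have h4 : V1.length = B1.length + B2.length := by rw [e2, List.length_append]
        have h5 : 0 < A2.length + B2.length := by
          by_contra h6
          push Not at h6
          have h7 : A2 = [] := List.length_eq_zero_iff.1 (by omega)
          have h8 : B2 = [] := List.length_eq_zero_iff.1 (by omega)
          exact hne h7 h8
        omega
      obtain ⟨Ua, Ub, Va, Vb, h3, h4, h5, h6, h7, h8⟩ := ih A1 (A2 ++ U2) B1 (B2 ++ V2) hlt hA1 hB1 (by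
        intro z hz
        have h9 : z ∈ A2 ++ B2 ∨ z ∈ U2 ++ V2 := by
          simp only [List.mem_append] at hz ⊢
          tauto
        rcases h9 with h9 | h9
        · have := hcl z h9
          simp only [List.mem_append] at this ⊢
          tauto
        · have := hc z h9
          simp only [List.mem_append] at this ⊢
          tauto)
      refine ⟨Ua, Ub, Va, Vb, ?_, ?_, h5, h6, h7, h8⟩
      · rw [e1, List.append_assoc]
        exact h3
      · rw [e2, List.append_assoc]
        exact h4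

/-! ## The linear part -/

/-- no complete pair in the second word: this stays so, and the second word becomes shorter by the cost. -/
theorem PH_lin {c : ℕ} {s t : St Ω} (hw : WF p s) (hs : Sp p c s t) (hb : ∀ z ∈ s.2, p z ∉ s.2) :
    (∀ z ∈ t.2, p z ∉ t.2) ∧ t.2.length + c = s.2.length := by
  rcases hs with hs | hs
  · cases hs with
    | reg x y U A B =>
      have hmem : ∀ z, z ∈ A ++ y :: p x :: B ↔ z ∈ y :: (A ++ p x :: B) := by
        intro z
        simp only [List.mem_cons, List.mem_append]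
        tauto
      refine ⟨?_, ?_⟩
      · intro z hz h
        simp only at hz h
        rw [hmem] at hz h
        exact hb z hz h
      · simp only [List.length_append, List.length_cons]
        omega
    | tr x y A B V =>
      refine ⟨?_, by simp⟩
      intro z hz h
      exact hb z (List.mem_cons_of_mem _ hz) (List.mem_cons_of_mem _ h)
  · -- the front of the second word wins
    obtain ⟨s1, s2⟩ := s
    obtain ⟨t1, t2⟩ := t
    simp only [mir_mk] at hs
    cases hs with
    | reg x y U A B => exact ⟨hb, rfl⟩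
    | tr x y A B V => exact absurd (by simp) (hb x (by simp))

theorem PH_linPth {a : ℕ} {s t : St Ω} (hw : WF p s) (h : Pth p (fun _ => True) a s t) (hb : ∀ z ∈ s.2, p z ∉ s.2) :
    t.2.length + a = s.2.length := by
  induction h with
  | refl s _ => rfl
  | @head a c s t v _ h _ ih =>
    obtain ⟨h1, h2⟩ := PH_lin hw h hb
    have := ih (hw.of_perm h.perm) h1
    omega

theorem Pth.mirT {a : ℕ} {s t : St Ω} (h : Pth p (fun _ => True) a s t) : Pth p (fun _ => True) a (mir s) (mir t) := by
  induction h with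
  | refl s _ => exact .refl _ trivial
  | head _ h _ ih => exact .head trivial h.mir ih

/-- a path which starts outside `N` has cost at most `m`. -/
theorem PH_notN {a : ℕ} {s t : St Ω} (hw : WF p s) (h : Pth p (fun _ => True) a s t) (hn : ¬ N p s) : a ≤ (s.1 ++ s.2).length := by
  rw [List.length_append]
  by_cases hb : ∀ z ∈ s.2, p z ∉ s.2
  · have := PH_linPth hw h hb
    omega
  · have hr : ∀ z ∈ s.1, p z ∉ s.1 := by
      intro z hz h1
      apply hn
      push Not at hb
      obtain ⟨b, hb1, hb2⟩ := hb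
      exact ⟨⟨z, hz, h1⟩, ⟨b, hb1, hb2⟩⟩
    have := PH_linPth hw.mir h.mirT hr
    simp only [mir] at this
    omega

theorem Pth.transT {a b : ℕ} {s t v : St Ω} (h : Pth p (fun _ => True) a s t) (h' : Pth p (fun _ => True) b t v) :
    Pth p (fun _ => True) (a + b) s v := by
  induction h with
  | refl s _ => rw [zero_add]; exact h'
  | head h1 h2 _ ih =>
    rw [add_assoc]
    exact .head trivial h2 (ih h')

/-! ## One phase -/

/-- a path of an irreducible state is replaced by a path of cost at most `F m + 1 + m`. -/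
theorem PH_act {F : ℕ → ℕ} (hTB : TB F) {Ω : Type} {p : Ω → Ω} {a : ℕ} {s t : St Ω} (hw : WF p s) (hi : Irr p s)
    (h : Pth p (fun _ => True) a s t) : ∃ a' ≤ F (s.1 ++ s.2).length + 1 + (s.1 ++ s.2).length, Pth p (fun _ => True) a' s t := by
  have hTr : ∀ {c : ℕ} {w : St Ω}, Pth p (N p) c s w → ∃ a' ≤ F (s.1 ++ s.2).length, Pth p (fun _ => True) a' s w := by
    intro c w h1
    obtain ⟨c', hc', h2⟩ := (hTB Ω p s w c hw hi h1.toReach).toPth
    exact ⟨c', hc', h2.mono (fun _ _ => trivial)⟩
  rcases Pth.first (B := fun x => ¬ N p x) h with h1 | ⟨v, b, hv, h2, -, h3⟩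
  · obtain ⟨a', h4, h5⟩ := hTr (h1.mono (Q' := N p) (fun x hx => not_not.1 hx.2))
    exact ⟨a', by omega, h5⟩
  · rcases h3 with rfl | ⟨w, c, d, h4, h5⟩
    · have := PH_notN hw h2 hv
      exact ⟨b, by omega, h2⟩
    · obtain ⟨a', h6, h7⟩ := hTr (h4.mono (Q' := N p) (fun x hx => not_not.1 hx.2))
      have hperm : (s.1 ++ s.2).Perm (v.1 ++ v.2) := by
        have h8 : ∀ {c : ℕ} {x y : St Ω}, Pth p (fun _ => True) c x y → (x.1 ++ x.2).Perm (y.1 ++ y.2) := by
          intro c x y h9
          induction h9 with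
          | refl _ _ => exact List.Perm.refl _
          | head _ h _ ih => exact h.perm.trans ih
        exact (h8 h7).trans h5.perm
      have h9 := PH_notN (hw.of_perm hperm) h2 hv
      rw [← hperm.length_eq] at h9
      have h10 : Pth p (fun _ => True) (d + b) w t := .head trivial h5 h2
      have h11 := h5.le_one
      exact ⟨a' + (d + b), by omega, h7.transT h10⟩

theorem Pth.permT {c : ℕ} {x y : St Ω} (h : Pth p (fun _ => True) c x y) : (x.1 ++ x.2).Perm (y.1 ++ y.2) := by
  induction h with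
  | refl _ _ => exact List.Perm.refl _
  | head _ h _ ih => exact h.perm.trans ih

/-- the second word of the active part is exhausted; the first word has no closed proper suffix. -/
def Exh (p : Ω → Ω) (U V : List Ω) : Prop := V = [] ∧ ∀ T S : List Ω, U = T ++ S → T ≠ [] → (∀ z ∈ S, p z ∈ S) → S = []

/-- the last step of a phase. -/
theorem PH_exh {c : ℕ} {s t : St Ω} (hw : WF p s) (hi : Irr p s) (hs : SL p c s t) (ht : t.2 = []) : Exh p t.1 t.2 := by
  refine ⟨ht, ?_⟩
  intro T S e hT hS
  cases hs with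
  | reg x y U A B => simp at ht
  | tr x y A B V =>
    simp only at ht
    subst ht
    simp only at e
    obtain ⟨x0, T0, rfl⟩ := List.exists_cons_of_ne_nil hT
    obtain ⟨rfl, e'⟩ := List.cons.inj (e : x :: (A ++ y :: p x :: B) = x0 :: (T0 ++ S))
    -- `x` is not in `S`
    have hnd := (hw.of_perm (Sp.perm (p := p) (Or.inl (SL.tr x y A B [])))).nd
    simp only [List.append_nil] at hnd
    have hxS : x ∉ S := by
      intro h1
      apply (List.nodup_cons.1 hnd).1
      rw [e']
      exact List.mem_append_right _ h1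
    have hpxS : p x ∉ S := by
      intro h1
      have := hS _ h1
      rw [hw.inv] at this
      exact hxS this
    obtain ⟨C, hC⟩ := suffix_aux (A := A ++ [y]) (x := p x) (B := B) (V1 := T0) (V2 := S) (by simpa using e') hpxS
    have := hi (x :: (A ++ p x :: C)) S [y] [] (by rw [hC]; simp) (by simp) (by simp) (by simpa using hS)
    exact this.1

/-- a path is followed in the active part until it is exhausted. -/
theorem PH_follow {a : ℕ} {s t : St Ω} (h : Pth p (fun _ => True) a s t) : ∀ U1 U2 V1 V2 : List Ω, s = (U1 ++ U2, V1 ++ V2) →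
    U1 ≠ [] → V1 ≠ [] → WF p s → (∀ z ∈ U2 ++ V2, p z ∈ U2 ++ V2) → Irr p (U1, V1) →
    ∃ (a1 : ℕ) (U1' V1' : List Ω), Pth p (fun _ => True) a1 (U1, V1) (U1', V1') ∧ (t = (U1' ++ U2, V1' ++ V2) ∨
      ((Exh p U1' V1' ∨ Exh p V1' U1') ∧ ∃ a2, Pth p (fun _ => True) a2 (U1' ++ U2, V1' ++ V2) t)) := by
  induction h with
  | refl s _ =>
    intro U1 U2 V1 V2 e h1 h2 hw hc hi
    exact ⟨0, U1, V1, .refl _ trivial, Or.inl e⟩
  | @head a c s t v _ hs ht ih =>
    intro U1 U2 V1 V2 e h1 h2 hw hc hi
    subst e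
    obtain ⟨Ua, Va, rfl, hs'⟩ := PH_unframe hw hs h1 h2 hc
    have hwa : WF p (U1, V1) := PH_wf hw hc
    by_cases hUa : Ua = []
    · -- the first word is exhausted
      have hex : Exh p Va Ua := by
        rcases hs' with h3 | h3
        · -- the winner stays in the first word
          subst hUa
          cases h3
        · exact PH_exh hwa.mir hi.mir h3 hUa
      exact ⟨c + 0, Ua, Va, .head trivial hs' (.refl _ trivial), Or.inr ⟨Or.inr hex, a, ht⟩⟩
    · by_cases hVa : Va = []
      · have hex : Exh p Ua Va := by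
          rcases hs' with h3 | h3
          · exact PH_exh hwa hi h3 hVa
          · subst hVa
            simp only [mir_mk] at h3
            cases h3
        exact ⟨c + 0, Ua, Va, .head trivial hs' (.refl _ trivial), Or.inr ⟨Or.inl hex, a, ht⟩⟩
      · obtain ⟨a1, U1', V1', h4, h5⟩ := ih Ua U2 Va V2 rfl hUa hVa (hw.of_perm hs.perm) hc (Irr.step hwa hi hs')
        exact ⟨c + a1, U1', V1', .head trivial hs' h4, h5⟩

theorem PH_ne {c : ℕ} {s t : St Ω} (h : SL p c s t) : s.1 ≠ [] ∧ s.2 ≠ [] := by
  cases h <;> simp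

theorem PH_empty {a : ℕ} {s t : St Ω} (h : Pth p (fun _ => True) a s t) (he : s.1 = [] ∨ s.2 = []) : t = s := by
  cases h with
  | refl _ _ => rfl
  | head _ h _ =>
    exfalso
    rcases h with h | h
    · have := PH_ne h
      tauto
    · have := PH_ne h
      simp only [mir] at this
      tauto

/-- the new closed pair is shorter. -/
theorem PH_short {U' U2 V2 Ua Ub Va Vb : List Ω} (hw : WF p (U' ++ U2, V2)) (hc : ∀ z ∈ U2 ++ V2, p z ∈ U2 ++ V2)
    (hex : ∀ T S : List Ω, U' = T ++ S → T ≠ [] → (∀ z ∈ S, p z ∈ S) → S = []) (e1 : U' ++ U2 = Ua ++ Ub) (e2 : V2 = Va ++ Vb)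
    (hUa : Ua ≠ []) (hVa : Va ≠ []) (hcb : ∀ z ∈ Ub ++ Vb, p z ∈ Ub ++ Vb) : Ub.length + Vb.length < U2.length + V2.length := by
  have h1 : Vb.length < V2.length := by
    rw [e2, List.length_append]
    have := List.length_pos_iff.2 hVa
    omega
  have h2 : Ub.length ≤ U2.length := by
    by_contra hlt
    push Not at hlt
    -- `Ub = S ++ U2`
    have hsuf : U2 <:+ Ub := by
      have h3 : U2 <:+ U' ++ U2 := ⟨U', rfl⟩
      have h4 : Ub <:+ U' ++ U2 := ⟨Ua, e1.symm⟩
      exact List.suffix_of_suffix_length_le h3 h4 hlt.le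
    obtain ⟨S, rfl⟩ := hsuf
    have e3 : U' = Ua ++ S := by
      have : U' ++ U2 = (Ua ++ S) ++ U2 := by rw [e1]; simp
      exact List.append_cancel_right this
    have hS : ∀ z ∈ S, p z ∈ S := by
      intro z hz
      have h3 := hcb z (by simp [hz])
      have h4 : p z ∈ S ∨ p z ∈ U2 ++ V2 := by
        rw [e2]
        simp only [List.mem_append] at h3 ⊢
        tauto
      rcases h4 with h4 | h4
      · exact h4
      · exfalso
        have h5 := hc _ h4
        rw [hw.inv] at h5
        have hnd := hw.nd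
        simp only [List.append_assoc] at hnd
        have hzU : z ∈ U' := by
          rw [e3]
          exact List.mem_append_right _ hz
        exact (List.nodup_append.1 hnd).2.2 z hzU z h5 rfl
    have := hex Ua S e3 hUa hS
    rw [this] at hlt
    simp at hlt
  omega

/-- all phases. -/
theorem PH_main {F : ℕ → ℕ} (hF : Monotone F) (hTB : TB F) {Ω : Type} {p : Ω → Ω} (m : ℕ) (n : ℕ) : ∀ (a : ℕ) (t : St Ω) (U1 U2 V1 V2 : List Ω),
    U2.length + V2.length ≤ n → ((U1 ++ U2) ++ (V1 ++ V2)).length = m → U1 ≠ [] → V1 ≠ [] → WF p (U1 ++ U2, V1 ++ V2) →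
    (∀ z ∈ U2 ++ V2, p z ∈ U2 ++ V2) → Irr p (U1, V1) → Pth p (fun _ => True) a (U1 ++ U2, V1 ++ V2) t →
    ∃ a' ≤ (n + 1) * (F m + 2 * m + 2), Pth p (fun _ => True) a' (U1 ++ U2, V1 ++ V2) t := by
  induction n with
  | zero =>
    intro a t U1 U2 V1 V2 hn hm h1 h2 hw hc hi h
    have hU2 : U2 = [] := List.length_eq_zero_iff.1 (by omega)
    have hV2 : V2 = [] := List.length_eq_zero_iff.1 (by omega)
    subst hU2 hV2
    simp only [List.append_nil] at *
    obtain ⟨a', h3, h4⟩ := PH_act hTB hw hi h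
    simp only at h3
    rw [hm] at h3
    exact ⟨a', by omega, h4⟩
  | succ n ih =>
    intro a t U1 U2 V1 V2 hn hm h1 h2 hw hc hi h
    have hwa : WF p (U1, V1) := PH_wf hw hc
    obtain ⟨a1, U1', V1', h3, h4⟩ := PH_follow h U1 U2 V1 V2 rfl h1 h2 hw hc hi
    obtain ⟨b, hb, h5⟩ := PH_act hTB hwa hi h3
    have hm1 : (U1 ++ V1).length ≤ m := by
      rw [← hm]
      simp only [List.length_append]
      omega
    have hFm : F (U1 ++ V1).length ≤ F m := hF hm1
    simp only at hb
    have h6 := PH_framePth U2 V2 h5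
    simp only at h6
    have hb' : b ≤ F m + 2 * m + 2 := by omega
    rcases h4 with rfl | ⟨hex, a2, h7⟩
    · refine ⟨b, ?_, h6⟩
      calc b ≤ 1 * (F m + 2 * m + 2) := by omega
        _ ≤ (n + 1 + 1) * (F m + 2 * m + 2) := Nat.mul_le_mul_right _ (by omega)
    · have hperm : ((U1 ++ U2) ++ (V1 ++ V2)).Perm ((U1' ++ U2) ++ (V1' ++ V2)) := h6.permT
      have hw' : WF p (U1' ++ U2, V1' ++ V2) := hw.of_perm hperm
      have hm' : ((U1' ++ U2) ++ (V1' ++ V2)).length = m := by rw [← hperm.length_eq]; exact hm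
      by_cases he : U1' ++ U2 = [] ∨ V1' ++ V2 = []
      · have := PH_empty h7 he
        subst this
        refine ⟨b, ?_, h6⟩
        calc b ≤ 1 * (F m + 2 * m + 2) := by omega
          _ ≤ (n + 1 + 1) * (F m + 2 * m + 2) := Nat.mul_le_mul_right _ (by omega)
      · push Not at he
        obtain ⟨he1, he2⟩ := he
        have hlen : (U1' ++ V1').length + (U2.length + V2.length) = m := by
          rw [← hm']
          simp only [List.length_append]
          omega
        obtain ⟨Ua, Ub, Va, Vb, e1, e2, hUa, hVa, hcb, hia⟩ := PH_max (p := p) _ (U1' ++ U2) [] (V1' ++ V2) [] le_rfl he1 he2 (by simp)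
        simp only [List.append_nil] at e1 e2
        have hlt : Ub.length + Vb.length < U2.length + V2.length := by
          rcases hex with hex | hex
          · obtain ⟨hx1, hx2⟩ := hex
            subst hx1
            simp only [List.nil_append] at *
            exact PH_short hw' hc hx2 e1 e2 hUa hVa hcb
          · obtain ⟨hx1, hx2⟩ := hex
            subst hx1
            simp only [List.nil_append] at *
            have := PH_short (U' := V1') (U2 := V2) (V2 := U2) (Ua := Va) (Ub := Vb) (Va := Ua) (Vb := Ub) hw'.mir (by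
              intro z hz
              have h8 : z ∈ U2 ++ V2 := by
                simp only [List.mem_append] at hz ⊢
                tauto
              have := hc z h8
              simp only [List.mem_append] at this ⊢
              tauto) hx2 e2 e1 hVa hUa (by
              intro z hz
              have h8 : z ∈ Ub ++ Vb := by
                simp only [List.mem_append] at hz ⊢
                tauto
              have := hcb z h8
              simp only [List.mem_append] at this ⊢
              tauto)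
            omega
        rw [e1, e2] at h7 hw' hm' h6
        obtain ⟨b2, hb2, h8⟩ := ih a2 t Ua Ub Va Vb (by omega) hm' hUa hVa hw' hcb hia h7
        refine ⟨b + b2, ?_, h6.transT h8⟩
        have : (n + 1 + 1) * (F m + 2 * m + 2) = (n + 1) * (F m + 2 * m + 2) + (F m + 2 * m + 2) := by ring
        omega

/-- PH. -/
theorem PH : PH_stmt := by
  intro F hF hTB Ω p s t a hw h
  obtain ⟨U, V⟩ := s
  by_cases he : U = [] ∨ V = []
  · have := PH_empty h he
    subst this
    exact ⟨0, Nat.zero_le _, .refl _ trivial⟩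
  · push Not at he
    obtain ⟨Ua, Ub, Va, Vb, e1, e2, hUa, hVa, hcb, hia⟩ := PH_max (p := p) _ U [] V [] le_rfl he.1 he.2 (by simp)
    simp only [List.append_nil] at e1 e2
    subst e1 e2
    simp only
    have hlt : Ub.length + Vb.length ≤ ((Ua ++ Ub) ++ (Va ++ Vb)).length := by
      simp only [List.length_append]
      omega
    exact PH_main hF hTB _ _ a t Ua Ub Va Vb hlt rfl hUa hVa hw hcb hia h

end NTH
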