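import Pool.Agent.helper65.GP.Steps
import Pool.Agent.helper14.NTA.FD

/-!
# MP_c8d30a: exponent 12 from the bound `C (m + 1) ^ 9` for the number of token steps between irreducible two sided states
-/

set_option autoImplicit false

namespace NTH

open Pool.Agent.helper36.WE (Eqn Quadratic size PathLen size_le)

theorem Q12_num (C m : ℕ) : (m + 1) * (((m + 1) * PHB (fun m => C * (m + 1) ^ 9) m) * m + 2 * m + 1) ≤ (C + 62) * (m + 1) ^ 12 := by
  obtain ⟨n, rfl⟩ : ∃ n, n = m + 1 := ⟨_, rfl⟩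
  have h0 : 1 ≤ m + 1 := by omega
  have hp : ∀ {i j : ℕ}, i ≤ j → (m + 1) ^ i ≤ (m + 1) ^ j := fun h => Nat.pow_le_pow_right h0 h
  have hm : m ≤ (m + 1) ^ 1 := by rw [pow_one]; omega
  have hm4 : m ^ 4 ≤ (m + 1) ^ 4 := Nat.pow_le_pow_left (by omega) 4
  have h1 : 55 * m ^ 4 + 2 ≤ 57 * (m + 1) ^ 4 := by
    have : 1 ≤ (m + 1) ^ 4 := Nat.one_le_pow _ _ h0
    omega
  have h2 : RB m ≤ 57 * (m + 1) ^ 5 := by
    unfold RB
    calc m * (55 * m ^ 4 + 2) ≤ (m + 1) ^ 1 * (57 * (m + 1) ^ 4) := Nat.mul_le_mul hm h1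
      _ = 57 * (m + 1) ^ 5 := by ring
  have h3 : PHB (fun m => C * (m + 1) ^ 9) m ≤ (C + 59) * (m + 1) ^ 9 := by
    unfold PHB
    show C * (m + 1) ^ 9 + 1 + ((m + 1) * RB m + m) ≤ (C + 59) * (m + 1) ^ 9
    have e1 : (m + 1) * RB m ≤ (m + 1) * (57 * (m + 1) ^ 5) := Nat.mul_le_mul_left _ h2
    have e2 : (m + 1) * (57 * (m + 1) ^ 5) = 57 * (m + 1) ^ 6 := by ring
    have e3 : (m + 1) ^ 6 ≤ (m + 1) ^ 9 := hp (by omega)
    have e4 : (m + 1) ^ 1 ≤ (m + 1) ^ 9 := hp (by omega)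
    have e5 : (m + 1) ^ 0 ≤ (m + 1) ^ 9 := hp (by omega)
    rw [pow_zero] at e5
    have e6 : (C + 59) * (m + 1) ^ 9 = C * (m + 1) ^ 9 + 59 * (m + 1) ^ 9 := by ring
    omega
  have h4 : (m + 1) * PHB (fun m => C * (m + 1) ^ 9) m ≤ (C + 59) * (m + 1) ^ 10 := by
    calc (m + 1) * PHB (fun m => C * (m + 1) ^ 9) m ≤ (m + 1) * ((C + 59) * (m + 1) ^ 9) := Nat.mul_le_mul_left _ h3
      _ = (C + 59) * (m + 1) ^ 10 := by ring
  have h5 : ((m + 1) * PHB (fun m => C * (m + 1) ^ 9) m) * m + 2 * m + 1 ≤ (C + 62) * (m + 1) ^ 11 := by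
    have e1 : ((m + 1) * PHB (fun m => C * (m + 1) ^ 9) m) * m ≤ ((C + 59) * (m + 1) ^ 10) * (m + 1) ^ 1 := Nat.mul_le_mul h4 hm
    have e2 : ((C + 59) * (m + 1) ^ 10) * (m + 1) ^ 1 = (C + 59) * (m + 1) ^ 11 := by ring
    have e3 : (m + 1) ^ 1 ≤ (m + 1) ^ 11 := hp (by omega)
    have e4 : (m + 1) ^ 0 ≤ (m + 1) ^ 11 := hp (by omega)
    rw [pow_zero] at e4
    have e5 : (C + 62) * (m + 1) ^ 11 = (C + 59) * (m + 1) ^ 11 + 3 * (m + 1) ^ 11 := by ring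
    omega
  calc (m + 1) * (((m + 1) * PHB (fun m => C * (m + 1) ^ 9) m) * m + 2 * m + 1) ≤ (m + 1) * ((C + 62) * (m + 1) ^ 11) :=
        Nat.mul_le_mul_left _ h5
    _ = (C + 62) * (m + 1) ^ 12 := by ring

/-- Q1 LITERALLY, from the bound for irreducible two sided states. -/
theorem Q12 {C : ℕ} (hT : TBn (fun m => C * (m + 1) ^ 9)) (X A : Type) [DecidableEq X] [DecidableEq A]
    (E v₁ v₂ : Eqn X A) (hq : Quadratic E) (h1 : Pool.Agent.helper36.WE.Reach E v₁) (h2 : Pool.Agent.helper36.WE.Reach v₁ v₂) :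
    ∃ n, n ≤ ((C + 62) * 2 ^ 12) * size E ^ 12 ∧ PathLen n v₁ v₂ := by
  have hF : Monotone (fun m => C * (m + 1) ^ 9) := by
    intro a b h
    show C * (a + 1) ^ 9 ≤ C * (b + 1) ^ 9
    gcongr
  have hG := PHn hF hT
  have hGm : Monotone (fun m => (m + 1) * PHB (fun m => C * (m + 1) ^ 9) m) := by
    intro a b h
    have := PHB_mono hF h
    show (a + 1) * PHB (fun m => C * (m + 1) ^ 9) a ≤ (b + 1) * PHB (fun m => C * (m + 1) ^ 9) b
    gcongr
  have hK : Monotone (fun m => ((m + 1) * PHB (fun m => C * (m + 1) ^ 9) m) * m + 2 * m) := by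
    intro a b h
    have := hGm h
    simp only at this
    show ((a + 1) * PHB (fun m => C * (m + 1) ^ 9) a) * a + 2 * a ≤ ((b + 1) * PHB (fun m => C * (m + 1) ^ 9) b) * b + 2 * b
    gcongr
  have hsz : ∀ {E' : Eqn X A}, Pool.Agent.helper36.WE.Reach E E' → Quadratic E' ∧ size E' ≤ size E := by
    intro E' h
    induction h with
    | refl => exact ⟨hq, le_rfl⟩
    | tail _ hbc ih =>
      exact ⟨Pool.Agent.helper36.WE.quadratic_step ih.1 hbc, (size_le ih.1 hbc).trans ih.2⟩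
  obtain ⟨hq1, hs1⟩ := hsz h1
  rcases Nat.eq_zero_or_pos (size E) with h0 | h0
  · -- no steps
    have hno : ∀ {s t : Eqn X A}, size s = 0 → ¬ Pool.Agent.helper36.WE.Step s t := by
      intro s t hs hst
      unfold size at hs
      cases hst <;> simp at hs
    have hv : v₁ = v₂ := by
      rcases Relation.ReflTransGen.cases_head h2 with h | ⟨w, h, -⟩
      · exact h
      · exact absurd h (hno (by omega))
    subst hv
    exact ⟨0, Nat.zero_le _, fun _ => v₁, rfl, rfl, fun i hi => absurd hi (Nat.not_lt_zero i)⟩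
  · obtain ⟨n, hn, hp⟩ := FDrop _ hK (fun X A _ _ E E' h1 h2 h3 => UBn hGm hG E E' h1 h2 h3) X A v₁ v₂ hq1 h2
    refine ⟨n, ?_, hp⟩
    have h3 : (size v₁ + 1) * (((size v₁ + 1) * PHB (fun m => C * (m + 1) ^ 9) (size v₁)) * size v₁ + 2 * size v₁ + 1) ≤
        (C + 62) * (size v₁ + 1) ^ 12 := Q12_num C _
    have h4 : (size v₁ + 1) ^ 12 ≤ (2 * size E) ^ 12 := Nat.pow_le_pow_left (by omega) 12
    calc n ≤ (C + 62) * (size v₁ + 1) ^ 12 := hn.trans h3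
      _ ≤ (C + 62) * (2 * size E) ^ 12 := Nat.mul_le_mul_left _ h4
      _ = ((C + 62) * 2 ^ 12) * size E ^ 12 := by rw [mul_pow, mul_assoc]

end NTH
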