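import Pool.Agent.helper65.GP.Q12R
import Pool.Agent.helper14.NTN.TBF

/-!
# MP_c8d30a: Q1 literally from (A_2), the normal forms and the bound for regular segments
-/

set_option autoImplicit false

namespace NTH

open Pool.Agent.helper36.WE (Eqn Quadratic size PathLen size_le NF4_stmt)

theorem FBn_le {P : ℕ → ℕ} {K : ℕ} (hP : ∀ m, P m ≤ K * (m + 1) ^ 2) (m : ℕ) : FBn P m ≤ (50 * (5 * K + 113) + 1) * (m + 1) ^ 7 := by
  have h0 : 1 ≤ m + 1 := by omega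
  have hp : ∀ {i j : ℕ}, i ≤ j → (m + 1) ^ i ≤ (m + 1) ^ j := fun h => Nat.pow_le_pow_right h0 h
  obtain ⟨M, hM⟩ : ∃ M, M = (m + 1) ^ 2 := ⟨_, rfl⟩
  have e1 : m * m + 1 ≤ M := by rw [hM]; nlinarith
  have e2 : (15 * m + 20) * m ≤ 20 * M := by rw [hM]; nlinarith
  have e3 : P m ≤ K * M := by rw [hM]; exact hP m
  have e4 : PRn P m + 1 ≤ (K + 21) * M := by
    unfold PRn
    have : (K + 21) * M = K * M + 20 * M + M := by ring
    omega
  have e5 : NRn m ≤ 50 * (m + 1) ^ 4 := by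
    unfold NRn
    have h1 : m ^ 4 ≤ (m + 1) ^ 4 := Nat.pow_le_pow_left (by omega) 4
    have h2 : 1 ≤ (m + 1) ^ 4 := Nat.one_le_pow _ _ h0
    omega
  have e6 : 1 ≤ M := by omega
  have e7 : (m * m + 1) + (PRn P m + 1) + 2 ≤ (K + 24) * (m + 1) ^ 3 := by
    have h1 : M ≤ (m + 1) ^ 3 := by rw [hM]; exact hp (by omega)
    have h2 : (K + 24) * M ≤ (K + 24) * (m + 1) ^ 3 := Nat.mul_le_mul_left _ h1
    have h3 : (K + 24) * M = (K + 21) * M + 3 * M := by ring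
    omega
  have e8 : (m + 1) * (2 * (2 * (PRn P m + 1) + 1 + (m * m + 1)) + (m * m + 1)) ≤ (4 * K + 89) * (m + 1) ^ 3 := by
    have h1 : 2 * (2 * (PRn P m + 1) + 1 + (m * m + 1)) + (m * m + 1) ≤ (4 * K + 89) * M := by
      have h3 : (4 * K + 89) * M = 4 * ((K + 21) * M) + 5 * M := by ring
      omega
    calc _ ≤ (m + 1) * ((4 * K + 89) * M) := Nat.mul_le_mul_left _ h1
      _ = (4 * K + 89) * (m + 1) ^ 3 := by rw [hM]; ring
  unfold FBn BRn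
  calc _ ≤ M + (50 * (m + 1) ^ 4) * ((K + 24) * (m + 1) ^ 3 + (4 * K + 89) * (m + 1) ^ 3) :=
        Nat.add_le_add e1 (Nat.mul_le_mul e5 (Nat.add_le_add e7 e8))
    _ = M + (50 * (5 * K + 113)) * (m + 1) ^ 7 := by ring
    _ ≤ (m + 1) ^ 7 + (50 * (5 * K + 113)) * (m + 1) ^ 7 := by
        have : M ≤ (m + 1) ^ 7 := by rw [hM]; exact hp (by omega)
        omega
    _ = (50 * (5 * K + 113) + 1) * (m + 1) ^ 7 := by ring

/-- Q1 LITERALLY from (A_2), the normal forms and the bound for regular segments. -/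
theorem Q12_of {K KP : ℕ} (hK : SegB K) (hNF : NF4_stmt) {P : ℕ → ℕ} (hP : ∀ m, P m ≤ KP * (m + 1) ^ 2) (hA : HA2 P) :
    ∃ C : ℕ, ∀ (X A : Type) [DecidableEq X] [DecidableEq A] (E v₁ v₂ : Eqn X A), Quadratic E →
      Pool.Agent.helper36.WE.Reach E v₁ → Pool.Agent.helper36.WE.Reach v₁ v₂ →
        ∃ n, n ≤ C * size E ^ 12 ∧ PathLen n v₁ v₂ := by
  have hT : TBn (fun m => (50 * (5 * KP + 113) + 1) * (m + 1) ^ 7) := by
    intro Ω p s t a hw hi hr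
    exact (TBFn hNF hA Ω p s t a hw hi hr).mono (FBn_le hP _)
  exact ⟨_, fun X A _ _ E v₁ v₂ hq h1 h2 => Q12r hK hT X A E v₁ v₂ hq h1 h2⟩

end NTH
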