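import Pool.Agent.helper65.GP.Runs
import Pool.Agent.helper14.NTA.FD

/-!
# MP_c8d30a: exponent 12 from the bound `C (m + 1) ^ 7` for the number of runs between irreducible two sided states
-/

set_option autoImplicit false

namespace NTH

open Pool.Agent.helper36.WE (Eqn Quadratic size PathLen size_le)

theorem Q12r_num (C K m : ℕ) : (m + 1) * (((m + 1) * (C * (m + 1) ^ 7 + 2 * m + 2) + 1) * (m * (K * m ^ 2 + 2) + m) + 2 * m + 1) ≤
    ((C + 3) * (K + 3) + 2) * (m + 1) ^ 12 := by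
  have h0 : 1 ≤ m + 1 := by omega
  have hp : ∀ {i j : ℕ}, i ≤ j → (m + 1) ^ i ≤ (m + 1) ^ j := fun h => Nat.pow_le_pow_right h0 h
  have hm : m ≤ m + 1 := by omega
  have h1 : C * (m + 1) ^ 7 + 2 * m + 2 ≤ (C + 2) * (m + 1) ^ 7 := by
    have e1 : (m + 1) ^ 1 ≤ (m + 1) ^ 7 := hp (by omega)
    rw [pow_one] at e1
    have e2 : (C + 2) * (m + 1) ^ 7 = C * (m + 1) ^ 7 + 2 * (m + 1) ^ 7 := by ring
    omega
  have h2 : (m + 1) * (C * (m + 1) ^ 7 + 2 * m + 2) + 1 ≤ (C + 3) * (m + 1) ^ 8 := by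
    have e1 : (m + 1) * (C * (m + 1) ^ 7 + 2 * m + 2) ≤ (m + 1) * ((C + 2) * (m + 1) ^ 7) := Nat.mul_le_mul_left _ h1
    have e2 : (m + 1) * ((C + 2) * (m + 1) ^ 7) = (C + 2) * (m + 1) ^ 8 := by ring
    have e3 : (m + 1) ^ 0 ≤ (m + 1) ^ 8 := hp (by omega)
    rw [pow_zero] at e3
    have e4 : (C + 3) * (m + 1) ^ 8 = (C + 2) * (m + 1) ^ 8 + (m + 1) ^ 8 := by ring
    omega
  have h3 : m * (K * m ^ 2 + 2) + m ≤ (K + 3) * (m + 1) ^ 3 := by
    have e1 : m * m ^ 2 ≤ (m + 1) ^ 3 := by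
      calc m * m ^ 2 = m ^ 3 := by ring
        _ ≤ (m + 1) ^ 3 := Nat.pow_le_pow_left hm 3
    have e2 : (m + 1) ^ 1 ≤ (m + 1) ^ 3 := hp (by omega)
    rw [pow_one] at e2
    have e3 : m * (K * m ^ 2 + 2) + m = K * (m * m ^ 2) + 3 * m := by ring
    have e4 : (K + 3) * (m + 1) ^ 3 = K * (m + 1) ^ 3 + 3 * (m + 1) ^ 3 := by ring
    have e5 : K * (m * m ^ 2) ≤ K * (m + 1) ^ 3 := Nat.mul_le_mul_left _ e1
    omega
  have h4 : ((m + 1) * (C * (m + 1) ^ 7 + 2 * m + 2) + 1) * (m * (K * m ^ 2 + 2) + m) + 2 * m + 1 ≤ ((C + 3) * (K + 3) + 2) * (m + 1) ^ 11 := by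
    have e1 : ((m + 1) * (C * (m + 1) ^ 7 + 2 * m + 2) + 1) * (m * (K * m ^ 2 + 2) + m) ≤ ((C + 3) * (m + 1) ^ 8) * ((K + 3) * (m + 1) ^ 3) :=
      Nat.mul_le_mul h2 h3
    have e2 : ((C + 3) * (m + 1) ^ 8) * ((K + 3) * (m + 1) ^ 3) = ((C + 3) * (K + 3)) * (m + 1) ^ 11 := by ring
    have e3 : (m + 1) ^ 1 ≤ (m + 1) ^ 11 := hp (by omega)
    rw [pow_one] at e3
    have e4 : ((C + 3) * (K + 3) + 2) * (m + 1) ^ 11 = ((C + 3) * (K + 3)) * (m + 1) ^ 11 + 2 * (m + 1) ^ 11 := by ring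
    omega
  calc _ ≤ (m + 1) * (((C + 3) * (K + 3) + 2) * (m + 1) ^ 11) := Nat.mul_le_mul_left _ h4
    _ = ((C + 3) * (K + 3) + 2) * (m + 1) ^ 12 := by ring

/-- Q1 LITERALLY, from the bound `C (m + 1) ^ 7` for the number of runs between irreducible two sided states and the bound for regular segments. -/
theorem Q12r {K C : ℕ} (hK : SegB K) (hT : TBn (fun m => C * (m + 1) ^ 7)) (X A : Type) [DecidableEq X] [DecidableEq A]
    (E v₁ v₂ : Eqn X A) (hq : Quadratic E) (h1 : Pool.Agent.helper36.WE.Reach E v₁) (h2 : Pool.Agent.helper36.WE.Reach v₁ v₂) :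
    ∃ n, n ≤ (((C + 3) * (K + 3) + 2) * 2 ^ 12) * size E ^ 12 ∧ PathLen n v₁ v₂ := by
  have hF : Monotone (fun m => C * (m + 1) ^ 7) := by
    intro a b h
    show C * (a + 1) ^ 7 ≤ C * (b + 1) ^ 7
    gcongr
  have hG := PHr _ hF hT
  have hGm : Monotone (fun m => (m + 1) * ((fun m => C * (m + 1) ^ 7) m + 2 * m + 2)) := by
    intro a b h
    show (a + 1) * (C * (a + 1) ^ 7 + 2 * a + 2) ≤ (b + 1) * (C * (b + 1) ^ 7 + 2 * b + 2)
    gcongr
  have hKm : Monotone (fun m => ((m + 1) * (C * (m + 1) ^ 7 + 2 * m + 2) + 1) * (m * (K * m ^ 2 + 2) + m) + 2 * m) := by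
    intro a b h
    show ((a + 1) * (C * (a + 1) ^ 7 + 2 * a + 2) + 1) * (a * (K * a ^ 2 + 2) + a) + 2 * a ≤
      ((b + 1) * (C * (b + 1) ^ 7 + 2 * b + 2) + 1) * (b * (K * b ^ 2 + 2) + b) + 2 * b
    gcongr
  have hsz : ∀ {E' : Eqn X A}, Pool.Agent.helper36.WE.Reach E E' → Quadratic E' ∧ size E' ≤ size E := by
    intro E' h
    induction h with
    | refl => exact ⟨hq, le_rfl⟩
    | tail _ hbc ih =>
      exact ⟨Pool.Agent.helper36.WE.quadratic_step ih.1 hbc, (size_le ih.1 hbc).trans ih.2⟩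
  obtain ⟨hq1, hs1⟩ := hsz h1
  rcases Nat.eq_zero_or_pos (size E) with h0 | h0
  · -- no steps
    have hno : ∀ {s t : Eqn X A}, size s = 0 → ¬ Pool.Agent.helper36.WE.Step s t := by
      intro s t hs hst
      unfold size at hs
      cases hst <;> simp at hs
    have hv : v₁ = v₂ := by
      rcases Relation.ReflTransGen.cases_head h2 with h | ⟨w, h, -⟩
      · exact h
      · exact absurd h (hno (by omega))
    subst hv
    exact ⟨0, Nat.zero_le _, fun _ => v₁, rfl, rfl, fun i hi => absurd hi (Nat.not_lt_zero i)⟩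
  · obtain ⟨n, hn, hp⟩ := FDrop _ hKm (fun X A _ _ E E' h1 h2 h3 => UBr hK hGm hG E E' h1 h2 h3) X A v₁ v₂ hq1 h2
    refine ⟨n, ?_, hp⟩
    have h3 := Q12r_num C K (size v₁)
    have h4 : (size v₁ + 1) ^ 12 ≤ (2 * size E) ^ 12 := Nat.pow_le_pow_left (by omega) 12
    calc n ≤ ((C + 3) * (K + 3) + 2) * (size v₁ + 1) ^ 12 := hn.trans h3
      _ ≤ ((C + 3) * (K + 3) + 2) * (2 * size E) ^ 12 := Nat.mul_le_mul_left _ h4
      _ = (((C + 3) * (K + 3) + 2) * 2 ^ 12) * size E ^ 12 := by rw [mul_pow, mul_assoc]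

end NTH
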