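import Pool.Agent.helper65.GP.UB

/-!
# MP_c8d30a: the number of token steps (exponent 12)

`TS p n s t`: a walk of exactly `n` token steps (of any cost).
-/

set_option autoImplicit false
set_option linter.unusedSectionVars false

namespace NTH

open Pool.Agent.helper36.WE (Eqn Quadratic size PathLen ins Walk DStep DStepL dbl occ Tok ins_cons ins_append ins_of_notMem
  ins_ins ins_nil length_ins count_ins psi_eq_ins lawfulBEq_sum mem_dbl levelstep size_swap occ_swap walk_swap quadratic_swap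
  quadratic_step size_le seg_bound exists_walk)

attribute [local instance] lawfulBEq_sum

/-- a walk of `n` token steps. -/
def TS {Ω : Type} (p : Ω → Ω) (n : ℕ) (s t : St Ω) : Prop := Walk (fun a b => ∃ c, Sp p c a b) n s t

/-- paths between irreducible two sided states (all states in `N`) can be shortened to `F m` token steps. -/
def TBn (F : ℕ → ℕ) : Prop := ∀ (Ω : Type) (p : Ω → Ω) (s t : St Ω) (a : ℕ), WF p s → Irr p s → Reach p a s t →
  ∃ n ≤ F (s.1 ++ s.2).length, TS p n s t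

/-- all token paths can be shortened to `G m` token steps. -/
def GBn (G : ℕ → ℕ) : Prop := ∀ (Ω : Type) (p : Ω → Ω) (s t : St Ω) (a : ℕ), WF p s → Pth p (fun _ => True) a s t →
  ∃ n ≤ G (s.1 ++ s.2).length, TS p n s t

section Gen

variable {α : Type*} {r : α → α → Prop}

theorem Walk.headR {n : ℕ} {a b : α} (h : Walk r (n + 1) a b) : ∃ c, r a c ∧ Walk r n c b := by
  obtain ⟨f, f0, fn, hf⟩ := h
  refine ⟨f 1, by rw [← f0]; exact hf 0 (by omega), fun i => f (i + 1), rfl, fn, fun i hi => hf (i + 1) (by omega)⟩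

theorem Walk.zeroR {a b : α} (h : Walk r 0 a b) : a = b := by
  obtain ⟨f, f0, fn, -⟩ := h
  rw [← f0, ← fn]

end Gen

section

variable {Ω : Type} {p : Ω → Ω}

theorem TS.refl (s : St Ω) : TS p 0 s s := Walk.refl _ _

theorem TS.trans {m n : ℕ} {s t v : St Ω} (h : TS p m s t) (h' : TS p n t v) : TS p (m + n) s v := Walk.append h h'

theorem TS.single {c : ℕ} {s t : St Ω} (h : Sp p c s t) : TS p 1 s t := Walk.single ⟨c, h⟩

theorem TS.head {c n : ℕ} {s t v : St Ω} (h : Sp p c s t) (h' : TS p n t v) : TS p (n + 1) s v := by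
  have := (TS.single h).trans h'
  rwa [Nat.add_comm] at this

theorem TS.ind {n : ℕ} {P : St Ω → Prop} (hP : ∀ {c : ℕ} {s t : St Ω}, P s → Sp p c s t → P t) : ∀ {s t : St Ω}, TS p n s t → P s → P t := by
  induction n with
  | zero =>
    intro s t h hs
    rw [← Walk.zeroR h]
    exact hs
  | succ n ih =>
    intro s t h hs
    obtain ⟨v, ⟨c, h1⟩, h2⟩ := Walk.headR h
    exact ih h2 (hP hs h1)

theorem TS.pth {n : ℕ} : ∀ {s t : St Ω}, TS p n s t → ∃ a, Pth p (fun _ => True) a s t := by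
  induction n with
  | zero =>
    intro s t h
    rw [← Walk.zeroR h]
    exact ⟨0, .refl _ trivial⟩
  | succ n ih =>
    intro s t h
    obtain ⟨v, ⟨c, h1⟩, h2⟩ := Walk.headR h
    obtain ⟨a, h3⟩ := ih h2
    exact ⟨c + a, .head trivial h1 h3⟩

theorem TS.perm {n : ℕ} {s t : St Ω} (h : TS p n s t) : (s.1 ++ s.2).Perm (t.1 ++ t.2) := by
  obtain ⟨a, h1⟩ := h.pth
  exact h1.permT

theorem TS.frame {n : ℕ} (U2 V2 : List Ω) : ∀ {s t : St Ω}, TS p n s t → TS p n (s.1 ++ U2, s.2 ++ V2) (t.1 ++ U2, t.2 ++ V2) := by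
  induction n with
  | zero =>
    intro s t h
    rw [← Walk.zeroR h]
    exact TS.refl _
  | succ n ih =>
    intro s t h
    obtain ⟨v, ⟨c, h1⟩, h2⟩ := Walk.headR h
    exact TS.head (PH_frame U2 V2 h1) (ih h2)

end

/-! ## Regular paths -/

section Reg

variable {Ω : Type} {p : Ω → Ω} {s0 : St Ω}

/-- the letter of a token is mixed in `s0`. -/
def Mx0 (p : Ω → Ω) (s0 : St Ω) (t : Ω) : Prop := (t ∈ s0.1 ∧ p t ∈ s0.2) ∨ (t ∈ s0.2 ∧ p t ∈ s0.1)

open Classical in
/-- names: mixed letters are variables, the other tokens are constants. -/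
noncomputable def nm (p : Ω → Ω) (s0 : St Ω) (t : Ω) : Ω ⊕ Ω :=
  if t ∈ s0.1 ∧ p t ∈ s0.2 then Sum.inl t else if t ∈ s0.2 ∧ p t ∈ s0.1 then Sum.inl (p t) else Sum.inr t

theorem nm_a {t : Ω} (h1 : t ∈ s0.1) (h2 : p t ∈ s0.2) : nm p s0 t = Sum.inl t := by
  unfold nm
  rw [if_pos ⟨h1, h2⟩]

theorem nm_b (hw : WF p s0) {t : Ω} (h1 : t ∈ s0.2) (h2 : p t ∈ s0.1) : nm p s0 t = Sum.inl (p t) := by
  unfold nm
  rw [if_neg, if_pos ⟨h1, h2⟩]
  rintro ⟨h3, -⟩
  exact (List.nodup_append.1 hw.nd).2.2 t h3 t h1 rfl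

theorem nm_c {t : Ω} (h : ¬ Mx0 p s0 t) : nm p s0 t = Sum.inr t := by
  unfold nm Mx0 at *
  rw [if_neg (by tauto), if_neg (by tauto)]

/-- equal names. -/
theorem nm_inl (hw : WF p s0) {x t : Ω} (h1 : x ∈ s0.1) (h2 : p x ∈ s0.2) : nm p s0 t = Sum.inl x ↔ t = x ∨ t = p x := by
  constructor
  · intro h
    by_cases ha : t ∈ s0.1 ∧ p t ∈ s0.2
    · rw [nm_a ha.1 ha.2] at h
      exact Or.inl (Sum.inl.inj h)
    · by_cases hb : t ∈ s0.2 ∧ p t ∈ s0.1
      · rw [nm_b hw hb.1 hb.2] at h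
        have := Sum.inl.inj h
        right
        rw [← this, hw.inv]
      · rw [nm_c (by unfold Mx0; tauto)] at h
        cases h
  · rintro (rfl | rfl)
    · exact nm_a h1 h2
    · rw [nm_b hw h2 (by rw [hw.inv]; exact h1), hw.inv]

theorem nm_injA (hw : WF p s0) {t t' : Ω} (h1 : t ∈ s0.1) (h2 : t' ∈ s0.1) (h : nm p s0 t = nm p s0 t') : t = t' := by
  have hdis := (List.nodup_append.1 hw.nd).2.2
  by_cases ha : p t ∈ s0.2
  · rw [nm_a h1 ha] at h
    rcases (nm_inl hw h1 ha).1 h.symm with h3 | h3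
    · exact h3.symm
    · rw [h3] at h2
      exact absurd rfl (hdis _ h2 _ ha)
  · have hc : ¬ Mx0 p s0 t := by
      rintro (h3 | h3)
      · exact ha h3.2
      · exact hdis _ h1 _ h3.1 rfl
    rw [nm_c hc] at h
    by_cases hb : p t' ∈ s0.2
    · rw [nm_a h2 hb] at h
      cases h
    · have hc' : ¬ Mx0 p s0 t' := by
        rintro (h3 | h3)
        · exact hb h3.2
        · exact hdis _ h2 _ h3.1 rfl
      rw [nm_c hc'] at h
      exact Sum.inr.inj h

theorem nm_injB (hw : WF p s0) {t t' : Ω} (h1 : t ∈ s0.2) (h2 : t' ∈ s0.2) (h : nm p s0 t = nm p s0 t') : t = t' := by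
  have hdis := (List.nodup_append.1 hw.nd).2.2
  by_cases ha : p t ∈ s0.1
  · rw [nm_b hw h1 ha] at h
    rcases (nm_inl hw ha (by rw [hw.inv]; exact h1)).1 h.symm with h3 | h3
    · rw [h3] at h2
      exact absurd rfl (hdis _ ha _ h2)
    · rw [hw.inv] at h3
      exact h3.symm
  · have hc : ¬ Mx0 p s0 t := by
      rintro (h3 | h3)
      · exact hdis _ h3.1 _ h1 rfl
      · exact ha h3.2
    rw [nm_c hc] at h
    by_cases hb : p t' ∈ s0.1
    · rw [nm_b hw h2 hb] at h
      cases h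
    · have hc' : ¬ Mx0 p s0 t' := by
        rintro (h3 | h3)
        · exact hdis _ h3.1 _ h2 rfl
        · exact hb h3.2
      rw [nm_c hc'] at h
      exact Sum.inr.inj h

/-- the equation of a state with the sides of `s0`. -/
noncomputable def ev (p : Ω → Ω) (s0 : St Ω) (s : St Ω) : Eqn Ω Ω := (s.1.map (nm p s0), s.2.map (nm p s0))

/-- the same sides. -/
def Sm (s0 s : St Ω) : Prop := (∀ t, t ∈ s.1 ↔ t ∈ s0.1) ∧ ∀ t, t ∈ s.2 ↔ t ∈ s0.2

theorem ev_inj (hw : WF p s0) {s t : St Ω} (hs : Sm s0 s) (ht : Sm s0 t) (h : ev p s0 s = ev p s0 t) : s = t := by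
  obtain ⟨e1, e2⟩ := Prod.mk.inj h
  have key : ∀ (Q : Ω → Prop), (∀ a b, Q a → Q b → nm p s0 a = nm p s0 b → a = b) → ∀ l l' : List Ω, (∀ a ∈ l, Q a) → (∀ a ∈ l', Q a) →
      l.map (nm p s0) = l'.map (nm p s0) → l = l' := by
    intro Q hQ l
    induction l with
    | nil =>
      intro l' _ _ h
      cases l' with
      | nil => rfl
      | cons b l' => simp at h
    | cons a l ih =>
      intro l' h1 h2 h
      cases l' with
      | nil => simp at h
      | cons b l' =>
        rw [List.map_cons, List.map_cons] at h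
        obtain ⟨h3, h4⟩ := List.cons.inj h
        rw [hQ a b (h1 a (by simp)) (h2 b (by simp)) h3, ih l' (fun c hc => h1 c (List.mem_cons_of_mem _ hc))
          (fun c hc => h2 c (List.mem_cons_of_mem _ hc)) h4]
  exact Prod.ext (key (fun a => a ∈ s0.1) (fun a b h1 h2 h3 => nm_injA hw h1 h2 h3) _ _ (fun a ha => (hs.1 a).1 ha) (fun a ha => (ht.1 a).1 ha) e1)
    (key (fun a => a ∈ s0.2) (fun a b h1 h2 h3 => nm_injB hw h1 h2 h3) _ _ (fun a ha => (hs.2 a).1 ha) (fun a ha => (ht.2 a).1 ha) e2)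

variable [DecidableEq Ω]

/-- one step, general sides: the letter of `x` is mixed. -/
theorem ev_fwd (hw : WF p s0) {D : Finset Ω} (hD : ∀ x, x ∈ D ↔ x ∈ s0.1 ∧ p x ∈ s0.2) {x y : Ω} {U A B : List Ω}
    (hm : Mx0 p s0 x) (hxU : x ∉ U) (hpU : p x ∉ U) (hxA : x ∉ A) (hpA : p x ∉ A) (hxB : x ∉ B) (hpB : p x ∉ B) (hyx : y ≠ x) (hyp : y ≠ p x) :
    DStepL D ((x :: U).map (nm p s0), (y :: (A ++ p x :: B)).map (nm p s0)) ((x :: U).map (nm p s0), (A ++ y :: p x :: B).map (nm p s0)) := by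
  -- the name of the letter
  obtain ⟨z, hz1, hz2, hz3⟩ : ∃ z, z ∈ D ∧ (∀ t, nm p s0 t = Sum.inl z ↔ t = x ∨ t = p x) ∧ nm p s0 x = Sum.inl z := by
    rcases hm with hm | hm
    · exact ⟨x, (hD x).2 hm, fun t => nm_inl hw hm.1 hm.2, nm_a hm.1 hm.2⟩
    · refine ⟨p x, (hD _).2 ⟨hm.2, by rw [hw.inv]; exact hm.1⟩, fun t => ?_, nm_b hw hm.1 hm.2⟩
      rw [nm_inl hw hm.2 (by rw [hw.inv]; exact hm.1), hw.inv]
      tauto
  have hno : ∀ l : List Ω, x ∉ l → p x ∉ l → Sum.inl z ∉ l.map (nm p s0) := by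
    intro l h1 h2 h3
    obtain ⟨t, ht, h4⟩ := List.mem_map.1 h3
    rcases (hz2 t).1 h4 with rfl | rfl
    · exact h1 ht
    · exact h2 ht
  have hpx : nm p s0 (p x) = Sum.inl z := (hz2 (p x)).2 (Or.inr rfl)
  refine ⟨z, hz1, nm p s0 y, U.map (nm p s0), (A ++ p x :: B).map (nm p s0), ?_, ?_, ?_⟩
  · intro h
    rcases (hz2 y).1 h with h1 | h1
    · exact hyx h1
    · exact hyp h1
  · rw [List.map_cons, List.map_cons, hz3]
  · rw [ins_of_notMem _ _ (hno U hxU hpU), List.map_cons, hz3]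
    simp only [List.map_append, List.map_cons, hpx]
    rw [ins_append, ins_of_notMem _ _ (hno A hxA hpA), ins_cons, if_pos rfl, ins_of_notMem _ _ (hno B hxB hpB)]
    simp

/-- the converse of one step. -/
theorem ev_bwd (hw : WF p s0) {D : Finset Ω} (hD : ∀ x, x ∈ D ↔ x ∈ s0.1 ∧ p x ∈ s0.2) {U V : List Ω} {E' : Eqn Ω Ω}
    (hwUV : WF p (U, V)) (hmix : ∀ t ∈ U, Mx0 p s0 t → p t ∈ V)
    (h : DStepL D (U.map (nm p s0), V.map (nm p s0)) E') :
    ∃ V' : List Ω, SL p 0 (U, V) (U, V') ∧ E' = (U.map (nm p s0), V'.map (nm p s0)) := by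
  obtain ⟨z, hz, y0, U0, V0, hne, hE, rfl⟩ := h
  obtain ⟨hz1, hz2⟩ := (hD z).1 hz
  obtain ⟨e1, e2⟩ := Prod.mk.inj hE
  rcases U with _ | ⟨x, U⟩
  · simp at e1
  rcases V with _ | ⟨y, V⟩
  · simp at e2
  rw [List.map_cons] at e1 e2
  obtain ⟨e3, rfl⟩ := List.cons.inj e1
  obtain ⟨rfl, rfl⟩ := List.cons.inj e2
  have hx : x = z ∨ x = p z := (nm_inl hw hz1 hz2).1 e3
  have hm : Mx0 p s0 x := by
    rcases hx with rfl | rfl
    · exact Or.inl ⟨hz1, hz2⟩
    · exact Or.inr ⟨hz2, by rw [hw.inv]; exact hz1⟩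
  have hzx : ∀ t, nm p s0 t = Sum.inl z ↔ t = x ∨ t = p x := by
    intro t
    rw [nm_inl hw hz1 hz2]
    rcases hx with rfl | rfl
    · rfl
    · rw [hw.inv]
      tauto
  have hyp : y ≠ p x := fun h => hne ((hzx y).2 (Or.inr h))
  have hpV : p x ∈ V := by
    rcases List.mem_cons.1 (hmix x (by simp) hm) with h1 | h1
    · exact absurd h1.symm hyp
    · exact h1
  obtain ⟨A, B, rfl⟩ := List.append_of_mem hpV
  refine ⟨A ++ y :: p x :: B, SL.reg x y U A B, ?_⟩
  have hnd := hwUV.nd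
  obtain ⟨hn1, hn2, hn3⟩ := List.nodup_append.1 hnd
  have hxU : x ∉ U := (List.nodup_cons.1 hn1).1
  have hpU : p x ∉ U := fun h => hn3 _ (List.mem_cons_of_mem _ h) (p x) (by simp) rfl
  have hn4 := (List.nodup_cons.1 hn2).2
  have hn5 := List.nodup_append.1 hn4
  have hpA : p x ∉ A := fun h => hn5.2.2 _ h _ List.mem_cons_self rfl
  have hpB : p x ∉ B := (List.nodup_cons.1 hn5.2.1).1
  have hxA : x ∉ A := fun h => hn3 x (by simp) x (by simp [h]) rfl
  have hxB : x ∉ B := fun h => hn3 x (by simp) x (by simp [h]) rfl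
  have hno : ∀ l : List Ω, x ∉ l → p x ∉ l → Sum.inl z ∉ l.map (nm p s0) := by
    intro l h1 h2 h3
    obtain ⟨t, ht, h4⟩ := List.mem_map.1 h3
    rcases (hzx t).1 h4 with rfl | rfl
    · exact h1 ht
    · exact h2 ht
  have hpx : nm p s0 (p x) = Sum.inl z := (hzx (p x)).2 (Or.inr rfl)
  rw [ins_of_notMem _ _ (hno U hxU hpU), List.map_cons, e3]
  simp only [List.map_append, List.map_cons, hpx]
  rw [ins_append, ins_of_notMem _ _ (hno A hxA hpA), ins_cons, if_pos rfl, ins_of_notMem _ _ (hno B hxB hpB)]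
  simp

theorem Sm.stepL {s t : St Ω} (h : SL p 0 s t) : (∀ z, z ∈ t.1 ↔ z ∈ s.1) ∧ ∀ z, z ∈ t.2 ↔ z ∈ s.2 := by
  cases h with
  | reg x y U A B =>
    refine ⟨fun z => Iff.rfl, fun z => ?_⟩
    simp only [List.mem_cons, List.mem_append]
    tauto

/-- forward. -/
theorem ev_step (hw : WF p s0) {D : Finset Ω} (hD : ∀ x, x ∈ D ↔ x ∈ s0.1 ∧ p x ∈ s0.2) {s t : St Ω} (hws : WF p s) (hs : Sm s0 s)
    (h : Sp p 0 s t) : DStep D (ev p s0 s) (ev p s0 t) ∧ Sm s0 t := by
  have key : ∀ {s t : St Ω}, WF p s → (∀ x, x ∈ s.1 → p x ∈ s.2 → Mx0 p s0 x) → SL p 0 s t →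
      DStepL D (s.1.map (nm p s0), s.2.map (nm p s0)) (t.1.map (nm p s0), t.2.map (nm p s0)) := by
    intro s t hws hm h
    cases h with
    | reg x y U A B =>
      have hnd := hws.nd
      obtain ⟨hn1, hn2, hn3⟩ := List.nodup_append.1 hnd
      have hn4 := (List.nodup_cons.1 hn2).2
      have hn5 := List.nodup_append.1 hn4
      exact ev_fwd hw hD (hm x (by simp) (by simp)) (List.nodup_cons.1 hn1).1
        (fun h => hn3 _ (List.mem_cons_of_mem _ h) (p x) (by simp) rfl)
        (fun h => hn3 x (by simp) x (by simp [h]) rfl) (fun h => hn5.2.2 _ h _ List.mem_cons_self rfl)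
        (fun h => hn3 x (by simp) x (by simp [h]) rfl) (List.nodup_cons.1 hn5.2.1).1
        (fun h => hn3 x (by simp) y (by simp) h.symm) (fun h => (List.nodup_cons.1 hn2).1 (by rw [h]; simp))
  rcases h with h | h
  · refine ⟨Or.inl (key hws (fun x h1 h2 => Or.inl ⟨(hs.1 x).1 h1, (hs.2 _).1 h2⟩) h), ?_⟩
    obtain ⟨h1, h2⟩ := Sm.stepL h
    exact ⟨fun z => (h1 z).trans (hs.1 z), fun z => (h2 z).trans (hs.2 z)⟩
  · refine ⟨Or.inr (key hws.mir (fun x h1 h2 => Or.inr ⟨(hs.2 x).1 h1, (hs.1 _).1 h2⟩) h), ?_⟩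
    obtain ⟨h1, h2⟩ := Sm.stepL h
    exact ⟨fun z => (h2 z).trans (hs.1 z), fun z => (h1 z).trans (hs.2 z)⟩

theorem ev_path (hw : WF p s0) {D : Finset Ω} (hD : ∀ x, x ∈ D ↔ x ∈ s0.1 ∧ p x ∈ s0.2) {a : ℕ} {s t : St Ω}
    (h : Pth p (fun _ => True) a s t) : a = 0 → WF p s → Sm s0 s → Relation.ReflTransGen (DStep D) (ev p s0 s) (ev p s0 t) ∧ Sm s0 t := by
  induction h with
  | refl s _ => intro _ _ hs; exact ⟨Relation.ReflTransGen.refl, hs⟩
  | @head a c s t v _ h _ ih =>
    intro ha hws hs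
    obtain rfl : c = 0 := by omega
    obtain ⟨h1, h2⟩ := ev_step hw hD hws hs h
    obtain ⟨h3, h4⟩ := ih (by omega) (hws.of_perm h.perm) h2
    exact ⟨h3.head h1, h4⟩

theorem ev_counts (hw : WF p s0) {D : Finset Ω} (hD : ∀ x, x ∈ D ↔ x ∈ s0.1 ∧ p x ∈ s0.2) {s : St Ω} (hws : WF p s) (hs : Sm s0 s) :
    (∀ z, (ev p s0 s).1.count (Sum.inl z) ≤ 1 ∧ (ev p s0 s).2.count (Sum.inl z) ≤ 1) ∧
    (∀ z ∈ D, (ev p s0 s).1.count (Sum.inl z) = 1 ∧ (ev p s0 s).2.count (Sum.inl z) = 1) ∧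
    Quadratic (ev p s0 s) ∧ ∀ z, z ∈ D ↔ occ (ev p s0 s) z = 2 := by
  obtain ⟨hn1, hn2, hn3⟩ := List.nodup_append.1 hws.nd
  have d1 : (s.1.map (nm p s0)).Nodup :=
    List.Nodup.map_on (fun a ha b hb h => nm_injA hw ((hs.1 a).1 ha) ((hs.1 b).1 hb) h) hn1
  have d2 : (s.2.map (nm p s0)).Nodup :=
    List.Nodup.map_on (fun a ha b hb h => nm_injB hw ((hs.2 a).1 ha) ((hs.2 b).1 hb) h) hn2
  have c1 : ∀ z, (s.1.map (nm p s0)).count (Sum.inl z) ≤ 1 := fun z => List.nodup_iff_count_le_one.1 d1 _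
  have c2 : ∀ z, (s.2.map (nm p s0)).count (Sum.inl z) ≤ 1 := fun z => List.nodup_iff_count_le_one.1 d2 _
  have c3 : ∀ z ∈ D, (s.1.map (nm p s0)).count (Sum.inl z) = 1 ∧ (s.2.map (nm p s0)).count (Sum.inl z) = 1 := by
    intro z hz
    obtain ⟨h1, h2⟩ := (hD z).1 hz
    constructor
    · have h3 : Sum.inl z ∈ s.1.map (nm p s0) := List.mem_map.2 ⟨z, (hs.1 z).2 h1, nm_a h1 h2⟩
      have := List.count_pos_iff.2 h3
      have := c1 z
      omega
    · have h3 : Sum.inl z ∈ s.2.map (nm p s0) := List.mem_map.2 ⟨p z, (hs.2 _).2 h2, (nm_inl hw h1 h2).2 (Or.inr rfl)⟩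
      have := List.count_pos_iff.2 h3
      have := c2 z
      omega
  refine ⟨fun z => ⟨c1 z, c2 z⟩, c3, fun z => Nat.add_le_add (c1 z) (c2 z), fun z => ⟨fun hz => ?_, fun hz => ?_⟩⟩
  · obtain ⟨h1, h2⟩ := c3 z hz
    unfold occ ev
    simp only
    rw [h1, h2]
  · unfold occ ev at hz
    simp only at hz
    have h1 := c1 z
    have h2 := c2 z
    have h3 : 0 < (s.1.map (nm p s0)).count (Sum.inl z) := by omega
    obtain ⟨t, ht, h4⟩ := List.mem_map.1 (List.count_pos_iff.1 h3)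
    have ht0 := (hs.1 t).1 ht
    by_cases ha : p t ∈ s0.2
    · rw [nm_a ht0 ha] at h4
      have := Sum.inl.inj h4
      subst this
      exact (hD _).2 ⟨ht0, ha⟩
    · exfalso
      have hc : ¬ Mx0 p s0 t := by
        rintro (h3 | h3)
        · exact ha h3.2
        · exact (List.nodup_append.1 hw.nd).2.2 _ ht0 _ h3.1 rfl
      rw [nm_c hc] at h4
      cases h4

/-- backward. -/
theorem ev_walk (hw : WF p s0) {D : Finset Ω} (hD : ∀ x, x ∈ D ↔ x ∈ s0.1 ∧ p x ∈ s0.2) {n : ℕ} : ∀ {s : St Ω} {E' : Eqn Ω Ω}, WF p s → Sm s0 s →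
    Walk Pool.Agent.helper36.WE.Step n (ev p s0 s) E' → size E' = size (ev p s0 s) → ∃ t, TS p n s t ∧ Sm s0 t ∧ E' = ev p s0 t := by
  induction n with
  | zero =>
    intro s E' _ hs h _
    exact ⟨s, TS.refl _, hs, (Walk.zeroR h).symm⟩
  | succ n ih =>
    intro s E' hws hs h hsz
    obtain ⟨E1, h1, h2⟩ := Walk.headR h
    obtain ⟨-, -, hq, hD2⟩ := ev_counts hw hD hws hs
    have hq1 := quadratic_step hq h1
    have e1 := size_le hq h1
    have e2 := (UB_lvs (UB_walk_rtg h2) hq1).1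
    obtain ⟨h3, -, -⟩ := UB_lv hq hD2 (E' := E1) ⟨h1, by omega⟩
    have key : ∃ t : St Ω, Sp p 0 s t ∧ E1 = ev p s0 t := by
      rcases h3 with h3 | h3
      · obtain ⟨V', h4, h5⟩ := ev_bwd hw hD (U := s.1) (V := s.2) hws (by
          intro t ht hm
          rcases hm with hm | hm
          · exact (hs.2 _).2 hm.2
          · exact absurd rfl ((List.nodup_append.1 hw.nd).2.2 _ ((hs.1 t).1 ht) _ hm.1)) h3
        exact ⟨(s.1, V'), Or.inl h4, h5⟩
      · obtain ⟨V', h4, h5⟩ := ev_bwd hw hD (U := s.2) (V := s.1) hws.mir (by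
          intro t ht hm
          rcases hm with hm | hm
          · exact absurd rfl ((List.nodup_append.1 hw.nd).2.2 _ hm.1 _ ((hs.2 t).1 ht))
          · exact (hs.1 _).2 hm.2) h3
        refine ⟨(V', s.2), Or.inr h4, ?_⟩
        have := congrArg Prod.swap h5
        simpa [ev] using this
    obtain ⟨t, h4, rfl⟩ := key
    have h5 := (ev_step hw hD hws hs h4).2
    obtain ⟨v, h6, h7, h8⟩ := ih (hws.of_perm h4.perm) h5 h2 (by omega)
    exact ⟨v, TS.head h4 h6, h7, h8⟩

end Reg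

/-- the bound for regular paths. -/
def RB (m : ℕ) : ℕ := m * (55 * m ^ 4 + 2)

theorem REG {Ω : Type} {p : Ω → Ω} {s t : St Ω} (hw : WF p s) (h : Pth p (fun _ => True) 0 s t) :
    ∃ n ≤ RB (s.1 ++ s.2).length, TS p n s t := by
  classical
  obtain ⟨D, hDd⟩ : ∃ D : Finset Ω, D = (s.1.filter (fun t => decide (p t ∈ s.2))).toFinset := ⟨_, rfl⟩
  have hD : ∀ x, x ∈ D ↔ x ∈ s.1 ∧ p x ∈ s.2 := by
    intro x
    rw [hDd, List.mem_toFinset, List.mem_filter]
    simp
  have hs : Sm s s := ⟨fun _ => Iff.rfl, fun _ => Iff.rfl⟩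
  obtain ⟨h1, h2⟩ := ev_path hw hD h rfl hw hs
  obtain ⟨-, c2, hq, hD2⟩ := ev_counts hw hD hw hs
  obtain ⟨n, hn, h3⟩ := seg_bound c2 h1
  have hwt : WF p t := hw.of_perm h.permT
  have hsz : ∀ v : St Ω, size (ev p s v) = (v.1 ++ v.2).length := by
    intro v
    unfold size ev
    rw [List.length_map, List.length_map, List.length_append]
  obtain ⟨v, h4, h5, h6⟩ := ev_walk hw hD hw hs h3 (by rw [hsz, hsz]; exact h.permT.length_eq.symm)
  have h7 := ev_inj hw h2 h5 h6
  rw [h7]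
  refine ⟨n, ?_, h4⟩
  have hcard : D.card ≤ (s.1 ++ s.2).length := by
    rw [hDd]
    refine (List.toFinset_card_le _).trans ((List.length_filter_le _ _).trans ?_)
    rw [List.length_append]
    omega
  rw [hsz] at hn
  unfold RB
  refine hn.trans ?_
  gcongr

/-- a path of cost `a`. -/
theorem REGa {Ω : Type} {p : Ω → Ω} (a : ℕ) : ∀ {s t : St Ω}, WF p s → Pth p (fun _ => True) a s t →
    ∃ n ≤ (a + 1) * RB (s.1 ++ s.2).length + a, TS p n s t := by
  induction a with
  | zero =>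
    intro s t hw h
    obtain ⟨n, hn, h1⟩ := REG hw h
    exact ⟨n, by omega, h1⟩
  | succ a ih =>
    intro s t hw h
    rcases UB_split h with h0 | ⟨s1, s2, b, hb, h1, h2, h3⟩
    · omega
    · obtain rfl : b = a := by omega
      have hp1 := h1.permT
      have hw1 := hw.of_perm hp1
      have hw2 := hw1.of_perm h2.perm
      obtain ⟨n1, hn1, w1⟩ := REG hw h1
      obtain ⟨n2, hn2, w2⟩ := ih hw2 h3
      have e : (s2.1 ++ s2.2).length = (s.1 ++ s.2).length := by
        rw [← h2.perm.length_eq, ← hp1.length_eq]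
      rw [e] at hn2
      refine ⟨n1 + (1 + n2), ?_, w1.trans ((TS.single h2).trans w2)⟩
      have : (b + 1 + 1) * RB (s.1 ++ s.2).length + (b + 1) = RB (s.1 ++ s.2).length + 1 + ((b + 1) * RB (s.1 ++ s.2).length + b) := by ring
      omega

/-! ## Phases -/

/-- the bound of one phase. -/
def PHB (F : ℕ → ℕ) (m : ℕ) : ℕ := F m + 1 + ((m + 1) * RB m + m)

theorem PHn_act {F : ℕ → ℕ} (hTB : TBn F) {Ω : Type} {p : Ω → Ω} {a : ℕ} {s t : St Ω} (hw : WF p s) (hi : Irr p s)
    (h : Pth p (fun _ => True) a s t) : ∃ n ≤ PHB F (s.1 ++ s.2).length, TS p n s t := by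
  have hTr : ∀ {c : ℕ} {w : St Ω}, Pth p (N p) c s w → ∃ n ≤ F (s.1 ++ s.2).length, TS p n s w := by
    intro c w h1
    exact hTB Ω p s w c hw hi h1.toReach
  unfold PHB
  rcases Pth.first (B := fun x => ¬ N p x) h with h1 | ⟨v, b, hv, h2, -, h3⟩
  · obtain ⟨n, h4, h5⟩ := hTr (h1.mono (Q' := N p) (fun x hx => not_not.1 hx.2))
    exact ⟨n, by omega, h5⟩
  · rcases h3 with rfl | ⟨w, c, d, h4, h5⟩
    · have h6 := PH_notN hw h2 hv
      obtain ⟨n, h7, h8⟩ := REGa b hw h2
      refine ⟨n, ?_, h8⟩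
      have : (b + 1) * RB (v.1 ++ v.2).length ≤ ((v.1 ++ v.2).length + 1) * RB (v.1 ++ v.2).length := Nat.mul_le_mul_right _ (by omega)
      omega
    · obtain ⟨n1, h6, h7⟩ := hTr (h4.mono (Q' := N p) (fun x hx => not_not.1 hx.2))
      have hperm : (s.1 ++ s.2).Perm (v.1 ++ v.2) := h7.perm.trans h5.perm
      have hwv := hw.of_perm hperm
      have h9 := PH_notN hwv h2 hv
      obtain ⟨n2, h10, h11⟩ := REGa b hwv h2
      rw [← hperm.length_eq] at h9 h10
      refine ⟨n1 + (1 + n2), ?_, h7.trans ((TS.single h5).trans h11)⟩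
      have : (b + 1) * RB (s.1 ++ s.2).length ≤ ((s.1 ++ s.2).length + 1) * RB (s.1 ++ s.2).length := Nat.mul_le_mul_right _ (by omega)
      omega

theorem PHB_mono {F : ℕ → ℕ} (hF : Monotone F) : Monotone (PHB F) := by
  intro a b h
  have := hF h
  unfold PHB RB
  gcongr

/-- all phases. -/
theorem PHn_main {F : ℕ → ℕ} (hF : Monotone F) (hTB : TBn F) {Ω : Type} {p : Ω → Ω} (m : ℕ) (n : ℕ) : ∀ (a : ℕ) (t : St Ω) (U1 U2 V1 V2 : List Ω),
    U2.length + V2.length ≤ n → ((U1 ++ U2) ++ (V1 ++ V2)).length = m → U1 ≠ [] → V1 ≠ [] → WF p (U1 ++ U2, V1 ++ V2) →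
    (∀ z ∈ U2 ++ V2, p z ∈ U2 ++ V2) → Irr p (U1, V1) → Pth p (fun _ => True) a (U1 ++ U2, V1 ++ V2) t →
    ∃ k ≤ (n + 1) * PHB F m, TS p k (U1 ++ U2, V1 ++ V2) t := by
  induction n with
  | zero =>
    intro a t U1 U2 V1 V2 hn hm h1 h2 hw hc hi h
    have hU2 : U2 = [] := List.length_eq_zero_iff.1 (by omega)
    have hV2 : V2 = [] := List.length_eq_zero_iff.1 (by omega)
    subst hU2 hV2
    simp only [List.append_nil] at *
    obtain ⟨k, h3, h4⟩ := PHn_act hTB hw hi h
    simp only at h3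
    rw [hm] at h3
    exact ⟨k, by omega, h4⟩
  | succ n ih =>
    intro a t U1 U2 V1 V2 hn hm h1 h2 hw hc hi h
    have hwa : WF p (U1, V1) := PH_wf hw hc
    obtain ⟨a1, U1', V1', h3, h4⟩ := PH_follow h U1 U2 V1 V2 rfl h1 h2 hw hc hi
    obtain ⟨b, hb, h5⟩ := PHn_act hTB hwa hi h3
    have hm1 : (U1 ++ V1).length ≤ m := by
      rw [← hm]
      simp only [List.length_append]
      omega
    have hFm : PHB F (U1 ++ V1).length ≤ PHB F m := PHB_mono hF hm1
    simp only at hb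
    have h6 := TS.frame U2 V2 h5
    simp only at h6
    have hb' : b ≤ PHB F m := hb.trans hFm
    rcases h4 with rfl | ⟨hex, a2, h7⟩
    · refine ⟨b, ?_, h6⟩
      calc b ≤ 1 * PHB F m := by omega
        _ ≤ (n + 1 + 1) * PHB F m := Nat.mul_le_mul_right _ (by omega)
    · have hperm : ((U1 ++ U2) ++ (V1 ++ V2)).Perm ((U1' ++ U2) ++ (V1' ++ V2)) := h6.perm
      have hw' : WF p (U1' ++ U2, V1' ++ V2) := hw.of_perm hperm
      have hm' : ((U1' ++ U2) ++ (V1' ++ V2)).length = m := by rw [← hperm.length_eq]; exact hm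
      by_cases he : U1' ++ U2 = [] ∨ V1' ++ V2 = []
      · have := PH_empty h7 he
        subst this
        refine ⟨b, ?_, h6⟩
        calc b ≤ 1 * PHB F m := by omega
          _ ≤ (n + 1 + 1) * PHB F m := Nat.mul_le_mul_right _ (by omega)
      · push Not at he
        obtain ⟨he1, he2⟩ := he
        have hlen : (U1' ++ V1').length + (U2.length + V2.length) = m := by
          rw [← hm']
          simp only [List.length_append]
          omega
        obtain ⟨Ua, Ub, Va, Vb, e1, e2, hUa, hVa, hcb, hia⟩ := PH_max (p := p) _ (U1' ++ U2) [] (V1' ++ V2) [] le_rfl he1 he2 (by simp)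
        simp only [List.append_nil] at e1 e2
        have hlt : Ub.length + Vb.length < U2.length + V2.length := by
          rcases hex with hex | hex
          · obtain ⟨hx1, hx2⟩ := hex
            subst hx1
            simp only [List.nil_append] at *
            exact PH_short hw' hc hx2 e1 e2 hUa hVa hcb
          · obtain ⟨hx1, hx2⟩ := hex
            subst hx1
            simp only [List.nil_append] at *
            have := PH_short (U' := V1') (U2 := V2) (V2 := U2) (Ua := Va) (Ub := Vb) (Va := Ua) (Vb := Ub) hw'.mir (by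
              intro z hz
              have h8 : z ∈ U2 ++ V2 := by
                simp only [List.mem_append] at hz ⊢
                tauto
              have := hc z h8
              simp only [List.mem_append] at this ⊢
              tauto) hx2 e2 e1 hVa hUa (by
              intro z hz
              have h8 : z ∈ Ub ++ Vb := by
                simp only [List.mem_append] at hz ⊢
                tauto
              have := hcb z h8
              simp only [List.mem_append] at this ⊢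
              tauto)
            omega
        rw [e1, e2] at h7 hw' hm' h6
        obtain ⟨b2, hb2, h8⟩ := ih a2 t Ua Ub Va Vb (by omega) hm' hUa hVa hw' hcb hia h7
        refine ⟨b + b2, ?_, h6.trans h8⟩
        have : (n + 1 + 1) * PHB F m = (n + 1) * PHB F m + PHB F m := by ring
        omega

theorem PHn {F : ℕ → ℕ} (hF : Monotone F) (hTB : TBn F) : GBn (fun m => (m + 1) * PHB F m) := by
  intro Ω p s t a hw h
  obtain ⟨U, V⟩ := s
  by_cases he : U = [] ∨ V = []
  · have := PH_empty h he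
    subst this
    exact ⟨0, Nat.zero_le _, TS.refl _⟩
  · push Not at he
    obtain ⟨Ua, Ub, Va, Vb, e1, e2, hUa, hVa, hcb, hia⟩ := PH_max (p := p) _ U [] V [] le_rfl he.1 he.2 (by simp)
    simp only [List.append_nil] at e1 e2
    subst e1 e2
    simp only
    have hlt : Ub.length + Vb.length ≤ ((Ua ++ Ub) ++ (Va ++ Vb)).length := by
      simp only [List.length_append]
      omega
    exact PHn_main hF hTB _ _ a t Ua Ub Va Vb hlt rfl hUa hVa hw hcb hia h


/-! ## Equations of a fixed length -/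

section

variable {X A : Type} [DecidableEq X] [DecidableEq A]
variable {Ω : Type} {D : Finset X} {p : Ω → Ω} {hd : Ω → X} {tl : Ω → List (X ⊕ A)}

theorem UBn_path (hC : Cod D p hd tl) (sz : ℕ) (n : ℕ) : ∀ (s t : St Ω), WF p s → size (decs hd tl s) = sz → TS p n s t →
    ∃ k ≤ n * sz, Walk Pool.Agent.helper36.WE.Step k (decs hd tl s) (decs hd tl t) := by
  induction n with
  | zero =>
    intro s t _ _ h
    rw [← Walk.zeroR h]
    exact ⟨0, Nat.zero_le _, Walk.refl _ _⟩
  | succ n ih =>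
    intro s t hw hsz h
    obtain ⟨v, ⟨c, h1⟩, h2⟩ := Walk.headR h
    obtain ⟨k1, hk1, w1⟩ := UB_stepSp (tl := tl) hC hw h1
    obtain ⟨k2, hk2, w2⟩ := ih v t (hw.of_perm h1.perm) (by rw [← UB_size_perm h1.perm]; exact hsz) h2
    rw [hsz] at hk1
    refine ⟨k1 + k2, ?_, w1.append w2⟩
    have : (n + 1) * sz = n * sz + sz := by ring
    omega

/-- the bound for a full equation. -/
theorem UBn_fullcase {G : ℕ → ℕ} (hG : Monotone G) (hGB : GBn G) (hC : Cod D p hd tl) {s : St Ω} {E E' : Eqn X A} (hw : WF p s)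
    (hE : E = decs hd tl s) (hq : Quadratic E) (hD : ∀ z, z ∈ D ↔ occ E z = 2) (h : Relation.ReflTransGen Lv E E') :
    ∃ n ≤ G (size E) * size E + size E, Walk Pool.Agent.helper36.WE.Step n E E' := by
  obtain ⟨⟨a, t, h1, h2⟩, -, -⟩ := UB_convPath hC hw hE hq hD h
  obtain ⟨n', hn', h3⟩ := hGB Ω p s t a hw h1
  have hsz : size (decs hd tl s) = size E := by rw [hE]
  have hm : (s.1 ++ s.2).length ≤ size E := by
    rw [← hsz]
    exact UB_size s
  have hn2 : n' ≤ G (size E) := hn'.trans (hG hm)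
  obtain ⟨n, hn, h4⟩ := UBn_path (tl := tl) hC (size E) n' s t hw hsz h3
  have hwt : WF p t := hw.of_perm h1.permT
  have hszt : size (decs hd tl t) = size E := by rw [← UB_size_perm h1.permT]; exact hsz
  have h5 : ∃ k ≤ size E, Walk Pool.Agent.helper36.WE.Step k (decs hd tl t) E' := by
    rcases h2 with h2 | h2 | h2
    · exact ⟨0, Nat.zero_le _, h2 ▸ Walk.refl _ _⟩
    · obtain ⟨k, hk, h6⟩ := h2.walk hC hwt
      exact ⟨k, hszt ▸ hk, h6⟩
    · obtain ⟨k, hk, h6⟩ := h2.walk hC hwt.mir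
      rw [decs_mir, size_swap, hszt] at hk
      refine ⟨k, hk, ?_⟩
      have := walk_swap h6
      simpa [decs_mir] using this
  obtain ⟨k, hk, h6⟩ := h5
  refine ⟨n + k, ?_, ?_⟩
  · have : n' * size E ≤ G (size E) * size E := Nat.mul_le_mul_right _ hn2
    omega
  · rw [hE]
    exact h4.append h6

end

section

variable {X A : Type} [DecidableEq X] [DecidableEq A]

/-- the bound if the first word begins with a letter of `D` and the second one does not. -/
theorem UBn_nonfull {G : ℕ → ℕ} (hG : Monotone G) (hGB : GBn G) {D : Finset X} {x : X} (hx : x ∈ D) {U V : List (X ⊕ A)} {w : List (X ⊕ A)}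
    (hw : ∀ s ∈ w, Tok D s) (hw0 : w ≠ []) (hV : Ful D V) {E E' : Eqn X A} (hE : E = (Sum.inl x :: U, w ++ V)) (hq : Quadratic E)
    (hD : ∀ z, z ∈ D ↔ occ E z = 2) (h : Relation.ReflTransGen Lv E E') :
    ∃ n ≤ G (size E) * size E + size E + size E, Walk Pool.Agent.helper36.WE.Step n E E' := by
  have hwl : w.length ≤ size E := by
    rw [hE]
    unfold size
    simp only [List.length_append, List.length_cons]
    omega
  have hnw : Sum.inl x ∉ w := fun h => hw _ h x hx rfl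
  -- states of the run
  have hpre : ∀ w1 w2, w1 ++ w2 = w → ∃ n ≤ size E, Walk Pool.Agent.helper36.WE.Step n E (PreR x U V w1 w2) := by
    intro w1 w2 he
    refine ⟨w1.length, ?_, ?_⟩
    · refine le_trans ?_ hwl
      rw [← he, List.length_append]
      omega
    · rw [hE, ← he]
      exact UB_preWalk hx (fun s hs => hw s (by rw [← he]; exact List.mem_append_left _ hs))
        (fun s hs => hw s (by rw [← he]; exact List.mem_append_right _ hs))
  by_cases hcyc : PreR x U V w [] = E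
  · -- a cycle
    have hall : ∃ w1 w2, w1 ++ w2 = w ∧ E' = PreR x U V w1 w2 := by
      induction h with
      | refl => exact ⟨[], w, rfl, by rw [hE]; unfold PreR; rw [Pool.Agent.helper36.WE.ins_empty, Pool.Agent.helper36.WE.ins_empty]⟩
      | @tail b c hab hbc ih =>
        obtain ⟨w1, w2, he, hb⟩ := ih
        obtain ⟨h1, h2, h3⟩ := UB_invs hq hD hab
        obtain ⟨h5, -, -⟩ := UB_lv h1 h2 hbc
        obtain ⟨w1', z, w2', he', hb'⟩ : ∃ (w1' : List (X ⊕ A)) (z : X ⊕ A) (w2' : List (X ⊕ A)), w1' ++ z :: w2' = w ∧ b = PreR x U V w1' (z :: w2') := by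
          rcases w2 with _ | ⟨z, w2⟩
          · obtain ⟨z, w', rfl⟩ := List.exists_cons_of_ne_nil hw0
            refine ⟨[], z, w', rfl, ?_⟩
            rw [List.append_nil] at he
            rw [hb, he, hcyc, hE]
            unfold PreR
            rw [Pool.Agent.helper36.WE.ins_empty, Pool.Agent.helper36.WE.ins_empty]
          · exact ⟨w1, z, w2, he, hb⟩
        rw [hb'] at h5
        have h6 := UB_preStep hx (fun s hs => hw s (by rw [← he']; exact List.mem_append_left _ hs))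
          (hw z (by rw [← he']; simp)) (fun s hs => hw s (by rw [← he']; exact List.mem_append_right _ (List.mem_cons_of_mem _ hs))) h5
        exact ⟨w1' ++ [z], w2', by rw [← he']; simp, h6⟩
    obtain ⟨w1, w2, he, rfl⟩ := hall
    obtain ⟨n, hn, hwk⟩ := hpre w1 w2 he
    exact ⟨n, by omega, hwk⟩
  · have hall : (∃ w1 w2, w1 ++ w2 = w ∧ E' = PreR x U V w1 w2) ∨
        (Relation.ReflTransGen Lv E (PreR x U V w []) ∧ Relation.ReflTransGen Lv (PreR x U V w []) E') := by
      induction h with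
      | refl => exact Or.inl ⟨[], w, rfl, by rw [hE]; unfold PreR; rw [Pool.Agent.helper36.WE.ins_empty, Pool.Agent.helper36.WE.ins_empty]⟩
      | @tail b c hab hbc ih =>
        rcases ih with ⟨w1, w2, he, hb⟩ | ⟨h1, h2⟩
        · rcases w2 with _ | ⟨z, w2⟩
          · rw [List.append_nil] at he
            subst he
            exact Or.inr ⟨hb ▸ hab, hb ▸ Relation.ReflTransGen.single hbc⟩
          · obtain ⟨h1, h2, h3⟩ := UB_invs hq hD hab
            obtain ⟨h5, -, -⟩ := UB_lv h1 h2 hbc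
            rw [hb] at h5
            have h6 := UB_preStep hx (fun s hs => hw s (by rw [← he]; exact List.mem_append_left _ hs))
              (hw z (by rw [← he]; simp)) (fun s hs => hw s (by rw [← he]; exact List.mem_append_right _ (List.mem_cons_of_mem _ hs))) h5
            exact Or.inl ⟨w1 ++ [z], w2, by rw [← he]; simp, h6⟩
        · exact Or.inr ⟨h1, h2.tail hbc⟩
    rcases hall with ⟨w1, w2, he, rfl⟩ | ⟨h1, h2⟩
    · obtain ⟨n, hn, hwk⟩ := hpre w1 w2 he
      exact ⟨n, by omega, hwk⟩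
    · obtain ⟨q1, q2, q3⟩ := UB_invs hq hD h1
      have hf1 : Ful D (PreR x U V w []).1 := Or.inr ⟨x, hx, _, rfl⟩
      have hf2 : Ful D (PreR x U V w []).2 := by
        unfold PreR
        simp only [List.nil_append]
        rcases hV with rfl | ⟨z, hz, V2, rfl⟩
        · exact Or.inl rfl
        · by_cases hzx : z = x
          · exfalso
            apply hcyc
            subst hzx
            have h4 := (hD z).1 hz
            rw [hE] at h4
            unfold occ at h4
            simp only [List.count_cons_self, List.count_append] at h4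
            have h5 : U.count (Sum.inl z) = 0 := by omega
            have h6 : V2.count (Sum.inl z) = 0 := by omega
            rw [hE]
            unfold PreR
            rw [ins_of_notMem w z (List.count_eq_zero.1 h5), ins_cons, if_pos rfl, ins_of_notMem w z (List.count_eq_zero.1 h6)]
            simp
          · refine Or.inr ⟨z, hz, ins w x V2, ?_⟩
            rw [ins_cons, if_neg (by simpa using hzx)]
            rfl
      obtain ⟨Ω, p, hd, tl, s, c1, c2, c3⟩ := UB_enc D _ q2 hf1 hf2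
      obtain ⟨n, hn, hwk⟩ := UBn_fullcase hG hGB c1 c2 c3 q1 q2 h2
      rw [q3] at hn
      obtain ⟨k, hk, hwk2⟩ := hpre w [] (by simp)
      refine ⟨k + n, by omega, hwk2.append hwk⟩

/-- the bound if the second word is not full. -/
theorem UBn_right {G : ℕ → ℕ} (hG : Monotone G) (hGB : GBn G) {D : Finset X} {V : List (X ⊕ A)} {w : List (X ⊕ A)}
    (hw : ∀ s ∈ w, Tok D s) (hw0 : w ≠ []) (hV : Ful D V) {E E' : Eqn X A} (hE : E.2 = w ++ V) (hq : Quadratic E)
    (hD : ∀ z, z ∈ D ↔ occ E z = 2) (h : Relation.ReflTransGen Lv E E') :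
    ∃ n ≤ G (size E) * size E + size E + size E, Walk Pool.Agent.helper36.WE.Step n E E' := by
  by_cases hx : ∃ x ∈ D, ∃ U, E.1 = Sum.inl x :: U
  · obtain ⟨x, hx, U, hU⟩ := hx
    exact UBn_nonfull hG hGB hx hw hw0 hV (Prod.ext hU hE) hq hD h
  · rcases Relation.ReflTransGen.cases_head h with rfl | ⟨c, h1, -⟩
    · exact ⟨0, Nat.zero_le _, Walk.refl _ _⟩
    · exfalso
      obtain ⟨h5, -, -⟩ := UB_lv hq hD h1
      obtain ⟨z, w', rfl⟩ := List.exists_cons_of_ne_nil hw0
      rcases h5 with ⟨x0, hx0, y0, U0, V0, hne, he, -⟩ | ⟨x0, hx0, y0, U0, V0, hne, he, -⟩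
      · apply hx
        refine ⟨x0, hx0, U0, ?_⟩
        rw [he]
      · have e1 : E.2 = Sum.inl x0 :: U0 := congrArg Prod.fst he
        rw [hE, List.cons_append] at e1
        exact hw z (by simp) x0 hx0 (List.cons.inj e1).1

/-- equations of the same length. -/
theorem UBn {G : ℕ → ℕ} (hG : Monotone G) (hGB : GBn G) (E E' : Eqn X A) (hq : Quadratic E) (hr : Pool.Agent.helper36.WE.Reach E E')
    (hs : size E' = size E) : ∃ n ≤ G (size E) * size E + 2 * size E, PathLen n E E' := by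
  obtain ⟨-, h0⟩ := UB_lvs hr hq
  have h := h0 hs
  have hD : ∀ z, z ∈ dbl E ↔ occ E z = 2 := mem_dbl E
  have key : ∃ n ≤ G (size E) * size E + size E + size E, Walk Pool.Agent.helper36.WE.Step n E E' := by
    rcases UB_word (dbl E) E.2 with h2 | ⟨w, V, e1, e2, e3, e4⟩
    · rcases UB_word (dbl E) E.1 with h1 | ⟨w, V, e1, e2, e3, e4⟩
      · obtain ⟨Ω, p, hd, tl, s, c1, c2, c3⟩ := UB_enc (dbl E) E hD h1 h2
        obtain ⟨n, hn, hwk⟩ := UBn_fullcase hG hGB c1 c2 c3 hq hD h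
        exact ⟨n, by omega, hwk⟩
      · obtain ⟨n, hn, hwk⟩ := UBn_right (E := E.swap) hG hGB e3 e2 e4 e1 (quadratic_swap hq) (fun z => by rw [hD, occ_swap]) (UB_lvSwap h)
        rw [size_swap] at hn
        refine ⟨n, hn, ?_⟩
        have := walk_swap hwk
        simpa using this
    · exact UBn_right hG hGB e3 e2 e4 e1 hq hD h
  obtain ⟨n, hn, hwk⟩ := key
  exact ⟨n, by omega, Pool.Agent.helper36.WE.walk_pathLen hwk⟩

end

end NTH
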